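import Mathlib

set_option autoImplicit false
set_option linter.unusedSectionVars false
set_option linter.unusedSimpArgs false

namespace Pool.Agent.Helper71.Crux

open Finset

variable {V : Type*} [Fintype V] [DecidableEq V]

/-- vertex sets of cycles of `G` contained in `S` -/
noncomputable def cyc (G : SimpleGraph V) (S : Finset V) : Finset (Finset V) :=
  @Finset.filter (Finset V)
    (fun U => U ⊆ S ∧ ∃ u : V, ∃ p : G.Walk u u, p.IsCycle ∧ p.support.toFinset = U)
    (Classical.decPred _) Finset.univ

lemma mem_cyc {G : SimpleGraph V} {S U : Finset V} :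
    U ∈ cyc G S ↔ U ⊆ S ∧ ∃ u : V, ∃ p : G.Walk u u, p.IsCycle ∧ p.support.toFinset = U := by
  classical
  simp [cyc]

/-- outer neighbourhood of `W` inside `H` -/
noncomputable def nbr (G : SimpleGraph V) (H W : Finset V) : Finset V :=
  @Finset.filter V (fun v => v ∉ W ∧ ∃ w ∈ W, G.Adj v w) (Classical.decPred _) H

lemma mem_nbr {G : SimpleGraph V} {H W : Finset V} {v : V} :
    v ∈ nbr G H W ↔ v ∈ H ∧ v ∉ W ∧ ∃ w ∈ W, G.Adj v w := by
  classical
  simp [nbr]

/-- the component of `y` in `G[C]` -/
noncomputable def comp (G : SimpleGraph V) (C : Finset V) (y : V) : Finset V :=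
  @Finset.filter V (fun z => ∃ p : G.Walk y z, ∀ v ∈ p.support, v ∈ C) (Classical.decPred _) C

lemma mem_comp {G : SimpleGraph V} {C : Finset V} {y z : V} :
    z ∈ comp G C y ↔ z ∈ C ∧ ∃ p : G.Walk y z, ∀ v ∈ p.support, v ∈ C := by
  classical
  simp [comp]

lemma comp_subset {G : SimpleGraph V} {C : Finset V} {y : V} : comp G C y ⊆ C := by
  intro z hz; exact (mem_comp.1 hz).1

lemma self_mem_comp {G : SimpleGraph V} {C : Finset V} {y : V} (hy : y ∈ C) :
    y ∈ comp G C y := by
  refine mem_comp.2 ⟨hy, SimpleGraph.Walk.nil, ?_⟩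
  intro v hv
  simp at hv
  subst hv; exact hy

lemma comp_closed {G : SimpleGraph V} {C : Finset V} {y a b : V}
    (ha : a ∈ comp G C y) (hb : b ∈ C) (hab : G.Adj a b) : b ∈ comp G C y := by
  obtain ⟨haC, p, hp⟩ := mem_comp.1 ha
  refine mem_comp.2 ⟨hb, p.concat hab, ?_⟩
  intro v hv
  rw [SimpleGraph.Walk.support_concat] at hv
  simp only [List.concat_eq_append, List.mem_append, List.mem_singleton] at hv
  rcases hv with hv | hv
  · exact hp v hv
  · subst hv; exact hb

/-- a walk inside `C` starting in a closed set stays in the closed set -/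
lemma walk_stay {G : SimpleGraph V} {C W : Finset V}
    (hcl : ∀ a ∈ W, ∀ b ∈ C, G.Adj a b → b ∈ W) {a b : V} (p : G.Walk a b)
    (ha : a ∈ W) (hp : ∀ v ∈ p.support, v ∈ C) : ∀ v ∈ p.support, v ∈ W := by
  induction p with
  | nil => intro v hv; simp at hv; subst hv; exact ha
  | cons h p ih =>
    intro v hv
    rw [SimpleGraph.Walk.support_cons, List.mem_cons] at hv
    rcases hv with hv | hv
    · subst hv; exact ha
    · refine ih ?_ ?_ v hv
      · exact hcl _ ha _ (hp _ (by simp)) h
      · intro v hv; exact hp v (by simp [hv])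

/-- selection lemma -/
lemma selection (G : SimpleGraph V) (C : Finset V) (k : ℕ) (hk : k ≤ C.card) :
    (∃ W ⊆ C, (∀ a ∈ W, ∀ b ∈ C, G.Adj a b → b ∈ W) ∧ W.card ≤ k ∧ k ≤ 2 * W.card) ∨
    (∃ y ∈ C, k < (comp G C y).card) := by
  classical
  by_contra hcon
  push Not at hcon
  obtain ⟨h1, h2⟩ := hcon
  let F : Finset (Finset V) := C.powerset.filter
    (fun W => (∀ a ∈ W, ∀ b ∈ C, G.Adj a b → b ∈ W) ∧ W.card ≤ k)
  have hF : F.Nonempty := ⟨∅, by simp [F]⟩
  obtain ⟨W, hW, hmax⟩ := F.exists_max_image (fun W => W.card) hF
  have hW' : W ⊆ C ∧ (∀ a ∈ W, ∀ b ∈ C, G.Adj a b → b ∈ W) ∧ W.card ≤ k := by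
    simpa [F] using hW
  obtain ⟨hWC, hcl, hWk⟩ := hW'
  have hlt : 2 * W.card < k := h1 W hWC hcl hWk
  have hne : ∃ y ∈ C, y ∉ W := by
    by_contra hne
    push Not at hne
    have : C.card ≤ W.card := card_le_card hne
    omega
  obtain ⟨y, hyC, hyW⟩ := hne
  have hcomp : (comp G C y).card ≤ k := h2 y hyC
  have hcompF : comp G C y ∈ F := by
    simp only [F, mem_filter, mem_powerset]
    exact ⟨comp_subset, fun a ha b hb hab => comp_closed ha hb hab, hcomp⟩
  have hle1 := hmax _ hcompF
  have hdisj : Disjoint W (comp G C y) := by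
    rw [disjoint_left]
    intro z hzW hz
    obtain ⟨hzC, p, hp⟩ := mem_comp.1 hz
    have := walk_stay hcl p.reverse hzW (by simpa using hp) y (by simp)
    exact hyW this
  have hunion : W ∪ comp G C y ∈ F := by
    simp only [F, mem_filter, mem_powerset]
    refine ⟨union_subset hWC comp_subset, ?_, ?_⟩
    · intro a ha b hb hab
      rw [mem_union] at ha ⊢
      rcases ha with ha | ha
      · exact Or.inl (hcl a ha b hb hab)
      · exact Or.inr (comp_closed ha hb hab)
    · rw [card_union_of_disjoint hdisj]
      omega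
  have hle2 := hmax _ hunion
  rw [card_union_of_disjoint hdisj] at hle2
  have hpos : 0 < (comp G C y).card := card_pos.2 ⟨y, self_mem_comp hyC⟩
  omega

/-- prefix lemma -/
lemma prefix_path {G : SimpleGraph V} {x u : V} (P : G.Walk x u) (hP : P.IsPath) (N : Finset V)
    (hN : ∀ v ∈ N, v ∈ P.support) (hne : N.Nonempty) :
    ∃ v ∈ N, ∃ Q : G.Walk x v, Q.IsPath ∧ (∀ w ∈ Q.support, w ∈ P.support) ∧
      ∀ w ∈ N, w ∈ Q.support := by
  classical
  induction P generalizing N with
  | nil =>
    rename_i a
    obtain ⟨v, hv⟩ := hne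
    have hva : v = a := by simpa using hN v hv
    subst hva
    refine ⟨v, hv, SimpleGraph.Walk.nil, by simp, by simp, ?_⟩
    intro w hw
    simpa using hN w hw
  | cons h p ih =>
    rename_i a b c
    rw [SimpleGraph.Walk.cons_isPath_iff] at hP
    by_cases hex : ∃ v ∈ N, v ∈ p.support
    · obtain ⟨v, hvN, Q, hQ, hQs, hQN⟩ := ih hP.1 (N.filter (fun v => v ∈ p.support))
        (by intro v hv; exact (mem_filter.1 hv).2)
        (by obtain ⟨v, hv, hv'⟩ := hex; exact ⟨v, mem_filter.2 ⟨hv, hv'⟩⟩)
      refine ⟨v, (mem_filter.1 hvN).1, SimpleGraph.Walk.cons h Q, ?_, ?_, ?_⟩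
      · rw [SimpleGraph.Walk.cons_isPath_iff]
        exact ⟨hQ, fun ha => hP.2 (hQs _ ha)⟩
      · intro w hw
        rw [SimpleGraph.Walk.support_cons, List.mem_cons] at hw ⊢
        rcases hw with hw | hw
        · exact Or.inl hw
        · exact Or.inr (hQs w hw)
      · intro w hw
        rw [SimpleGraph.Walk.support_cons, List.mem_cons]
        have := hN w hw
        rw [SimpleGraph.Walk.support_cons, List.mem_cons] at this
        rcases this with h' | h'
        · exact Or.inl h'
        · exact Or.inr (hQN w (mem_filter.2 ⟨hw, h'⟩))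
    · push Not at hex
      have hall : ∀ v ∈ N, v = a := by
        intro v hv
        have := hN v hv
        rw [SimpleGraph.Walk.support_cons, List.mem_cons] at this
        rcases this with h' | h'
        · exact h'
        · exact absurd h' (hex v hv)
      obtain ⟨v, hv⟩ := hne
      have hva := hall v hv
      subst hva
      refine ⟨v, hv, SimpleGraph.Walk.nil, by simp, by simp, ?_⟩
      intro w hw
      simp [hall w hw]

/-- last vertex before entering `x` -/
lemma last_before {G : SimpleGraph V} {C : Finset V} {y x : V} (p : G.Walk y x)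
    (hp : ∀ v ∈ p.support, v ∈ C ∨ v = x) (hy : y ∈ C) (hx : x ∉ C) :
    ∃ y', G.Adj y' x ∧ ∃ q : G.Walk y y', ∀ v ∈ q.support, v ∈ C := by
  induction p with
  | nil => exact absurd hy hx
  | cons h p ih =>
    rename_i a b c
    by_cases hbc : b = c
    · subst hbc
      refine ⟨a, h, SimpleGraph.Walk.nil, ?_⟩
      intro v hv; simp at hv; subst hv; exact hy
    · have hb : b ∈ C := by
        rcases hp b (by simp) with h' | h'
        · exact h'
        · exact absurd h' hbc
      obtain ⟨y', hy', q, hq⟩ := ih (fun v hv => hp v (by simp [hv])) hb hx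
      refine ⟨y', hy', SimpleGraph.Walk.cons h q, ?_⟩
      intro v hv
      rw [SimpleGraph.Walk.support_cons, List.mem_cons] at hv
      rcases hv with hv | hv
      · subst hv; exact hy
      · exact hq v hv

lemma cycle_aux (G : SimpleGraph V) (H : Finset V) (k τ : ℕ) (hτ : 2 ≤ τ)
    (hexp : ∀ W ⊆ H, k ≤ 2 * W.card → W.card ≤ k → τ ≤ (nbr G H W).card) :
    ∀ (n : ℕ) (C : Finset V), C.card = n → C ⊆ H → k ≤ C.card →
    ∀ (x u : V) (P : G.Walk x u), P.IsPath → (∀ v ∈ P.support, v ∈ H) →
      (∀ v ∈ P.support, v ∉ C) →
      (∀ v ∈ H, v ∉ C → (∃ w ∈ C, G.Adj v w) → v ∈ P.support) →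
      (∀ c ∈ C, ∃ p : G.Walk c x, ∀ v ∈ p.support, v ∈ C ∨ v = x) →
      ∃ U ∈ cyc G H, τ + 1 ≤ U.card := by
  classical
  intro n
  induction n using Nat.strong_induction_on with
  | _ n IH =>
    intro C hCn hCH hkC x u P hP hPH hPC hN hconn
    have hxC : x ∉ C := hPC x (by simp)
    rcases selection G C k hkC with ⟨W, hWC, hcl, hWk, hkW⟩ | ⟨y, hyC, hylarge⟩
    · -- finish
      have hexpW := hexp W (hWC.trans hCH) hkW hWk
      have hNP : ∀ v ∈ nbr G H W, v ∈ P.support := by
        intro v hv
        obtain ⟨hvH, hvW, w, hwW, hvw⟩ := mem_nbr.1 hv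
        apply hN v hvH _ ⟨w, hWC hwW, hvw⟩
        intro hvC
        exact hvW (hcl w hwW v hvC hvw.symm)
      have hNne : (nbr G H W).Nonempty := by
        rw [← card_pos]; omega
      obtain ⟨v, hvN, Q, hQ, hQP, hQN⟩ := prefix_path P hP _ hNP hNne
      obtain ⟨hvH, hvW, w, hwW, hvw⟩ := mem_nbr.1 hvN
      have hwC := hWC hwW
      obtain ⟨R0, hR0⟩ := hconn w hwC
      let R := R0.bypass
      have hRpath : R.IsPath := R0.bypass_isPath
      have hRs : ∀ v ∈ R.support, v ∈ C ∨ v = x := fun v hv =>
        hR0 v (R0.support_bypass_subset_support hv)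
      have hwR : w ∈ R.support := by simp
      -- the path from w to v
      let T : G.Walk w v := R.append Q
      have hT : T.IsPath := by
        rw [SimpleGraph.Walk.isPath_def, SimpleGraph.Walk.support_append, List.nodup_append']
        refine ⟨hRpath.support_nodup, ?_, ?_⟩
        · exact hQ.support_nodup.tail
        · intro z hz1 hz2
          have hzQ : z ∈ Q.support := List.mem_of_mem_tail hz2
          have hzP := hQP z hzQ
          rcases hRs z hz1 with hzC | hzx
          · exact hPC z hzP hzC
          · subst hzx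
            have hnd := hQ.support_nodup
            rw [← SimpleGraph.Walk.cons_tail_support] at hnd
            exact (List.nodup_cons.1 hnd).1 hz2
      have hQcard : τ ≤ Q.support.toFinset.card := by
        refine hexpW.trans (card_le_card ?_)
        intro z hz
        rw [List.mem_toFinset]
        exact hQN z hz
      have hwQ : w ∉ Q.support := fun h => hPC w (hQP w h) hwC
      have hTsub : insert w Q.support.toFinset ⊆ T.support.toFinset := by
        intro z hz
        rw [mem_insert, List.mem_toFinset] at hz
        rw [List.mem_toFinset, SimpleGraph.Walk.mem_support_append_iff]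
        rcases hz with hz | hz
        · subst hz; left; simp
        · exact Or.inr hz
      have hTcard : τ + 1 ≤ T.support.toFinset.card := by
        have := card_le_card hTsub
        rw [card_insert_of_notMem (by simpa using hwQ)] at this
        omega
      have hTlen : T.support.toFinset.card = T.length + 1 := by
        rw [List.toFinset_card_of_nodup hT.support_nodup, SimpleGraph.Walk.length_support]
      let c : G.Walk v v := SimpleGraph.Walk.cons hvw T
      have hc : c.IsCycle := by
        rw [SimpleGraph.Walk.cons_isCycle_iff]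
        refine ⟨hT, ?_⟩
        intro hmem
        rw [Sym2.eq_swap] at hmem
        have := hT.length_eq_one_of_mem_edges hmem
        omega
      have hcs : c.support.toFinset = T.support.toFinset := by
        ext z
        simp only [c, SimpleGraph.Walk.support_cons, List.mem_toFinset, List.mem_cons]
        constructor
        · rintro (h | h)
          · subst h; simp
          · exact h
        · intro h; exact Or.inr h
      refine ⟨T.support.toFinset, mem_cyc.2 ⟨?_, v, c, hc, hcs⟩, hTcard⟩
      intro z hz
      rw [List.mem_toFinset, SimpleGraph.Walk.mem_support_append_iff] at hz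
      rcases hz with hz | hz
      · rcases hRs z hz with h | h
        · exact hCH h
        · subst h; exact hPH _ (by simp)
      · exact hPH z (hQP z hz)
    · -- recursion
      obtain ⟨p0, hp0⟩ := hconn y hyC
      obtain ⟨y', hy'x, q, hq⟩ := last_before p0 hp0 hyC hxC
      have hy'C : y' ∈ C := hq y' (by simp)
      have hy'comp : y' ∈ comp G C y := mem_comp.2 ⟨hy'C, q, hq⟩
      let C' := (comp G C y).erase y'
      have hC'card : C'.card + 1 = (comp G C y).card := card_erase_add_one hy'comp
      have hle : (comp G C y).card ≤ C.card := card_le_card comp_subset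
      refine IH C'.card (by omega) C' rfl ?_ (by omega) y' u (SimpleGraph.Walk.cons hy'x P) ?_ ?_ ?_ ?_ ?_
      · exact (erase_subset _ _).trans (comp_subset.trans hCH)
      · rw [SimpleGraph.Walk.cons_isPath_iff]
        exact ⟨hP, fun h => hPC y' h hy'C⟩
      · intro v hv
        rw [SimpleGraph.Walk.support_cons, List.mem_cons] at hv
        rcases hv with hv | hv
        · subst hv; exact hCH hy'C
        · exact hPH v hv
      · intro v hv
        rw [SimpleGraph.Walk.support_cons, List.mem_cons] at hv
        rcases hv with hv | hv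
        · subst hv; simp [C']
        · intro hvC'
          exact hPC v hv (comp_subset (mem_of_mem_erase hvC'))
      · intro v hvH hvC' hex
        rw [SimpleGraph.Walk.support_cons, List.mem_cons]
        by_cases hvy' : v = y'
        · exact Or.inl hvy'
        · right
          obtain ⟨w, hwC', hvw⟩ := hex
          have hwcomp : w ∈ comp G C y := mem_of_mem_erase hwC'
          have hvcomp : v ∉ comp G C y := fun h => hvC' (mem_erase.2 ⟨hvy', h⟩)
          apply hN v hvH _ ⟨w, comp_subset hwcomp, hvw⟩
          intro hvC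
          exact hvcomp (comp_closed hwcomp hvC hvw.symm)
      · intro c hc
        have hccomp : c ∈ comp G C y := mem_of_mem_erase hc
        obtain ⟨hcC, pc, hpc⟩ := mem_comp.1 hccomp
        refine ⟨pc.reverse.append q, ?_⟩
        intro v hv
        have hvC : v ∈ C := by
          rw [SimpleGraph.Walk.mem_support_append_iff] at hv
          rcases hv with hv | hv
          · exact hpc v (by simpa using hv)
          · exact hq v hv
        have : v ∈ comp G C y := by
          refine walk_stay (fun a ha b hb hab => comp_closed ha hb hab) (pc.reverse.append q)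
            hccomp ?_ v hv
          intro z hz
          rw [SimpleGraph.Walk.mem_support_append_iff] at hz
          rcases hz with hz | hz
          · exact hpc z (by simpa using hz)
          · exact hq z hz
        by_cases hvy' : v = y'
        · exact Or.inr hvy'
        · exact Or.inl (mem_erase.2 ⟨hvy', this⟩)

/-- Long cycles in locally expanding graphs (DFS lemma). -/
theorem cycle_lemma (G : SimpleGraph V) (H : Finset V) (k τ : ℕ) (hτ : 2 ≤ τ)
    (hH : k < H.card)
    (hexp : ∀ W ⊆ H, k ≤ 2 * W.card → W.card ≤ k → τ ≤ (nbr G H W).card) :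
    ∃ U ∈ cyc G H, τ + 1 ≤ U.card := by
  classical
  rcases selection G H k hH.le with ⟨W, hWC, hcl, hWk, hkW⟩ | ⟨y, hyC, hylarge⟩
  · have h := hexp W hWC hkW hWk
    have hempty : nbr G H W = ∅ := by
      rw [eq_empty_iff_forall_notMem]
      intro v hv
      obtain ⟨hvH, hvW, w, hwW, hvw⟩ := mem_nbr.1 hv
      exact hvW (hcl w hwW v hvH hvw.symm)
    rw [hempty] at h
    simp at h
    omega
  · let C' := (comp G H y).erase y
    have hyc : y ∈ comp G H y := self_mem_comp hyC
    have hC'card : C'.card + 1 = (comp G H y).card := card_erase_add_one hyc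
    refine cycle_aux G H k τ hτ hexp C'.card C' rfl ?_ (by omega) y y SimpleGraph.Walk.nil
      (by simp) ?_ ?_ ?_ ?_
    · exact (erase_subset _ _).trans comp_subset
    · intro v hv; simp at hv; subst hv; exact hyC
    · intro v hv; simp at hv; subst hv; simp [C']
    · intro v hvH hvC' hex
      obtain ⟨w, hwC', hvw⟩ := hex
      have hwcomp : w ∈ comp G H y := mem_of_mem_erase hwC'
      by_cases hvy : v = y
      · simp [hvy]
      · exfalso
        exact hvC' (mem_erase.2 ⟨hvy, comp_closed hwcomp hvH hvw.symm⟩)
    · intro c hc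
      have hccomp : c ∈ comp G H y := mem_of_mem_erase hc
      obtain ⟨hcC, pc, hpc⟩ := mem_comp.1 hccomp
      refine ⟨pc.reverse, ?_⟩
      intro v hv
      have : v ∈ comp G H y := by
        refine walk_stay (fun a ha b hb hab => comp_closed ha hb hab) pc.reverse hccomp ?_ v hv
        intro z hz
        exact hpc z (by simpa using hz)
      by_cases hvy : v = y
      · exact Or.inr hvy
      · exact Or.inl (mem_erase.2 ⟨hvy, this⟩)

end Pool.Agent.Helper71.Crux
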