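import Mathlib
import Pool.Agent.Helper71.CruxCycle

set_option autoImplicit false
set_option linter.unusedSectionVars false
set_option linter.unusedSimpArgs false

namespace Pool.Agent.Helper71.Crux

open Finset

variable {V : Type*} [Fintype V] [DecidableEq V]

/-- number of ordered adjacent pairs inside `S` (twice the number of edges) -/
noncomputable def adjp (G : SimpleGraph V) (S : Finset V) : ℕ :=
  (@Finset.filter (V × V) (fun p => G.Adj p.1 p.2) (Classical.decPred _) (S ×ˢ S)).card

lemma adjp_eq (G : SimpleGraph V) [DecidableRel G.Adj] (S : Finset V) :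
    adjp G S = ((S ×ˢ S).filter (fun p => G.Adj p.1 p.2)).card := by
  unfold adjp
  congr

lemma adjp_mono (G : SimpleGraph V) {S T : Finset V} (h : S ⊆ T) : adjp G S ≤ adjp G T := by
  classical
  rw [adjp_eq, adjp_eq]
  apply card_le_card
  apply filter_subset_filter
  exact product_subset_product h h

lemma adjp_split (G : SimpleGraph V) {H W : Finset V} (_hW : W ⊆ H) :
    adjp G H ≤ adjp G (H \ W) + adjp G (W ∪ nbr G H W) := by
  classical
  rw [adjp_eq, adjp_eq, adjp_eq]
  refine (card_le_card ?_).trans (card_union_le _ _)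
  intro p hp
  simp only [mem_filter, mem_product, mem_union, mem_sdiff, mem_nbr] at hp ⊢
  obtain ⟨⟨h1, h2⟩, hadj⟩ := hp
  by_cases hp1 : p.1 ∈ W
  · right
    refine ⟨⟨Or.inl hp1, ?_⟩, hadj⟩
    by_cases hp2 : p.2 ∈ W
    · exact Or.inl hp2
    · exact Or.inr ⟨h2, hp2, p.1, hp1, hadj.symm⟩
  · by_cases hp2 : p.2 ∈ W
    · right
      exact ⟨⟨Or.inr ⟨h1, hp1, p.2, hp2, hadj⟩, Or.inl hp2⟩, hadj⟩
    · left
      exact ⟨⟨⟨h1, hp1⟩, ⟨h2, hp2⟩⟩, hadj⟩

lemma adjp_le (G : SimpleGraph V) (S : Finset V) : adjp G S ≤ S.card * (S.card - 1) := by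
  classical
  rw [adjp_eq]
  have : ((S ×ˢ S).filter (fun p => G.Adj p.1 p.2)) ⊆ S.offDiag := by
    intro p hp
    simp only [mem_filter, mem_product] at hp
    rw [mem_offDiag]
    exact ⟨hp.1.1, hp.1.2, hp.2.ne⟩
  refine (card_le_card this).trans ?_
  rw [offDiag_card, Nat.mul_sub, mul_one]

/-- local sparsity gives a long cycle -/
theorem density_cycle (G : SimpleGraph V) (S : Finset V) (ρ θ : ℝ) (s k τ : ℕ)
    (hρ : 0 < ρ) (hS : S.Nonempty) (hdens : ρ * S.card ≤ adjp G S)
    (hloc : ∀ F ⊆ S, F.Nonempty → F.card ≤ s → (adjp G F : ℝ) ≤ θ * ρ * F.card)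
    (hτ : 2 ≤ τ) (hk : 1 ≤ k) (hks : k + τ ≤ s + 1) (hθ0 : 0 < θ) (hθ1 : θ < 1)
    (hcond : θ * ((τ : ℝ) - 1) < (1 - θ) * (k / 2)) :
    ∃ U ∈ cyc G S, τ + 1 ≤ U.card := by
  classical
  have hne : (S.powerset.filter (fun F => F.Nonempty)).Nonempty :=
    ⟨S, by simp [hS]⟩
  obtain ⟨H, hH, hmax⟩ := exists_max_image (S.powerset.filter (fun F => F.Nonempty))
    (fun F => (adjp G F : ℝ) / F.card) hne
  simp only [mem_filter, mem_powerset] at hH
  obtain ⟨hHS, hHne⟩ := hH
  have hHpos : (0 : ℝ) < H.card := by exact_mod_cast card_pos.2 hHne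
  have hSpos : (0 : ℝ) < S.card := by exact_mod_cast card_pos.2 hS
  set r : ℝ := (adjp G H : ℝ) / H.card with hr
  have hrρ : ρ ≤ r := by
    have := hmax S (by simp [hS])
    refine le_trans ?_ this
    rw [le_div_iff₀ hSpos]; exact hdens
  have hrH : (adjp G H : ℝ) = r * H.card := by
    rw [hr]; field_simp
  have hmax' : ∀ F ⊆ S, (adjp G F : ℝ) ≤ r * F.card := by
    intro F hF
    rcases F.eq_empty_or_nonempty with h | h
    · subst h; simp [adjp]
    · have := hmax F (by simp [hF, h])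
      have hFpos : (0 : ℝ) < F.card := by exact_mod_cast card_pos.2 h
      rwa [div_le_iff₀ hFpos] at this
  have hcyc : ∃ U ∈ cyc G H, τ + 1 ≤ U.card := by
    apply cycle_lemma G H k τ hτ
    · by_contra hcon
      push Not at hcon
      have h1 := hloc H hHS hHne (by omega)
      have h2 : ρ * H.card ≤ θ * ρ * H.card := by
        calc ρ * H.card ≤ r * H.card := mul_le_mul_of_nonneg_right hrρ hHpos.le
          _ = adjp G H := hrH.symm
          _ ≤ _ := h1
      have h3 : 0 < ρ * H.card := mul_pos hρ hHpos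
      nlinarith
    · intro W hW hkW hWk
      by_contra hcon
      push Not at hcon
      set F := W ∪ nbr G H W with hF
      have hFH : F ⊆ H := by
        apply union_subset hW
        intro v hv; exact (mem_nbr.1 hv).1
      have hFcard : F.card ≤ W.card + (nbr G H W).card := card_union_le _ _
      have hWne : W.Nonempty := by rw [← card_pos]; omega
      have hFne : F.Nonempty := hWne.mono subset_union_left
      have h1 := hloc F (hFH.trans hHS) hFne (by omega)
      have h2 := adjp_split G hW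
      have h2' : (adjp G H : ℝ) ≤ adjp G (H \ W) + adjp G F := by exact_mod_cast h2
      have h3 := hmax' (H \ W) (sdiff_subset.trans hHS)
      have h4 : ((H \ W).card : ℝ) = H.card - W.card := by
        rw [card_sdiff_of_subset hW, Nat.cast_sub (card_le_card hW)]
      rw [h4] at h3
      have h5 : r * W.card ≤ adjp G F := by nlinarith
      have h6 : ρ * W.card ≤ θ * ρ * F.card := by
        calc ρ * W.card ≤ r * W.card := mul_le_mul_of_nonneg_right hrρ (Nat.cast_nonneg _)
          _ ≤ adjp G F := h5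
          _ ≤ _ := h1
      have h7 : (W.card : ℝ) ≤ θ * F.card := by
        have : ρ * W.card ≤ ρ * (θ * F.card) := by linarith
        exact le_of_mul_le_mul_left this hρ
      have h8 : (F.card : ℝ) ≤ W.card + (τ - 1) := by
        have : F.card + 1 ≤ W.card + τ := by omega
        have : (F.card : ℝ) + 1 ≤ W.card + τ := by exact_mod_cast this
        linarith
      have h9 : (k : ℝ) / 2 ≤ W.card := by
        have : (k : ℝ) ≤ 2 * W.card := by exact_mod_cast hkW
        linarith
      have h10 : (1 - θ) * W.card ≤ θ * (τ - 1) := by nlinarith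
      have h11 : (1 - θ) * (k / 2) ≤ (1 - θ) * W.card := by
        apply mul_le_mul_of_nonneg_left h9; linarith
      linarith
  obtain ⟨U, hU, hUc⟩ := hcyc
  refine ⟨U, ?_, hUc⟩
  rw [mem_cyc] at hU ⊢
  exact ⟨hU.1.trans hHS, hU.2⟩

section colouring

variable (q : ℕ)

/-- vertices of `S` not coloured `0` -/
noncomputable def keep (S : Finset V) (c : V → Fin (q + 1)) : Finset V :=
  S.filter (fun v => c v ≠ 0)

lemma card_avoid (U : Finset V) :
    (((Finset.univ : Finset (V → Fin (q + 1))).filter (fun c => ∀ v ∈ U, c v ≠ 0)).card : ℝ)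
      = ((q : ℝ) + 1) ^ (Fintype.card V) * (1 - 1 / ((q : ℝ) + 1)) ^ U.card := by
  classical
  have h1 : (Finset.univ : Finset (V → Fin (q + 1))).filter (fun c => ∀ v ∈ U, c v ≠ 0)
      = Fintype.piFinset (fun v => if v ∈ U then (Finset.univ.erase (0 : Fin (q + 1)))
          else Finset.univ) := by
    ext c
    simp only [mem_filter, mem_univ, true_and, Fintype.mem_piFinset]
    constructor
    · intro h v
      by_cases hv : v ∈ U
      · simp [hv, h v hv]
      · simp [hv]
    · intro h v hv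
      have := h v
      simpa [hv] using this
  rw [h1, Fintype.card_piFinset, Nat.cast_prod]
  have h2 : ∀ v : V, (((if v ∈ U then (Finset.univ.erase (0 : Fin (q + 1)))
          else Finset.univ).card : ℕ) : ℝ)
      = ((q : ℝ) + 1) * (if v ∈ U then (1 - 1 / ((q : ℝ) + 1)) else 1) := by
    intro v
    by_cases hv : v ∈ U
    · simp only [hv, if_true]
      rw [card_erase_of_mem (mem_univ _)]
      simp only [card_univ, Fintype.card_fin, Nat.add_sub_cancel]
      field_simp
      ring
    · simp [hv]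
  rw [prod_congr rfl (fun v _ => h2 v), prod_mul_distrib, prod_const, card_univ]
  congr 1
  rw [prod_ite, prod_const, prod_const_one, mul_one]
  congr 2
  ext v; simp

lemma card_hit (x : V) :
    (((Finset.univ : Finset (V → Fin (q + 1))).filter (fun c => c x = 0)).card : ℝ)
      = ((q : ℝ) + 1) ^ (Fintype.card V) * (1 / ((q : ℝ) + 1)) := by
  classical
  have h := card_avoid (V := V) q {x}
  have h1 : ((Finset.univ : Finset (V → Fin (q + 1))).filter (fun c => ∀ v ∈ ({x} : Finset V), c v ≠ 0))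
    = ((Finset.univ : Finset (V → Fin (q + 1))).filter (fun c => ¬ c x = 0)) := by
    ext c; simp
  rw [h1] at h
  have h2 := card_filter_add_card_filter_not (s := (Finset.univ : Finset (V → Fin (q + 1)))) (fun c => c x = 0)
  have h3 : (((Finset.univ : Finset (V → Fin (q + 1))).filter (fun c => c x = 0)).card : ℝ)
    + ((Finset.univ : Finset (V → Fin (q + 1))).filter (fun c => ¬ c x = 0)).card
      = ((q : ℝ) + 1) ^ (Fintype.card V) := by
    have : (Finset.univ : Finset (V → Fin (q + 1))).card = (q + 1) ^ (Fintype.card V) := by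
      rw [card_univ, Fintype.card_fun, Fintype.card_fin]
    rw [this] at h2
    exact_mod_cast h2
  rw [h] at h3
  simp only [card_singleton, pow_one] at h3
  linarith

lemma sum_loss (G : SimpleGraph V) (S : Finset V) :
    ∑ c : V → Fin (q + 1), ((adjp G S : ℝ) - adjp G (keep q S c))
      ≤ 2 * (((q : ℝ) + 1) ^ (Fintype.card V) * (1 / ((q : ℝ) + 1))) * adjp G S := by
  classical
  set E := (S ×ˢ S).filter (fun p => G.Adj p.1 p.2) with hE
  have hEc : adjp G S = E.card := adjp_eq G S
  have h1 : ∀ c : V → Fin (q + 1), ((adjp G S : ℝ) - adjp G (keep q S c))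
      ≤ ∑ p ∈ E, ((if c p.1 = 0 then (1 : ℝ) else 0) + (if c p.2 = 0 then (1 : ℝ) else 0)) := by
    intro c
    have h2 : E.card ≤ (E.filter (fun p => c p.1 = 0 ∨ c p.2 = 0)).card + adjp G (keep q S c) := by
      rw [adjp_eq]
      refine (card_le_card ?_).trans (card_union_le _ _)
      intro p hp
      simp only [hE, mem_filter, mem_product, mem_union, keep] at hp ⊢
      tauto
    have h3 : ((E.filter (fun p => c p.1 = 0 ∨ c p.2 = 0)).card : ℝ)
        ≤ ∑ p ∈ E, ((if c p.1 = 0 then (1 : ℝ) else 0) + (if c p.2 = 0 then (1 : ℝ) else 0)) := by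
      rw [card_filter]
      push_cast
      apply sum_le_sum
      intro p _
      by_cases h : c p.1 = 0 <;> by_cases h' : c p.2 = 0 <;> simp [h, h']
    have h4 : (E.card : ℝ) ≤ (E.filter (fun p => c p.1 = 0 ∨ c p.2 = 0)).card + adjp G (keep q S c) := by
      exact_mod_cast h2
    rw [hEc]
    linarith
  refine (sum_le_sum (fun c _ => h1 c)).trans ?_
  rw [sum_comm]
  have h5 : ∀ p ∈ E, ∑ c : V → Fin (q + 1), ((if c p.1 = 0 then (1 : ℝ) else 0) + (if c p.2 = 0 then (1 : ℝ) else 0))
     = 2 * (((q : ℝ) + 1) ^ (Fintype.card V) * (1 / ((q : ℝ) + 1))) := by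
    intro p _
    rw [sum_add_distrib]
    have h6 : ∀ x : V, ∑ c : V → Fin (q + 1), (if c x = 0 then (1 : ℝ) else 0)
        = ((q : ℝ) + 1) ^ (Fintype.card V) * (1 / ((q : ℝ) + 1)) := by
      intro x
      rw [← card_hit (V := V) q x, card_filter]
      push_cast
      rfl
    rw [h6, h6]; ring
  rw [sum_congr rfl h5, sum_const, nsmul_eq_mul, hEc]
  linarith

end colouring

/-- local sparsity gives many cycles -/
theorem many_cycles (G : SimpleGraph V) (S : Finset V) (ρ γ : ℝ) (s : ℕ)
    (hγ0 : 0 < γ) (hγ1 : γ ≤ 1) (hγs : 16 ≤ γ * s) (hρ : 0 < ρ) (hS : S.Nonempty)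
    (hdens : ρ * S.card ≤ adjp G S)
    (hloc : ∀ F ⊆ S, F.Nonempty → F.card ≤ s → (adjp G F : ℝ) ≤ (1 - γ) * ρ * F.card) :
    (1 / 2) * Real.exp (γ ^ 2 * s / 144) ≤ (cyc G S).card := by
  classical
  -- number of colours
  obtain ⟨q, hq1, hq2⟩ : ∃ q : ℕ, 8 / γ ≤ (q : ℝ) + 1 ∧ (q : ℝ) + 1 ≤ 9 / γ := by
    refine ⟨⌈8 / γ⌉₊ - 1, ?_, ?_⟩
    · have h1 : 0 < ⌈8 / γ⌉₊ := Nat.ceil_pos.2 (by positivity)
      have h2 : ((⌈8 / γ⌉₊ - 1 : ℕ) : ℝ) + 1 = ⌈8 / γ⌉₊ := by
        have : ⌈8 / γ⌉₊ - 1 + 1 = ⌈8 / γ⌉₊ := by omega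
        exact_mod_cast this
      rw [h2]; exact Nat.le_ceil _
    · have h1 : 0 < ⌈8 / γ⌉₊ := Nat.ceil_pos.2 (by positivity)
      have h2 : ((⌈8 / γ⌉₊ - 1 : ℕ) : ℝ) + 1 = ⌈8 / γ⌉₊ := by
        have : ⌈8 / γ⌉₊ - 1 + 1 = ⌈8 / γ⌉₊ := by omega
        exact_mod_cast this
      rw [h2]
      have h3 := Nat.ceil_lt_add_one (show 0 ≤ 8 / γ by positivity)
      have h4 : 8 / γ + 1 ≤ 9 / γ := by
        rw [div_add_one hγ0.ne', div_le_div_iff_of_pos_right hγ0]
        linarith
      linarith
  have hq0 : (0 : ℝ) < (q : ℝ) + 1 := by positivity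
  set n := Fintype.card V with hn
  set Q : ℝ := ((q : ℝ) + 1) ^ n with hQ
  have hQ0 : 0 < Q := by positivity
  have h4q : 4 / ((q : ℝ) + 1) ≤ γ / 2 := by
    rw [div_le_div_iff₀ hq0 (by norm_num)]
    rw [div_le_iff₀ hγ0] at hq1
    linarith
  have hspos : (0 : ℝ) < S.card := by exact_mod_cast card_pos.2 hS
  have hadjpos : (0 : ℝ) < adjp G S := lt_of_lt_of_le (by positivity) hdens
  -- Good colourings
  let Good := (Finset.univ : Finset (V → Fin (q + 1))).filter
    (fun c => (1 - γ / 2) * (adjp G S : ℝ) ≤ adjp G (keep q S c))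
  have hGood : Q / 2 ≤ Good.card := by
    let Bad := (Finset.univ : Finset (V → Fin (q + 1))).filter
      (fun c => ¬ ((1 - γ / 2) * (adjp G S : ℝ) ≤ adjp G (keep q S c)))
    have h1 : (Good.card : ℝ) + Bad.card = Q := by
      have h2 := card_filter_add_card_filter_not (s := (Finset.univ : Finset (V → Fin (q + 1))))
        (fun c => (1 - γ / 2) * (adjp G S : ℝ) ≤ adjp G (keep q S c))
      have h3 : (Finset.univ : Finset (V → Fin (q + 1))).card = (q + 1) ^ n := by
        rw [card_univ, Fintype.card_fun, Fintype.card_fin]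
      rw [h3] at h2
      rw [hQ]
      exact_mod_cast h2
    have h2 : (Bad.card : ℝ) * ((γ / 2) * adjp G S)
        ≤ ∑ c : V → Fin (q + 1), ((adjp G S : ℝ) - adjp G (keep q S c)) := by
      calc (Bad.card : ℝ) * ((γ / 2) * adjp G S)
          = ∑ c ∈ Bad, ((γ / 2) * adjp G S) := by rw [sum_const, nsmul_eq_mul]
        _ ≤ ∑ c ∈ Bad, ((adjp G S : ℝ) - adjp G (keep q S c)) := by
            apply sum_le_sum
            intro c hc
            have := (mem_filter.1 hc).2
            push Not at this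
            linarith
        _ ≤ _ := by
            apply sum_le_sum_of_subset_of_nonneg (subset_univ _)
            intro c _ _
            have : adjp G (keep q S c) ≤ adjp G S := adjp_mono G (filter_subset _ _)
            have : (adjp G (keep q S c) : ℝ) ≤ adjp G S := by exact_mod_cast this
            linarith
    have h3 := h2.trans (sum_loss (V := V) q G S)
    have h4 : (Bad.card : ℝ) * (γ / 2) ≤ 2 * (Q * (1 / ((q : ℝ) + 1))) := by
      have : (Bad.card : ℝ) * (γ / 2) * adjp G S ≤ 2 * (Q * (1 / ((q : ℝ) + 1))) * adjp G S := by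
        rw [hQ]; linarith
      exact le_of_mul_le_mul_right this hadjpos
    have h5 : 2 * (Q * (1 / ((q : ℝ) + 1))) ≤ (Q / 2) * (γ / 2) := by
      have : 2 * (Q * (1 / ((q : ℝ) + 1))) = (Q / 2) * (4 / ((q : ℝ) + 1)) := by ring
      rw [this]
      gcongr
    have h6 : (Bad.card : ℝ) ≤ Q / 2 := by
      have : (Bad.card : ℝ) * (γ / 2) ≤ (Q / 2) * (γ / 2) := h4.trans h5
      exact le_of_mul_le_mul_right this (by positivity)
    linarith
  -- parameters
  have hs16 : (16 : ℝ) ≤ s := by nlinarith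
  have hs16' : 16 ≤ s := by exact_mod_cast hs16
  set k := s / 2 with hk
  have hk4 : (s : ℝ) / 4 ≤ k := by
    have : s ≤ 4 * k := by omega
    have : (s : ℝ) ≤ 4 * k := by exact_mod_cast this
    linarith
  set τ := ⌊γ * k / 4⌋₊ + 1 with hτ
  have hγk : 4 ≤ γ * k := by nlinarith
  have hfl1 : (1 : ℕ) ≤ ⌊γ * k / 4⌋₊ := by
    rw [Nat.one_le_floor_iff]; linarith
  have hfl2 : (⌊γ * k / 4⌋₊ : ℝ) ≤ γ * k / 4 := Nat.floor_le (by positivity)
  have hfl3 : γ * k / 4 < (⌊γ * k / 4⌋₊ : ℝ) + 1 := Nat.lt_floor_add_one _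
  have hkpos : (0 : ℝ) < k := by
    by_contra h
    have : (k : ℝ) = 0 := le_antisymm (not_lt.1 h) (by positivity)
    rw [this] at hγk; linarith
  have hτk : ⌊γ * k / 4⌋₊ ≤ k := by
    have : (⌊γ * k / 4⌋₊ : ℝ) ≤ k := by
      refine hfl2.trans ?_
      nlinarith
    exact_mod_cast this
  -- each good colouring yields a long cycle
  have hcyc : ∀ c ∈ Good, ∃ U ∈ cyc G S, τ + 1 ≤ U.card ∧ ∀ v ∈ U, c v ≠ 0 := by
    intro c hc
    have hc' : (1 - γ / 2) * (adjp G S : ℝ) ≤ adjp G (keep q S c) := (mem_filter.1 hc).2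
    have hkS : keep q S c ⊆ S := filter_subset _ _
    have hne : (keep q S c).Nonempty := by
      rw [nonempty_iff_ne_empty]
      intro h
      rw [h] at hc'
      have : adjp G (∅ : Finset V) = 0 := by simp [adjp]
      rw [this] at hc'
      have : 0 < (1 - γ / 2) * (adjp G S : ℝ) := by
        apply mul_pos _ hadjpos; linarith
      push_cast at hc'
      linarith
    have hcardle : ((keep q S c).card : ℝ) ≤ S.card := by exact_mod_cast card_le_card hkS
    obtain ⟨U, hU, hUc⟩ := density_cycle G (keep q S c) ((1 - γ / 2) * ρ) (1 - γ / 2) s k τ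
      (by apply mul_pos _ hρ; linarith) hne
      (by
        calc (1 - γ / 2) * ρ * (keep q S c).card ≤ (1 - γ / 2) * ρ * S.card := by
              apply mul_le_mul_of_nonneg_left hcardle
              apply mul_nonneg _ hρ.le; linarith
          _ = (1 - γ / 2) * (ρ * S.card) := by ring
          _ ≤ (1 - γ / 2) * adjp G S := by
              apply mul_le_mul_of_nonneg_left hdens; linarith
          _ ≤ _ := hc')
      (by
        intro F hF hFne hFs
        refine (hloc F (hF.trans hkS) hFne hFs).trans ?_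
        have hFpos : (0 : ℝ) ≤ F.card := by positivity
        have : (1 - γ) * ρ ≤ (1 - γ / 2) * ((1 - γ / 2) * ρ) := by nlinarith [sq_nonneg γ]
        exact mul_le_mul_of_nonneg_right this hFpos)
      (by omega) (by omega) (by omega) (by linarith) (by linarith)
      (by
        rw [hτ]
        push_cast
        have : (1 - γ / 2) * ((⌊γ * k / 4⌋₊ : ℝ) + 1 - 1) ≤ (1 - γ / 2) * (γ * k / 4) := by
          apply mul_le_mul_of_nonneg_left _ (by linarith)
          linarith
        have h2 : 0 < γ / 2 * (γ * k / 4) := by positivity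
        nlinarith)
    rw [mem_cyc] at hU
    refine ⟨U, mem_cyc.2 ⟨hU.1.trans hkS, hU.2⟩, hUc, ?_⟩
    intro v hv
    have := hU.1 hv
    exact (mem_filter.1 this).2
  -- covering
  have hcover : Good ⊆ ((cyc G S).filter (fun U => τ + 1 ≤ U.card)).biUnion
      (fun U => (Finset.univ : Finset (V → Fin (q + 1))).filter (fun c => ∀ v ∈ U, c v ≠ 0)) := by
    intro c hc
    obtain ⟨U, hU, hUc, hUv⟩ := hcyc c hc
    rw [mem_biUnion]
    exact ⟨U, mem_filter.2 ⟨hU, hUc⟩, mem_filter.2 ⟨mem_univ _, hUv⟩⟩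
  have h1q : 0 ≤ 1 - 1 / ((q : ℝ) + 1) := by
    rw [sub_nonneg, div_le_one hq0]; linarith [show (0 : ℝ) ≤ q by positivity]
  have hcount : (Good.card : ℝ) ≤ (cyc G S).card * (Q * Real.exp (-(γ ^ 2 * s / 144))) := by
    have h1 : (Good.card : ℝ) ≤ ∑ U ∈ (cyc G S).filter (fun U => τ + 1 ≤ U.card),
        (((Finset.univ : Finset (V → Fin (q + 1))).filter (fun c => ∀ v ∈ U, c v ≠ 0)).card : ℝ) := by
      have := (card_le_card hcover).trans card_biUnion_le
      exact_mod_cast this
    refine h1.trans ?_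
    have h2 : ∀ U ∈ (cyc G S).filter (fun U => τ + 1 ≤ U.card),
        (((Finset.univ : Finset (V → Fin (q + 1))).filter (fun c => ∀ v ∈ U, c v ≠ 0)).card : ℝ)
          ≤ Q * Real.exp (-(γ ^ 2 * s / 144)) := by
      intro U hU
      have hUc := (mem_filter.1 hU).2
      rw [card_avoid]
      apply mul_le_mul_of_nonneg_left _ hQ0.le
      have h3 : (1 - 1 / ((q : ℝ) + 1)) ^ U.card ≤ Real.exp (-(1 / ((q : ℝ) + 1))) ^ U.card := by
        apply pow_le_pow_left₀ h1q
        have := Real.add_one_le_exp (-(1 / ((q : ℝ) + 1)))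
        linarith
      refine h3.trans ?_
      rw [← Real.exp_nat_mul]
      apply Real.exp_le_exp.2
      have h4 : γ * s / 16 ≤ U.card := by
        have h5 : ((τ : ℝ) + 1) ≤ U.card := by exact_mod_cast hUc
        have h6 : (τ : ℝ) = (⌊γ * k / 4⌋₊ : ℝ) + 1 := by rw [hτ]; push_cast; ring
        nlinarith
      have h7 : γ / 9 ≤ 1 / ((q : ℝ) + 1) := by
        rw [div_le_div_iff₀ (by norm_num) hq0]
        rw [le_div_iff₀ hγ0] at hq2
        linarith
      have h8 : (γ * s / 16) * (γ / 9) ≤ U.card * (1 / ((q : ℝ) + 1)) := by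
        apply mul_le_mul h4 h7 (by positivity) (by positivity)
      have h9 : (γ * s / 16) * (γ / 9) = γ ^ 2 * s / 144 := by ring
      rw [h9] at h8
      linarith
    calc ∑ U ∈ (cyc G S).filter (fun U => τ + 1 ≤ U.card),
        (((Finset.univ : Finset (V → Fin (q + 1))).filter (fun c => ∀ v ∈ U, c v ≠ 0)).card : ℝ)
        ≤ ∑ U ∈ (cyc G S).filter (fun U => τ + 1 ≤ U.card), Q * Real.exp (-(γ ^ 2 * s / 144)) :=
          sum_le_sum h2
      _ = ((cyc G S).filter (fun U => τ + 1 ≤ U.card)).card * (Q * Real.exp (-(γ ^ 2 * s / 144))) := by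
          rw [sum_const, nsmul_eq_mul]
      _ ≤ _ := by
          apply mul_le_mul_of_nonneg_right _ (by positivity)
          exact_mod_cast card_le_card (filter_subset _ _)
  have hfin : Q / 2 ≤ (cyc G S).card * (Q * Real.exp (-(γ ^ 2 * s / 144))) := hGood.trans hcount
  rw [Real.exp_neg] at hfin
  have he : 0 < Real.exp (γ ^ 2 * s / 144) := Real.exp_pos _
  have h1 : Q / 2 = Q * (1 / 2) := by ring
  have h2 : (cyc G S).card * (Q * (Real.exp (γ ^ 2 * s / 144))⁻¹)
      = Q * ((cyc G S).card * (Real.exp (γ ^ 2 * s / 144))⁻¹) := by ring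
  rw [h1, h2] at hfin
  have h3 := le_of_mul_le_mul_left hfin hQ0
  rw [← div_eq_mul_inv, le_div_iff₀ he] at h3
  exact h3

end Pool.Agent.Helper71.Crux
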