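import Mathlib
import Pool.Agent.Helper71.CruxCount

set_option autoImplicit false
set_option linter.unusedSectionVars false
set_option linter.unusedSimpArgs false

namespace Pool.Agent.Helper71.Crux

open Finset

variable {V : Type*} [Fintype V] [DecidableEq V]

/-- fourth root -/
noncomputable def g4 (m : ℕ) : ℝ := Real.sqrt (Real.sqrt m)

lemma g4_one_le {m : ℕ} (h : 1 ≤ m) : 1 ≤ g4 m := by
  unfold g4
  rw [Real.one_le_sqrt, Real.one_le_sqrt]
  exact_mod_cast h

lemma g4_sq (m : ℕ) : g4 m ^ 2 = Real.sqrt m := by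
  unfold g4
  rw [Real.sq_sqrt (Real.sqrt_nonneg _)]

lemma g4_half {a m : ℕ} (h : 16 * a ≤ m) : g4 a ≤ g4 m / 2 := by
  unfold g4
  have h1 : (4 : ℝ) * Real.sqrt a ≤ Real.sqrt m := by
    have : (4 : ℝ) = Real.sqrt 16 := by
      rw [show (16 : ℝ) = 4 ^ 2 by norm_num, Real.sqrt_sq (by norm_num)]
    rw [this, ← Real.sqrt_mul (by norm_num)]
    apply Real.sqrt_le_sqrt
    exact_mod_cast h
  have h2 : (2 : ℝ) * Real.sqrt (Real.sqrt a) ≤ Real.sqrt (Real.sqrt m) := by
    have : (2 : ℝ) = Real.sqrt 4 := by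
      rw [show (4 : ℝ) = 2 ^ 2 by norm_num, Real.sqrt_sq (by norm_num)]
    rw [this, ← Real.sqrt_mul (by norm_num)]
    apply Real.sqrt_le_sqrt
    exact h1
  linarith

/-- the penalty -/
noncomputable def pen (m : ℕ) : ℝ := 1 + 1 / (4 * g4 m)

lemma pen_ge_one (m : ℕ) : 1 ≤ pen m := by
  unfold pen
  have : 0 ≤ 1 / (4 * g4 m) := by
    unfold g4; positivity
  linarith

lemma pen_le {m : ℕ} (h : 1 ≤ m) : pen m ≤ 5 / 4 := by
  unfold pen
  have h1 := g4_one_le h
  have : 1 / (4 * g4 m) ≤ 1 / 4 := by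
    apply one_div_le_one_div_of_le (by norm_num)
    linarith
  linarith

lemma pen_compare {a m : ℕ} (ha : 1 ≤ a) (h : 16 * a ≤ m) :
    pen m ≤ (1 - 1 / (10 * g4 m)) * pen a := by
  unfold pen
  have h1 := g4_one_le ha
  have h2 := g4_half h
  have h3 : 1 ≤ g4 m := by linarith
  set x := g4 m
  set y := g4 a
  have h4 : 1 / (2 * x) ≤ 1 / (4 * y) := by
    apply one_div_le_one_div_of_le (by positivity)
    linarith
  have h5 : 0 ≤ 1 - 1 / (10 * x) := by
    have : 1 / (10 * x) ≤ 1 := by
      rw [div_le_one (by positivity)]; linarith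
    linarith
  have h6 : (1 - 1 / (10 * x)) * (1 + 1 / (2 * x)) ≤ (1 - 1 / (10 * x)) * (1 + 1 / (4 * y)) := by
    apply mul_le_mul_of_nonneg_left _ h5
    linarith
  refine le_trans ?_ h6
  have hx : 0 < x := by linarith
  set z := 1 / x with hz
  have hz1 : z ≤ 1 := by
    rw [hz, div_le_one hx]; exact h3
  have hz0 : 0 < z := by positivity
  have e1 : 1 / (4 * x) = z / 4 := by rw [hz]; field_simp
  have e2 : 1 / (10 * x) = z / 10 := by rw [hz]; field_simp
  have e3 : 1 / (2 * x) = z / 2 := by rw [hz]; field_simp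
  rw [e1, e2, e3]
  nlinarith

lemma exp_cube {z : ℝ} (hz : 0 ≤ z) : z ^ 3 / 6 ≤ Real.exp z := by
  have := Real.sum_le_exp_of_nonneg hz 4
  simp [Finset.sum_range_succ, Nat.factorial] at this
  nlinarith [sq_nonneg z]

lemma num_A {y : ℝ} (hy : 10 ^ 25 ≤ y) : 2 * y ^ 2 ≤ Real.exp (y / 921600) := by
  have hypos : 0 < y := by linarith [show (0:ℝ) < 10 ^ 25 by norm_num]
  have h0 : (y / 921600) ^ 3 / 6 ≤ Real.exp (y / 921600) := exp_cube (by positivity)
  refine le_trans ?_ h0
  have h1 : (y / 921600) ^ 3 / 6 = y ^ 2 * (y / (921600 ^ 3 * 6)) := by ring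
  rw [h1]
  have h6 : (2 : ℝ) ≤ y / (921600 ^ 3 * 6) := by
    rw [le_div_iff₀ (by positivity)]
    refine le_trans ?_ hy
    norm_num
  nlinarith [sq_nonneg y]

lemma num_B {x : ℝ} (hx : 10 ^ 25 ≤ x) : 2 * x ^ 2 ≤ Real.exp (x / 400 - x / 921600) := by
  have hypos : 0 < x := by linarith [show (0:ℝ) < 10 ^ 25 by norm_num]
  have h6 : Real.exp (x / 500) ≤ Real.exp (x / 400 - x / 921600) := by
    apply Real.exp_le_exp.2
    linarith
  refine le_trans ?_ h6
  have h0 : (x / 500) ^ 3 / 6 ≤ Real.exp (x / 500) := exp_cube (by positivity)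
  refine le_trans ?_ h0
  have h1 : (x / 500) ^ 3 / 6 = x ^ 2 * (x / (500 ^ 3 * 6)) := by ring
  rw [h1]
  have h6 : (2 : ℝ) ≤ x / (500 ^ 3 * 6) := by
    rw [le_div_iff₀ (by positivity)]
    refine le_trans ?_ hx
    norm_num
  nlinarith [sq_nonneg x]

theorem potential_lemma (G : SimpleGraph V) (S : Finset V) (D : ℝ) (t : ℕ)
    (hD : 10 ^ 25 ≤ D) (hS : S.Nonempty) (hdens : 4 * D * S.card ≤ adjp G S)
    (ht : ∀ F : Finset V, F.Nonempty → D * F.card ≤ adjp G F → t ≤ F.card)
    (hDt : D ≤ t) :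
    ∃ H ⊆ S, H.Nonempty ∧ (H.card : ℝ) * Real.exp (t / 921600) ≤ (cyc G H).card := by
  classical
  have hD0 : 0 < D := by linarith [show (0:ℝ) < 10 ^ 25 by norm_num]
  have hne : (S.powerset.filter (fun F => F.Nonempty)).Nonempty := ⟨S, by simp [hS]⟩
  obtain ⟨H, hH, hmax⟩ := exists_max_image (S.powerset.filter (fun F => F.Nonempty))
    (fun F => (adjp G F : ℝ) / F.card * pen F.card) hne
  simp only [mem_filter, mem_powerset] at hH
  obtain ⟨hHS, hHne⟩ := hH
  refine ⟨H, hHS, hHne, ?_⟩
  set m := H.card with hm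
  have hm1 : 1 ≤ m := card_pos.2 hHne
  have hmpos : (0 : ℝ) < m := by exact_mod_cast hm1
  have hSpos : (0 : ℝ) < S.card := by exact_mod_cast card_pos.2 hS
  set ρ : ℝ := (adjp G H : ℝ) / m with hρdef
  have hρH : ρ * m = adjp G H := by rw [hρdef]; field_simp
  have hρ0 : 0 ≤ ρ := by positivity
  have hρ : 16 / 5 * D ≤ ρ := by
    have h1 := hmax S (by simp [hS])
    have h2 : 4 * D ≤ (adjp G S : ℝ) / S.card := by
      rw [le_div_iff₀ hSpos]; exact hdens
    have h3 : 4 * D ≤ (adjp G S : ℝ) / S.card * pen S.card := by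
      have := pen_ge_one S.card
      nlinarith
    have h4 : ρ * pen m ≤ ρ * (5 / 4) := mul_le_mul_of_nonneg_left (pen_le hm1) hρ0
    linarith
  have hρpos : 0 < ρ := by linarith
  have htD : (10 : ℝ) ^ 25 ≤ t := hD.trans hDt
  rcases le_or_gt ((t : ℝ) ^ 2) m with hcase | hcase
  · -- large `m`
    have hsm : (t : ℝ) ≤ Real.sqrt m := by
      apply Real.le_sqrt_of_sq_le; exact hcase
    have hy : (10 : ℝ) ^ 25 ≤ Real.sqrt m := htD.trans hsm
    set y := Real.sqrt m with hydef
    have hy2 : y ^ 2 = m := by rw [hydef, Real.sq_sqrt hmpos.le]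
    have hg2 : g4 m ^ 2 = y := g4_sq m
    have hg1 : 1 ≤ g4 m := g4_one_le hm1
    have hgy : g4 m ≤ y := by nlinarith
    set s := m / 16 with hs
    have hm32 : (32 : ℝ) ≤ m := by
      rw [← hy2]; nlinarith
    have hm32' : 32 ≤ m := by exact_mod_cast hm32
    have hs32 : (m : ℝ) / 32 ≤ s := by
      have : m ≤ 32 * s := by omega
      have : (m : ℝ) ≤ 32 * s := by exact_mod_cast this
      linarith
    have key := many_cycles G H ρ (1 / (10 * g4 m)) s (by positivity)
      (by rw [div_le_one (by positivity)]; linarith)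
      (by
        rw [one_div_mul_eq_div, le_div_iff₀ (by positivity)]
        have : 16 * (10 * g4 m) ≤ y * y / 32 := by nlinarith
        have h2 : y * y = m := by rw [← hy2]; ring
        rw [h2] at this
        linarith)
      hρpos hHne (le_of_eq hρH)
      (by
        intro F hF hFne hFs
        have hFc1 : 1 ≤ F.card := card_pos.2 hFne
        have hFpos : (0 : ℝ) < F.card := by exact_mod_cast hFc1
        have h1 := hmax F (by simp [hF.trans hHS, hFne])
        have h2 := pen_compare hFc1 (show 16 * F.card ≤ m by omega)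
        have h3 : (adjp G F : ℝ) / F.card * pen F.card
            ≤ ρ * ((1 - 1 / (10 * g4 m)) * pen F.card) :=
          h1.trans (mul_le_mul_of_nonneg_left h2 hρ0)
        have h4 : (adjp G F : ℝ) / F.card ≤ ρ * (1 - 1 / (10 * g4 m)) := by
          have hp : 0 < pen F.card := by linarith [pen_ge_one F.card]
          have : (adjp G F : ℝ) / F.card * pen F.card
            ≤ ρ * (1 - 1 / (10 * g4 m)) * pen F.card := by linarith
          exact le_of_mul_le_mul_right this hp
        rw [div_le_iff₀ hFpos] at h4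
        linarith)
    refine le_trans ?_ key
    have h1 : y / 460800 ≤ (1 / (10 * g4 m)) ^ 2 * s / 144 := by
      have h2 : (1 / (10 * g4 m)) ^ 2 = 1 / (100 * y) := by
        rw [div_pow, mul_pow, hg2]; norm_num
      rw [h2]
      have hypos : 0 < y := by linarith [show (0:ℝ) < 10 ^ 25 by norm_num]
      rw [one_div_mul_eq_div, div_div, le_div_iff₀ (by positivity)]
      have : y / 460800 * (100 * y * 144) = y ^ 2 / 32 := by ring
      rw [this, hy2]
      exact hs32
    have h2 : Real.exp (y / 460800) ≤ Real.exp ((1 / (10 * g4 m)) ^ 2 * s / 144) :=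
      Real.exp_le_exp.2 h1
    have h3 : (m : ℝ) * Real.exp (t / 921600) ≤ y ^ 2 * Real.exp (y / 921600) := by
      rw [hy2]
      apply mul_le_mul_of_nonneg_left _ hmpos.le
      apply Real.exp_le_exp.2
      linarith
    have h4 : Real.exp (y / 460800) = Real.exp (y / 921600) * Real.exp (y / 921600) := by
      rw [← Real.exp_add]; congr 1; ring
    have h5 : 2 * y ^ 2 ≤ Real.exp (y / 921600) := num_A hy
    have h6 : 0 < Real.exp (y / 921600) := Real.exp_pos _
    have h7 : y ^ 2 * Real.exp (y / 921600) ≤ (1 / 2) * Real.exp (y / 460800) := by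
      rw [h4]; nlinarith
    linarith
  · -- small `m`
    have ht1 : 1 ≤ t := by
      have : (1 : ℝ) ≤ t := by linarith [show (1:ℝ) ≤ 10 ^ 25 by norm_num]
      exact_mod_cast this
    have hts : ((t - 1 : ℕ) : ℝ) = t - 1 := by
      rw [Nat.cast_sub ht1]; simp
    have key := many_cycles G H ρ (11 / 16) (t - 1) (by norm_num) (by norm_num)
      (by rw [hts]; linarith [show (1000:ℝ) ≤ 10 ^ 25 by norm_num])
      hρpos hHne (le_of_eq hρH)
      (by
        intro F hF hFne hFs
        have hFpos : (0 : ℝ) < F.card := by exact_mod_cast card_pos.2 hFne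
        have h1 : ¬ (D * F.card ≤ adjp G F) := by
          intro h
          have := ht F hFne h
          omega
        push Not at h1
        have h2 : D ≤ (1 - 11 / 16) * ρ := by linarith
        have h3 := mul_le_mul_of_nonneg_right h2 hFpos.le
        linarith)
    refine le_trans ?_ key
    rw [hts]
    set x : ℝ := (t : ℝ) with hx
    have h1 : x / 400 ≤ (11 / 16) ^ 2 * (x - 1) / 144 := by
      nlinarith [show (1000:ℝ) ≤ 10 ^ 25 by norm_num]
    have h2 : Real.exp (x / 400) ≤ Real.exp ((11 / 16) ^ 2 * (x - 1) / 144) :=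
      Real.exp_le_exp.2 h1
    have h4 : Real.exp (x / 400) = Real.exp (x / 400 - x / 921600) * Real.exp (x / 921600) := by
      rw [← Real.exp_add]; congr 1; ring
    have hxpos : 0 < x := by linarith [show (0:ℝ) < 10 ^ 25 by norm_num]
    have h5 : 2 * x ^ 2 ≤ Real.exp (x / 400 - x / 921600) := num_B htD
    have h6 : 0 < Real.exp (x / 921600) := Real.exp_pos _
    have h7 : x ^ 2 * Real.exp (x / 921600) ≤ (1 / 2) * Real.exp (x / 400) := by
      rw [h4]; nlinarith
    have h8 : (m : ℝ) * Real.exp (x / 921600) ≤ x ^ 2 * Real.exp (x / 921600) :=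
      mul_le_mul_of_nonneg_right hcase.le h6.le
    linarith

end Pool.Agent.Helper71.Crux
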