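import Mathlib
import Pool.Agent.Helper71.CruxPot

set_option autoImplicit false
set_option linter.unusedSectionVars false
set_option linter.unusedSimpArgs false

namespace Pool.Agent.Helper71.Crux

open Finset

variable {V : Type*} [Fintype V] [DecidableEq V]

/-- degree inside `S` -/
noncomputable def dgIn (G : SimpleGraph V) (S : Finset V) (v : V) : ℕ :=
  (@Finset.filter V (fun w => G.Adj v w) (Classical.decPred _) S).card

lemma dgIn_eq (G : SimpleGraph V) [DecidableRel G.Adj] (S : Finset V) (v : V) :
    dgIn G S v = (S.filter (fun w => G.Adj v w)).card := by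
  unfold dgIn
  congr

lemma adjp_eq_sum (G : SimpleGraph V) (S : Finset V) : adjp G S = ∑ v ∈ S, dgIn G S v := by
  classical
  rw [adjp_eq, card_filter, sum_product]
  apply sum_congr rfl
  intro v _
  rw [dgIn_eq, card_filter]

lemma adjp_remove (G : SimpleGraph V) {S Q : Finset V} (_hQ : Q ⊆ S) :
    adjp G S ≤ adjp G (S \ Q) + 2 * ∑ v ∈ Q, dgIn G S v := by
  classical
  have h1 : ((Q ×ˢ S).filter (fun p => G.Adj p.1 p.2)).card = ∑ v ∈ Q, dgIn G S v := by
    rw [card_filter, sum_product]
    apply sum_congr rfl
    intro v _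
    rw [dgIn_eq, card_filter]
  have h2 : ((S ×ˢ Q).filter (fun p => G.Adj p.1 p.2)).card = ∑ v ∈ Q, dgIn G S v := by
    rw [card_filter, sum_product_right]
    apply sum_congr rfl
    intro v _
    rw [dgIn_eq, card_filter]
    apply sum_congr rfl
    intro w _
    simp [G.adj_comm]
  rw [adjp_eq G S, adjp_eq G (S \ Q)]
  have h3 : (S ×ˢ S).filter (fun p => G.Adj p.1 p.2) ⊆
      ((S \ Q) ×ˢ (S \ Q)).filter (fun p => G.Adj p.1 p.2) ∪
      ((Q ×ˢ S).filter (fun p => G.Adj p.1 p.2) ∪ (S ×ˢ Q).filter (fun p => G.Adj p.1 p.2)) := by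
    intro p hp
    simp only [mem_filter, mem_product, mem_union, mem_sdiff] at hp ⊢
    tauto
  have h4 := (card_le_card h3).trans ((card_union_le _ _).trans (Nat.add_le_add_left (card_union_le _ _) _))
  rw [h1, h2] at h4
  omega

/-- delete the edges inside `B` -/
def delIn (G : SimpleGraph V) (B : Finset V) : SimpleGraph V where
  Adj x y := G.Adj x y ∧ ¬ (x ∈ B ∧ y ∈ B)
  symm := ⟨fun _ _ h => ⟨h.1.symm, fun h' => h.2 ⟨h'.2, h'.1⟩⟩⟩
  loopless := ⟨fun x h => G.loopless.irrefl x h.1⟩

lemma delIn_le (G : SimpleGraph V) (B : Finset V) : delIn G B ≤ G := fun _ _ h => h.1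

lemma adjp_delIn (G : SimpleGraph V) (B S : Finset V) :
    adjp G S ≤ adjp (delIn G B) S + adjp G B := by
  classical
  rw [adjp_eq, adjp_eq, adjp_eq]
  refine (card_le_card ?_).trans (card_union_le _ _)
  intro p hp
  rw [mem_filter, mem_product] at hp
  rw [mem_union, mem_filter, mem_filter, mem_product, mem_product]
  by_cases h : p.1 ∈ B ∧ p.2 ∈ B
  · exact Or.inr ⟨h, hp.2⟩
  · exact Or.inl ⟨hp.1, ⟨hp.2, h⟩⟩

lemma dgIn_mono (G G' : SimpleGraph V) (h : G' ≤ G) (S : Finset V) (v : V) :
    dgIn G' S v ≤ dgIn G S v := by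
  classical
  rw [dgIn_eq, dgIn_eq]
  apply card_le_card
  intro w hw
  rw [mem_filter] at hw ⊢
  exact ⟨hw.1, h hw.2⟩

lemma adjp_mono_graph (G G' : SimpleGraph V) (h : G' ≤ G) (S : Finset V) :
    adjp G' S ≤ adjp G S := by
  classical
  rw [adjp_eq, adjp_eq]
  apply card_le_card
  intro w hw
  rw [mem_filter] at hw ⊢
  exact ⟨hw.1, h hw.2⟩

lemma cyc_mono (G : SimpleGraph V) {S T : Finset V} (h : S ⊆ T) : cyc G S ⊆ cyc G T := by
  intro U hU
  rw [mem_cyc] at hU ⊢
  exact ⟨hU.1.trans h, hU.2⟩

lemma cyc_mono_graph (G G' : SimpleGraph V) (h : G' ≤ G) (S : Finset V) :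
    cyc G' S ⊆ cyc G S := by
  intro U hU
  rw [mem_cyc] at hU ⊢
  obtain ⟨h1, u, p, hp, hs⟩ := hU
  refine ⟨h1, u, p.mapLe h, hp.mapLe h, ?_⟩
  simpa using hs

lemma cyc_delIn (G : SimpleGraph V) (B S U : Finset V) (hU : U ∈ cyc (delIn G B) S) :
    ¬ U ⊆ B := by
  intro hUB
  rw [mem_cyc] at hU
  obtain ⟨h1, u, p, hp, hs⟩ := hU
  cases p with
  | nil => simp at hp
  | cons h p =>
    rename_i v
    apply h.2
    constructor
    · apply hUB
      rw [← hs]; simp
    · apply hUB
      rw [← hs]; simp

theorem extraction (G : SimpleGraph V) (S B : Finset V) (D : ℝ) (t : ℕ)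
    (hD : 10 ^ 25 ≤ D) (hS : S.Nonempty) (hdens : 5 * D * S.card ≤ adjp G S)
    (ht : ∀ F : Finset V, F.Nonempty → D * F.card ≤ adjp G F → t ≤ F.card)
    (hDt : D ≤ t)
    (hBdeg : ∀ v ∈ S, v ∉ B → (dgIn G S v : ℝ) ≤ 100 * ((adjp G S : ℝ) / S.card))
    (hB : (adjp G B : ℝ) ≤ adjp G S / 10) :
    (S.card : ℝ) / 2000 * Real.exp (t / 921600) ≤ (cyc G S).card := by
  classical
  have hSpos : (0 : ℝ) < S.card := by exact_mod_cast card_pos.2 hS
  set d : ℝ := (adjp G S : ℝ) / S.card with hd
  have hdS : d * S.card = adjp G S := by rw [hd]; field_simp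
  have hd5 : 5 * D ≤ d := by rw [hd, le_div_iff₀ hSpos]; exact hdens
  have hD0 : 0 < D := by linarith [show (0:ℝ) < 10 ^ 25 by norm_num]
  set E := Real.exp ((t : ℝ) / 921600) with hE
  have hE0 : 0 < E := Real.exp_pos _
  set G₀ := delIn G B with hG₀
  set A := S \ B with hA
  have claim : ∀ (j : ℕ) (Q : Finset V), Q ⊆ A → (A \ Q).card = j →
      ((S.card : ℝ) / 2000 - Q.card) * E ≤ (cyc G₀ (S \ Q)).card := by
    intro j
    induction j using Nat.strong_induction_on with
    | _ j IH =>
      intro Q hQA hj
      rcases le_or_gt ((S.card : ℝ) / 2000) Q.card with hcase | hcase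
      · have h1 : ((S.card : ℝ) / 2000 - Q.card) * E ≤ 0 := by
          apply mul_nonpos_of_nonpos_of_nonneg _ hE0.le
          linarith
        exact h1.trans (by positivity)
      · have hQS : Q ⊆ S := hQA.trans sdiff_subset
        have hcardSQ : ((S \ Q).card : ℝ) = S.card - Q.card := by
          rw [card_sdiff_of_subset hQS, Nat.cast_sub (card_le_card hQS)]
        have hSQne : (S \ Q).Nonempty := by
          rw [← card_pos]
          have : (0 : ℝ) < (S \ Q).card := by rw [hcardSQ]; linarith
          exact_mod_cast this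
        -- density
        have h1 : (adjp G S : ℝ) ≤ adjp G₀ S + adjp G B := by exact_mod_cast adjp_delIn G B S
        have h2 : (adjp G₀ S : ℝ) ≤ adjp G₀ (S \ Q) + 2 * ∑ v ∈ Q, (dgIn G₀ S v : ℝ) := by
          exact_mod_cast adjp_remove G₀ hQS
        have h3 : ∑ v ∈ Q, (dgIn G₀ S v : ℝ) ≤ Q.card * (100 * d) := by
          rw [← nsmul_eq_mul, ← sum_const]
          apply sum_le_sum
          intro v hv
          have hvA := hQA hv
          rw [hA, mem_sdiff] at hvA
          have h4 : (dgIn G₀ S v : ℝ) ≤ dgIn G S v := by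
            exact_mod_cast dgIn_mono G G₀ (delIn_le G B) S v
          exact h4.trans (hBdeg v hvA.1 hvA.2)
        have h5 : 4 * D * (S \ Q).card ≤ adjp G₀ (S \ Q) := by
          have h6 : (Q.card : ℝ) * (100 * d) ≤ (S.card : ℝ) / 2000 * (100 * d) := by
            apply mul_le_mul_of_nonneg_right hcase.le
            linarith
          have h7 : (d * S.card) * (8 / 10) ≤ adjp G₀ (S \ Q) := by
            rw [hdS]
            have : (S.card : ℝ) / 2000 * (100 * d) = (d * S.card) / 20 := by ring
            rw [this, hdS] at h6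
            linarith
          have h8 : 4 * D * (S \ Q).card ≤ 4 * D * S.card := by
            rw [hcardSQ]
            apply mul_le_mul_of_nonneg_left _ (by linarith)
            have : (0 : ℝ) ≤ Q.card := by positivity
            linarith
          have h9 : 5 * D * S.card ≤ d * S.card := mul_le_mul_of_nonneg_right hd5 hSpos.le
          linarith
        obtain ⟨H, hHS, hHne, hHcyc⟩ := potential_lemma G₀ (S \ Q) D t hD hSQne h5
          (by
            intro F hF hFd
            apply ht F hF
            refine hFd.trans ?_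
            exact_mod_cast adjp_mono_graph G G₀ (delIn_le G B) F) hDt
        have hHpos : (0 : ℝ) < H.card := by exact_mod_cast card_pos.2 hHne
        -- `H ∩ A` nonempty
        have hHA : (H ∩ A).Nonempty := by
          have h6 : (0 : ℝ) < (cyc G₀ H).card := lt_of_lt_of_le (by positivity) hHcyc
          have h7 : 0 < (cyc G₀ H).card := by exact_mod_cast h6
          obtain ⟨U, hU⟩ := card_pos.1 h7
          have h8 := cyc_delIn G B H U hU
          rw [not_subset] at h8
          obtain ⟨v, hvU, hvB⟩ := h8
          have hvH := (mem_cyc.1 hU).1 hvU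
          refine ⟨v, mem_inter.2 ⟨hvH, ?_⟩⟩
          rw [hA, mem_sdiff]
          exact ⟨(mem_sdiff.1 (hHS hvH)).1, hvB⟩
        have hdisjQ : Disjoint Q (H ∩ A) := by
          rw [disjoint_left]
          intro v hvQ hvH
          exact (mem_sdiff.1 (hHS (mem_inter.1 hvH).1)).2 hvQ
        set Q' := Q ∪ (H ∩ A) with hQ'
        have hQ'A : Q' ⊆ A := union_subset hQA inter_subset_right
        have hQ'card : Q'.card = Q.card + (H ∩ A).card := card_union_of_disjoint hdisjQ
        have hlt : (A \ Q').card < j := by
          rw [← hj]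
          apply card_lt_card
          rw [ssubset_iff_of_subset (sdiff_subset_sdiff (le_refl _) subset_union_left)]
          obtain ⟨v, hv⟩ := hHA
          refine ⟨v, ?_, ?_⟩
          · rw [mem_sdiff]
            exact ⟨(mem_inter.1 hv).2, fun h => (disjoint_left.1 hdisjQ) h hv⟩
          · rw [mem_sdiff]
            push Not
            intro _
            exact mem_union_right _ hv
        have hIH := IH _ hlt Q' hQ'A rfl
        have hdisj : Disjoint (cyc G₀ H) (cyc G₀ (S \ Q')) := by
          rw [disjoint_left]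
          intro U hU hU'
          apply cyc_delIn G B H U hU
          intro v hv
          have h6 := (mem_cyc.1 hU).1 hv
          have h7 := (mem_cyc.1 hU').1 hv
          rw [mem_sdiff] at h7
          by_contra hvB
          apply h7.2
          apply mem_union_right
          rw [mem_inter, hA, mem_sdiff]
          exact ⟨h6, h7.1, hvB⟩
        have hsub : cyc G₀ H ∪ cyc G₀ (S \ Q') ⊆ cyc G₀ (S \ Q) := by
          apply union_subset
          · exact cyc_mono G₀ hHS
          · apply cyc_mono G₀
            exact sdiff_subset_sdiff (le_refl _) subset_union_left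
        have h6 : (cyc G₀ H).card + (cyc G₀ (S \ Q')).card ≤ (cyc G₀ (S \ Q)).card := by
          rw [← card_union_of_disjoint hdisj]
          exact card_le_card hsub
        have h7 : ((cyc G₀ H).card : ℝ) + (cyc G₀ (S \ Q')).card ≤ (cyc G₀ (S \ Q)).card := by
          exact_mod_cast h6
        refine le_trans ?_ h7
        have h8 : (Q'.card : ℝ) ≤ Q.card + H.card := by
          have : (H ∩ A).card ≤ H.card := card_le_card inter_subset_left
          rw [hQ'card]; push_cast
          have : ((H ∩ A).card : ℝ) ≤ H.card := by exact_mod_cast this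
          linarith
        have h9 : ((S.card : ℝ) / 2000 - Q.card) * E
            ≤ (H.card : ℝ) * E + ((S.card : ℝ) / 2000 - Q'.card) * E := by
          rw [← add_mul]
          apply mul_le_mul_of_nonneg_right _ hE0.le
          linarith
        linarith
  have h := claim _ ∅ (empty_subset _) rfl
  simp only [card_empty, Nat.cast_zero, sub_zero, sdiff_empty] at h
  refine h.trans ?_
  exact_mod_cast card_le_card (cyc_mono_graph G G₀ (delIn_le G B) S)

lemma num_C {d : ℝ} (hd : 5 * 10 ^ 25 ≤ d) : 2000 * d ^ 2 ≤ Real.exp (d / 9216000) := by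
  have hypos : 0 < d := by linarith [show (0:ℝ) < 10 ^ 25 by norm_num]
  have h0 : (d / 9216000) ^ 3 / 6 ≤ Real.exp (d / 9216000) := exp_cube (by positivity)
  refine le_trans ?_ h0
  have h1 : (d / 9216000) ^ 3 / 6 = d ^ 2 * (d / (9216000 ^ 3 * 6)) := by ring
  rw [h1]
  have h6 : (2000 : ℝ) ≤ d / (9216000 ^ 3 * 6) := by
    rw [le_div_iff₀ (by positivity)]
    refine le_trans ?_ hd
    norm_num
  nlinarith [sq_nonneg d]

theorem main_ind (G : SimpleGraph V) (D : ℝ) (t : ℕ) (hD : 10 ^ 25 ≤ D)
    (ht : ∀ F : Finset V, F.Nonempty → D * F.card ≤ adjp G F → t ≤ F.card) :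
    ∀ (n : ℕ) (S : Finset V), S.card = n → S.Nonempty → 5 * D * S.card ≤ adjp G S →
      (adjp G S : ℝ) * (((adjp G S : ℝ) / S.card) / D) * Real.exp (t / 1843200)
        ≤ (cyc G S).card := by
  classical
  intro n
  induction n using Nat.strong_induction_on with
  | _ n IH =>
    intro S hSn hS hdens
    have hSpos : (0 : ℝ) < S.card := by exact_mod_cast card_pos.2 hS
    set d : ℝ := (adjp G S : ℝ) / S.card with hd
    have hdS : d * S.card = adjp G S := by rw [hd]; field_simp
    have hd5 : 5 * D ≤ d := by rw [hd, le_div_iff₀ hSpos]; exact hdens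
    have hD0 : 0 < D := by linarith [show (0:ℝ) < 10 ^ 25 by norm_num]
    have hd0 : 0 < d := by linarith
    have hadj0 : (0 : ℝ) < adjp G S := by rw [← hdS]; positivity
    set E := Real.exp ((t : ℝ) / 1843200) with hE
    have hE0 : 0 < E := Real.exp_pos _
    set B := S.filter (fun v => 100 * d < dgIn G S v) with hB
    have hBS : B ⊆ S := filter_subset _ _
    rcases le_or_gt (adjp G B : ℝ) (adjp G S / 10) with hlight | hheavy
    · -- light case
      have hd1 : 10 ^ 25 ≤ d / 5 := by linarith
      have hext := extraction G S B (d / 5) (max t ⌈d / 5⌉₊) hd1 hS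
        (by rw [← hdS]; exact le_of_eq (by ring))
        (by
          intro F hF hFd
          have hFpos : (0 : ℝ) < F.card := by exact_mod_cast card_pos.2 hF
          apply max_le
          · apply ht F hF
            refine le_trans ?_ hFd
            apply mul_le_mul_of_nonneg_right _ hFpos.le
            linarith
          · rw [Nat.ceil_le]
            have h1 : (adjp G F : ℝ) ≤ F.card * F.card := by
              have := adjp_le G F
              have h2 : F.card * (F.card - 1) ≤ F.card * F.card := Nat.mul_le_mul_left _ (Nat.sub_le _ _)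
              exact_mod_cast this.trans h2
            exact le_of_mul_le_mul_right (hFd.trans h1) hFpos)
        (by
          push_cast
          exact le_max_of_le_right (Nat.le_ceil _))
        (by
          intro v hv hvB
          by_contra hcon
          push Not at hcon
          exact hvB (mem_filter.2 ⟨hv, hcon⟩))
        hlight
      refine le_trans ?_ hext
      have h1 : (t : ℝ) / 1843200 + d / 9216000 ≤ ((max t ⌈d / 5⌉₊ : ℕ) : ℝ) / 921600 := by
        have h2 : (t : ℝ) ≤ ((max t ⌈d / 5⌉₊ : ℕ) : ℝ) := by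
          exact_mod_cast le_max_left _ _
        have h3 : d / 5 ≤ ((max t ⌈d / 5⌉₊ : ℕ) : ℝ) := by
          refine (Nat.le_ceil _).trans ?_
          exact_mod_cast le_max_right _ _
        linarith
      have h2 := Real.exp_le_exp.2 h1
      rw [Real.exp_add] at h2
      have h3 : (S.card : ℝ) / 2000 * (E * Real.exp (d / 9216000))
          ≤ (S.card : ℝ) / 2000 * Real.exp (((max t ⌈d / 5⌉₊ : ℕ) : ℝ) / 921600) :=
        mul_le_mul_of_nonneg_left h2 (by positivity)
      refine le_trans ?_ h3
      have h4 := num_C (d := d) (by linarith)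
      have h5 : (adjp G S : ℝ) * (d / D) ≤ S.card * d ^ 2 := by
        rw [← hdS]
        have : d / D ≤ d := by
          rw [div_le_iff₀ hD0]
          have : (1 : ℝ) ≤ D := by linarith [show (1:ℝ) ≤ 10 ^ 25 by norm_num]
          nlinarith
        calc d * S.card * (d / D) ≤ d * S.card * d := mul_le_mul_of_nonneg_left this (by positivity)
          _ = _ := by ring
      have h6 : (S.card : ℝ) * d ^ 2 ≤ S.card / 2000 * Real.exp (d / 9216000) := by
        have := mul_le_mul_of_nonneg_left h4 (show (0:ℝ) ≤ S.card / 2000 by positivity)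
        linarith
      calc (adjp G S : ℝ) * (d / D) * E ≤ (S.card / 2000 * Real.exp (d / 9216000)) * E :=
            mul_le_mul_of_nonneg_right (h5.trans h6) hE0.le
        _ = _ := by ring
    · -- heavy case
      have hBadj : (0 : ℝ) < adjp G B := lt_trans (by positivity) hheavy
      have hBne : B.Nonempty := by
        rw [nonempty_iff_ne_empty]
        intro h
        rw [h] at hBadj
        simp [adjp] at hBadj
      have hBpos : (0 : ℝ) < B.card := by exact_mod_cast card_pos.2 hBne
      have h1 : (B.card : ℝ) * (100 * d) ≤ adjp G S := by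
        rw [adjp_eq_sum]
        push_cast
        calc (B.card : ℝ) * (100 * d) = ∑ v ∈ B, (100 * d) := by rw [sum_const, nsmul_eq_mul]
          _ ≤ ∑ v ∈ B, (dgIn G S v : ℝ) := by
              apply sum_le_sum
              intro v hv
              exact (mem_filter.1 hv).2.le
          _ ≤ ∑ v ∈ S, (dgIn G S v : ℝ) := by
              apply sum_le_sum_of_subset_of_nonneg hBS
              intro v _ _; positivity
      have h2 : (B.card : ℝ) ≤ S.card / 100 := by
        rw [← hdS] at h1
        have : (B.card * 100 : ℝ) * d ≤ S.card * d := by linarith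
        have := le_of_mul_le_mul_right this hd0
        linarith
      have h3 : 10 * d ≤ (adjp G B : ℝ) / B.card := by
        rw [le_div_iff₀ hBpos]
        have h4 : 10 * d * B.card ≤ 10 * d * (S.card / 100) := by
          apply mul_le_mul_of_nonneg_left h2; positivity
        have h5 : 10 * d * (S.card / 100) = adjp G S / 10 := by rw [← hdS]; ring
        linarith
      have hlt : B.card < n := by
        have : (B.card : ℝ) < S.card := by linarith
        have : B.card < S.card := by exact_mod_cast this
        omega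
      have h4 := IH B.card hlt B rfl hBne (by
        have h5 : 5 * D ≤ (adjp G B : ℝ) / B.card := by linarith
        rwa [le_div_iff₀ hBpos] at h5)
      have h5 : (cyc G B).card ≤ (cyc G S).card := card_le_card (cyc_mono G hBS)
      have h6 : ((cyc G B).card : ℝ) ≤ (cyc G S).card := by exact_mod_cast h5
      refine le_trans ?_ (h4.trans h6)
      apply mul_le_mul_of_nonneg_right _ hE0.le
      calc (adjp G S : ℝ) * (d / D) = (adjp G S / 10) * ((10 * d) / D) := by ring
        _ ≤ (adjp G B) * (((adjp G B : ℝ) / B.card) / D) := by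
            apply mul_le_mul hheavy.le _ (by positivity) hBadj.le
            exact div_le_div_of_nonneg_right h3 hD0.le

/-- twice the number of edges inside `S` -/
lemma two_mul_ncard (G : SimpleGraph V) (S : Finset V) :
    2 * ({e ∈ G.edgeSet | ∀ v ∈ e, v ∈ S}.ncard) = adjp G S := by
  classical
  let R : SimpleGraph V :=
    { Adj := fun x y => G.Adj x y ∧ x ∈ S ∧ y ∈ S
      symm := ⟨fun x y h => ⟨h.1.symm, h.2.2, h.2.1⟩⟩
      loopless := ⟨fun x h => G.loopless.irrefl x h.1⟩ }
  have h1 := R.sum_degrees_eq_twice_card_edges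
  have h2 : {e ∈ G.edgeSet | ∀ v ∈ e, v ∈ S} = (R.edgeFinset : Set (Sym2 V)) := by
    ext e
    induction e with
    | _ x y =>
      simp only [Set.mem_ofPred_eq, SimpleGraph.mem_edgeSet, Sym2.mem_iff, SimpleGraph.coe_edgeFinset, R]
      constructor
      · rintro ⟨h, h'⟩
        exact ⟨h, h' x (Or.inl rfl), h' y (Or.inr rfl)⟩
      · rintro ⟨h, hx, hy⟩
        refine ⟨h, ?_⟩
        rintro v (rfl | rfl)
        · exact hx
        · exact hy
  rw [h2, Set.ncard_coe_finset, ← h1, adjp_eq_sum]
  rw [← sum_subset (subset_univ S)]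
  · apply sum_congr rfl
    intro v hv
    rw [dgIn_eq, ← SimpleGraph.card_neighborFinset_eq_degree]
    congr 1
    ext w
    simp only [SimpleGraph.mem_neighborFinset, mem_filter, R]
    tauto
  · intro v _ hv
    rw [← SimpleGraph.card_neighborFinset_eq_degree, card_eq_zero, eq_empty_iff_forall_notMem]
    intro w hw
    simp only [SimpleGraph.mem_neighborFinset, R] at hw
    exact hv hw.2.1

end Pool.Agent.Helper71.Crux
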