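import Pool.Agent.Helper60.GPGlue

set_option autoImplicit false

/-!
Step 2 of the solution of MP_dfca13_co: from weighted independent sets to colourings.
-/

namespace Pool.Agent.Helper71.GPColor

open Finset
open scoped Classical

noncomputable section

abbrev E2 := EuclideanSpace ℝ (Fin 2)

/-- general position -/
def GenPos (S : Finset E2) : Prop :=
  ∀ T : Finset E2, T ⊆ S → Collinear ℝ (T : Set E2) → T.card ≤ 2

theorem GenPos.mono {S S' : Finset E2} (h : S' ⊆ S) (hS : GenPos S) : GenPos S' :=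
  fun T hT hc => hS T (hT.trans h) hc

def Colorable (P : Finset E2) (k : ℕ) : Prop :=
  ∃ c : E2 → ℕ, (∀ p ∈ P, c p < k) ∧ ∀ i, GenPos (P.filter (fun p => c p = i))

def Red (U U' : Finset E2) (k : ℕ) : Prop := ∀ m, Colorable U' m → Colorable U (m + k)

theorem Red.refl (U : Finset E2) : Red U U 0 := fun _ h => h

theorem Red.trans {U V W : Finset E2} {k l : ℕ} (h : Red U V k) (h' : Red V W l) :
    Red U W (l + k) := by
  intro m hm
  have := h _ (h' m hm)
  rwa [add_assoc] at this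

theorem red_step {U S : Finset E2} (hS : GenPos S) : Red U (U \ S) 1 := by
  rintro m ⟨c, hc, hg⟩
  refine ⟨fun p => if p ∈ S then m else c p, ?_, ?_⟩
  · intro p hp
    by_cases h : p ∈ S
    · simp [h]
    · simp only [h, if_false]
      have := hc p (mem_sdiff.2 ⟨hp, h⟩)
      omega
  · intro i
    by_cases hi : i = m
    · subst hi
      refine hS.mono ?_
      intro p hp
      rw [mem_filter] at hp
      by_contra h
      have h2 := hc p (mem_sdiff.2 ⟨hp.1, h⟩)
      have h3 := hp.2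
      simp only [h, if_false] at h3
      omega
    · refine (hg i).mono ?_
      intro p hp
      rw [mem_filter] at hp
      have h : p ∉ S := by
        intro h
        have h3 := hp.2
        simp only [h, if_true] at h3
        exact hi h3.symm
      have h3 := hp.2
      simp only [h, if_false] at h3
      exact mem_filter.2 ⟨mem_sdiff.2 ⟨hp.1, h⟩, h3⟩

theorem colorable_card (P : Finset E2) : Colorable P P.card := by
  classical
  obtain ⟨e⟩ : Nonempty (P ≃ Fin P.card) := ⟨P.equivFin⟩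
  refine ⟨fun p => if h : p ∈ P then (e ⟨p, h⟩ : ℕ) else 0, ?_, ?_⟩
  · intro p hp
    simp only [hp, dif_pos]
    exact (e ⟨p, hp⟩).2
  · intro i T hT _
    have : T.card ≤ 1 := by
      rw [card_le_one]
      intro a ha b hb
      have ha' := mem_filter.1 (hT ha)
      have hb' := mem_filter.1 (hT hb)
      have h1 := ha'.2
      have h2 := hb'.2
      simp only [ha'.1, hb'.1, dif_pos] at h1 h2
      have : e ⟨a, ha'.1⟩ = e ⟨b, hb'.1⟩ := Fin.ext (h1.trans h2.symm)
      have := e.injective this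
      simpa using this
    omega

/-- the hypothesis: weighted independent sets -/
def WI (C s0 : ℝ) : Prop := ∀ s : ℝ, s0 ≤ s → ∀ U : Finset E2,
    (U.card : ℝ) ≤ s ^ 2 →
    (∀ T : Finset E2, T ⊆ U → Collinear ℝ (T : Set E2) → (T.card : ℝ) ≤ s) →
    ∀ w : E2 → ℝ, (∀ x, 0 ≤ w x) → ∃ S : Finset E2, S ⊆ U ∧ GenPos S ∧
      ∑ x ∈ U, w x ≤ C * s * ∑ x ∈ S, w x

theorem exp_neg_le {k : ℕ} (hk : k ≤ 2) : Real.exp (-(k : ℝ)) ≤ 1 - (k : ℝ) / 4 := by
  have h1 : (2 : ℝ) ≤ Real.exp 1 := by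
    have := Real.add_one_le_exp (1 : ℝ); linarith
  have h2 : Real.exp (-1 : ℝ) ≤ 1 / 2 := by
    rw [Real.exp_neg, one_div]
    exact inv_anti₀ (by norm_num) h1
  interval_cases k
  · simp
  · norm_num
    linarith
  · have : Real.exp (-((2 : ℕ) : ℝ)) = Real.exp (-1) * Real.exp (-1) := by
      rw [← Real.exp_add]; norm_num
    rw [this]
    have h3 : 0 < Real.exp (-1 : ℝ) := Real.exp_pos _
    push_cast
    nlinarith

/-- one step of phase 1 -/
theorem phase1_step {C s0 s : ℝ} (hC : 1 ≤ C) (hW : WI C s0) (hs : s0 ≤ s) (hs1 : 0 < s)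
    (hbig : 2 * s ^ 4 ≤ Real.exp (s / 4))
    {U0 : Finset E2} (hU0 : (U0.card : ℝ) ≤ s ^ 2)
    (hcol : ∀ T : Finset E2, T ⊆ U0 → Collinear ℝ (T : Set E2) → (T.card : ℝ) ≤ s)
    (R : Finset (Finset E2)) (hR : (R.card : ℝ) ≤ s ^ 4)
    (hRc : ∀ T ∈ R, Collinear ℝ (T : Set E2))
    {U : Finset E2} (hU : U ⊆ U0) (hex : ∃ T ∈ R, s / 2 < ((U ∩ T).card : ℝ)) :
    ∃ U' ⊆ U, Red U U' 1 ∧
      ∑ T ∈ R, Real.exp ((U' ∩ T).card : ℝ) ≤
        (1 - 1 / (32 * C)) * ∑ T ∈ R, Real.exp ((U ∩ T).card : ℝ) := by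
  have hUc : (U.card : ℝ) ≤ s ^ 2 := le_trans (by exact_mod_cast card_le_card hU) hU0
  obtain ⟨S, hSU, hSg, hSw⟩ := hW s hs U hUc (fun T hT hc => hcol T (hT.trans hU) hc)
    (fun x => ∑ T ∈ R, if x ∈ T then Real.exp ((U ∩ T).card : ℝ) else 0)
    (fun x => sum_nonneg fun T _ => by split_ifs <;> positivity)
  refine ⟨U \ S, sdiff_subset, red_step hSg, ?_⟩
  have key : ∀ V : Finset E2, ∑ x ∈ V, ∑ T ∈ R, (if x ∈ T then Real.exp ((U ∩ T).card : ℝ) else 0)
      = ∑ T ∈ R, ((V ∩ T).card : ℝ) * Real.exp ((U ∩ T).card : ℝ) := by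
    intro V
    rw [sum_comm]
    refine sum_congr rfl fun T _ => ?_
    rw [← sum_filter, sum_const, nsmul_eq_mul, filter_mem_eq_inter]
  rw [key, key] at hSw
  set g := ∑ T ∈ R, Real.exp ((U ∩ T).card : ℝ) with hg
  -- new potential
  have h1 : ∑ T ∈ R, Real.exp (((U \ S) ∩ T).card : ℝ) ≤
      g - (1 / 4) * ∑ T ∈ R, ((S ∩ T).card : ℝ) * Real.exp ((U ∩ T).card : ℝ) := by
    rw [hg, mul_sum, ← sum_sub_distrib]
    refine sum_le_sum fun T hT => ?_
    have hST : (S ∩ T).card ≤ 2 := hSg _ inter_subset_left ((hRc T hT).subset (by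
      intro x hx; rw [mem_coe, mem_inter] at hx; exact hx.2))
    have hcard : ((U \ S) ∩ T).card + (S ∩ T).card = (U ∩ T).card := by
      rw [← card_union_of_disjoint]
      · congr 1
        ext x
        simp only [mem_union, mem_inter, mem_sdiff]
        constructor
        · rintro (⟨⟨h1, h2⟩, h3⟩ | ⟨h1, h2⟩)
          · exact ⟨h1, h3⟩
          · exact ⟨hSU h1, h2⟩
        · rintro ⟨h1, h2⟩
          by_cases h : x ∈ S
          · right; exact ⟨h, h2⟩
          · left; exact ⟨⟨h1, h⟩, h2⟩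
      · rw [disjoint_left]
        intro x hx hx'
        simp only [mem_inter, mem_sdiff] at hx hx'
        exact hx.1.2 hx'.1
    have hcast : (((U \ S) ∩ T).card : ℝ) = ((U ∩ T).card : ℝ) + -((S ∩ T).card : ℝ) := by
      rw [← hcard]; push_cast; ring
    rw [hcast, Real.exp_add]
    have h2 := exp_neg_le hST
    have h3 := Real.exp_pos ((U ∩ T).card : ℝ)
    nlinarith
  -- lower bound on the total weight
  have h2 : (s / 8) * g ≤ ∑ T ∈ R, ((U ∩ T).card : ℝ) * Real.exp ((U ∩ T).card : ℝ) := by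
    have h3 : (s / 4) * (g - R.card * Real.exp (s / 4)) ≤
        ∑ T ∈ R, ((U ∩ T).card : ℝ) * Real.exp ((U ∩ T).card : ℝ) := by
      have : (s / 4) * (g - R.card * Real.exp (s / 4)) =
          ∑ T ∈ R, (s / 4) * (Real.exp ((U ∩ T).card : ℝ) - Real.exp (s / 4)) := by
        rw [← mul_sum, sum_sub_distrib, sum_const, nsmul_eq_mul]
      rw [this]
      refine sum_le_sum fun T _ => ?_
      set a : ℝ := ((U ∩ T).card : ℝ) with ha
      have ha0 : 0 ≤ a := by positivity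
      by_cases h : s / 4 ≤ a
      · have h4 := Real.exp_pos a
        have h5 := Real.exp_pos (s / 4)
        nlinarith
      · rw [not_le] at h
        have h4 : Real.exp a ≤ Real.exp (s / 4) := Real.exp_le_exp.2 h.le
        have h5 := Real.exp_pos a
        have : (s / 4) * (Real.exp a - Real.exp (s / 4)) ≤ 0 :=
          mul_nonpos_of_nonneg_of_nonpos (by linarith) (by linarith)
        have : 0 ≤ a * Real.exp a := by positivity
        linarith
    have h4 : R.card * Real.exp (s / 4) ≤ g / 2 := by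
      obtain ⟨T, hT, hlt⟩ := hex
      have h5 : Real.exp (s / 2) ≤ g := by
        refine le_trans (Real.exp_le_exp.2 hlt.le) ?_
        rw [hg]
        exact single_le_sum (f := fun T => Real.exp ((U ∩ T).card : ℝ))
          (fun T _ => (Real.exp_pos _).le) hT
      have h6 : Real.exp (s / 2) = Real.exp (s / 4) * Real.exp (s / 4) := by
        rw [← Real.exp_add]; congr 1; ring
      have h7 := Real.exp_pos (s / 4)
      have h8 : (R.card : ℝ) * Real.exp (s / 4) ≤ s ^ 4 * Real.exp (s / 4) :=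
        mul_le_mul_of_nonneg_right hR h7.le
      nlinarith
    refine le_trans ?_ h3
    nlinarith
  -- combine
  have hCs : 0 < C * s := by positivity
  have h3 : (s / 8) * g ≤ C * s * ∑ T ∈ R, ((S ∩ T).card : ℝ) * Real.exp ((U ∩ T).card : ℝ) :=
    h2.trans hSw
  set Y := ∑ T ∈ R, ((S ∩ T).card : ℝ) * Real.exp ((U ∩ T).card : ℝ) with hY
  have h4 : g / (8 * C) ≤ Y := by
    rw [div_le_iff₀ (by positivity)]
    have : s * g ≤ s * (Y * (8 * C)) := by nlinarith
    exact le_of_mul_le_mul_left this hs1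
  refine h1.trans ?_
  have h5 : (1 - 1 / (32 * C)) * g = g - (1 / 4) * (g / (8 * C)) := by
    field_simp; ring
  rw [h5]
  linarith

/-- phase 1 -/
theorem phase1 {C s0 s : ℝ} (hC : 1 ≤ C) (hW : WI C s0) (hs : s0 ≤ s) (hs1 : 0 < s)
    (hbig : 2 * s ^ 4 ≤ Real.exp (s / 4))
    {U0 : Finset E2} (hU0 : (U0.card : ℝ) ≤ s ^ 2)
    (hcol : ∀ T : Finset E2, T ⊆ U0 → Collinear ℝ (T : Set E2) → (T.card : ℝ) ≤ s)
    (R : Finset (Finset E2)) (hR : (R.card : ℝ) ≤ s ^ 4)
    (hRc : ∀ T ∈ R, Collinear ℝ (T : Set E2)) (k : ℕ) :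
    ∃ U ⊆ U0, Red U0 U k ∧ ((∀ T ∈ R, ((U ∩ T).card : ℝ) ≤ s / 2) ∨
      ∑ T ∈ R, Real.exp ((U ∩ T).card : ℝ) ≤ (1 - 1 / (32 * C)) ^ k * (s ^ 4 * Real.exp s)) := by
  induction k with
  | zero =>
    refine ⟨U0, Subset.refl _, Red.refl _, Or.inr ?_⟩
    rw [pow_zero, one_mul]
    have : ∀ T ∈ R, Real.exp ((U0 ∩ T).card : ℝ) ≤ Real.exp s := by
      intro T hT
      refine Real.exp_le_exp.2 (hcol _ inter_subset_left ((hRc T hT).subset ?_))
      intro x hx; rw [mem_coe, mem_inter] at hx; exact hx.2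
    calc ∑ T ∈ R, Real.exp ((U0 ∩ T).card : ℝ) ≤ ∑ T ∈ R, Real.exp s := sum_le_sum this
      _ = R.card * Real.exp s := by rw [sum_const, nsmul_eq_mul]
      _ ≤ s ^ 4 * Real.exp s := mul_le_mul_of_nonneg_right hR (Real.exp_pos _).le
  | succ k ih =>
    obtain ⟨U, hU, hred, h⟩ := ih
    by_cases hex : ∃ T ∈ R, s / 2 < ((U ∩ T).card : ℝ)
    · have hlt : ¬ ∀ T ∈ R, ((U ∩ T).card : ℝ) ≤ s / 2 := by
        intro h'
        obtain ⟨T, hT, hlt⟩ := hex
        exact absurd (h' T hT) (not_le.2 hlt)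
      have h' := h.resolve_left hlt
      obtain ⟨U', hU', hred', hg⟩ := phase1_step hC hW hs hs1 hbig hU0 hcol R hR hRc hU hex
      refine ⟨U', hU'.trans hU, ?_, Or.inr ?_⟩
      · have := hred.trans hred'
        rwa [add_comm] at this
      · refine hg.trans ?_
        have h0 : 0 ≤ 1 - 1 / (32 * C) := by
          have : 1 / (32 * C) ≤ 1 := by
            rw [div_le_one (by positivity)]; linarith
          linarith
        calc (1 - 1 / (32 * C)) * ∑ T ∈ R, Real.exp ((U ∩ T).card : ℝ)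
            ≤ (1 - 1 / (32 * C)) * ((1 - 1 / (32 * C)) ^ k * (s ^ 4 * Real.exp s)) :=
              mul_le_mul_of_nonneg_left h' h0
          _ = _ := by ring
    · push Not at hex
      refine ⟨U, hU, ?_, Or.inl hex⟩
      intro m hm
      have := hred m hm
      obtain ⟨c, hc1, hc2⟩ := this
      exact ⟨c, fun p hp => by have := hc1 p hp; omega, hc2⟩

theorem phase1_final {C s0 s : ℝ} (hC : 1 ≤ C) (hW : WI C s0) (hs : s0 ≤ s) (hs1 : 0 < s)
    (hbig : 2 * s ^ 4 ≤ Real.exp (s / 4))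
    {U0 : Finset E2} (hU0 : (U0.card : ℝ) ≤ s ^ 2)
    (hcol : ∀ T : Finset E2, T ⊆ U0 → Collinear ℝ (T : Set E2) → (T.card : ℝ) ≤ s)
    (R : Finset (Finset E2)) (hR : (R.card : ℝ) ≤ s ^ 4)
    (hRc : ∀ T ∈ R, Collinear ℝ (T : Set E2)) :
    ∃ U ⊆ U0, Red U0 U ⌈32 * C * s⌉₊ ∧ (∀ T ∈ R, ((U ∩ T).card : ℝ) ≤ s / 2) := by
  obtain ⟨U, hU, hred, h⟩ := phase1 hC hW hs hs1 hbig hU0 hcol R hR hRc ⌈32 * C * s⌉₊
  refine ⟨U, hU, hred, ?_⟩
  rcases h with h | h
  · exact h
  · intro T hT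
    by_contra hcon
    rw [not_le] at hcon
    have h5 : Real.exp (s / 2) < ∑ T ∈ R, Real.exp ((U ∩ T).card : ℝ) := by
      refine lt_of_lt_of_le (Real.exp_lt_exp.2 hcon) ?_
      exact single_le_sum (f := fun T => Real.exp ((U ∩ T).card : ℝ))
          (fun T _ => (Real.exp_pos _).le) hT
    set k := ⌈32 * C * s⌉₊ with hk
    have hk1 : 32 * C * s ≤ (k : ℝ) := Nat.le_ceil _
    have h0 : 0 ≤ 1 - 1 / (32 * C) := by
      have : 1 / (32 * C) ≤ 1 := by
        rw [div_le_one (by positivity)]; linarith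
      linarith
    have h6 : (1 - 1 / (32 * C)) ^ k ≤ Real.exp (-s) := by
      have h7 : 1 - 1 / (32 * C) ≤ Real.exp (-(1 / (32 * C))) := by
        have := Real.add_one_le_exp (-(1 / (32 * C))); linarith
      calc (1 - 1 / (32 * C)) ^ k ≤ Real.exp (-(1 / (32 * C))) ^ k :=
            pow_le_pow_left₀ h0 h7 k
        _ = Real.exp (-(k / (32 * C))) := by
            rw [← Real.exp_nat_mul]; congr 1; ring
        _ ≤ Real.exp (-s) := by
            apply Real.exp_le_exp.2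
            have : s ≤ k / (32 * C) := by
              rw [le_div_iff₀ (by positivity)]; linarith
            linarith
    have h8 : (1 - 1 / (32 * C)) ^ k * (s ^ 4 * Real.exp s) ≤ s ^ 4 := by
      calc (1 - 1 / (32 * C)) ^ k * (s ^ 4 * Real.exp s)
          ≤ Real.exp (-s) * (s ^ 4 * Real.exp s) :=
            mul_le_mul_of_nonneg_right h6 (by positivity)
        _ = s ^ 4 * (Real.exp (-s) * Real.exp s) := by ring
        _ = s ^ 4 := by rw [← Real.exp_add]; simp
    have h9 : Real.exp (s / 4) ≤ Real.exp (s / 2) := Real.exp_le_exp.2 (by linarith)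
    have h10 : 0 < s ^ 4 := by positivity
    linarith

/-- phase 2 -/
theorem phase2 {C s0 s : ℝ} (hC : 1 ≤ C) (hW : WI C s0) (hs : s0 ≤ s) (hs1 : 1 ≤ s)
    {U0 : Finset E2} (hU0 : (U0.card : ℝ) ≤ s ^ 2)
    (hcol : ∀ T : Finset E2, T ⊆ U0 → Collinear ℝ (T : Set E2) → (T.card : ℝ) ≤ s) (k : ℕ) :
    ∃ U ⊆ U0, Red U0 U k ∧ (U.card : ℝ) ≤ (1 - 1 / (C * s)) ^ k * s ^ 2 := by
  have hCs : 1 ≤ C * s := by nlinarith
  induction k with
  | zero =>
    exact ⟨U0, Subset.refl _, Red.refl _, by simpa using hU0⟩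
  | succ k ih =>
    obtain ⟨U, hU, hred, h⟩ := ih
    have hUc : (U.card : ℝ) ≤ s ^ 2 := le_trans (by exact_mod_cast card_le_card hU) hU0
    obtain ⟨S, hSU, hSg, hSw⟩ := hW s hs U hUc (fun T hT hc => hcol T (hT.trans hU) hc)
      (fun _ => 1) (fun _ => zero_le_one)
    simp only [sum_const, nsmul_eq_mul, mul_one] at hSw
    refine ⟨U \ S, sdiff_subset.trans hU, ?_, ?_⟩
    · have := hred.trans (red_step (U := U) hSg)
      rwa [add_comm] at this
    · have h1 : ((U \ S).card : ℝ) = U.card - S.card := by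
        rw [card_sdiff_of_subset hSU, Nat.cast_sub (card_le_card hSU)]
      rw [h1]
      have h0 : 0 ≤ 1 - 1 / (C * s) := by
        have : 1 / (C * s) ≤ 1 := by
          rw [div_le_one (by positivity)]; linarith
        linarith
      have h2 : (U.card : ℝ) / (C * s) ≤ S.card := by
        rw [div_le_iff₀ (by positivity)]; linarith
      calc (U.card : ℝ) - S.card ≤ (1 - 1 / (C * s)) * U.card := by
            have : (1 - 1 / (C * s)) * U.card = U.card - U.card / (C * s) := by ring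
            linarith
        _ ≤ (1 - 1 / (C * s)) * ((1 - 1 / (C * s)) ^ k * s ^ 2) :=
            mul_le_mul_of_nonneg_left h h0
        _ = _ := by ring

theorem phase2_final {C s0 s : ℝ} (hC : 1 ≤ C) (hW : WI C s0) (hs : s0 ≤ s) (hs1 : 1 ≤ s)
    {U0 : Finset E2} (hU0 : (U0.card : ℝ) ≤ s ^ 2)
    (hcol : ∀ T : Finset E2, T ⊆ U0 → Collinear ℝ (T : Set E2) → (T.card : ℝ) ≤ s) :
    ∃ U ⊆ U0, Red U0 U ⌈2 * C * s⌉₊ ∧ (U.card : ℝ) ≤ (s / 2) ^ 2 := by
  obtain ⟨U, hU, hred, h⟩ := phase2 hC hW hs hs1 hU0 hcol ⌈2 * C * s⌉₊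
  refine ⟨U, hU, hred, h.trans ?_⟩
  have hCs : 1 ≤ C * s := by nlinarith
  set k := ⌈2 * C * s⌉₊ with hk
  have hk1 : 2 * C * s ≤ (k : ℝ) := Nat.le_ceil _
  have h0 : 0 ≤ 1 - 1 / (C * s) := by
    have : 1 / (C * s) ≤ 1 := by
      rw [div_le_one (by positivity)]; linarith
    linarith
  have h6 : (1 - 1 / (C * s)) ^ k ≤ Real.exp (-2) := by
    have h7 : 1 - 1 / (C * s) ≤ Real.exp (-(1 / (C * s))) := by
      have := Real.add_one_le_exp (-(1 / (C * s))); linarith
    calc (1 - 1 / (C * s)) ^ k ≤ Real.exp (-(1 / (C * s))) ^ k :=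
          pow_le_pow_left₀ h0 h7 k
      _ = Real.exp (-(k / (C * s))) := by
          rw [← Real.exp_nat_mul]; congr 1; ring
      _ ≤ Real.exp (-2) := by
          apply Real.exp_le_exp.2
          have : 2 ≤ k / (C * s) := by
            rw [le_div_iff₀ (by positivity)]; linarith
          linarith
  have h8 : Real.exp (-2 : ℝ) ≤ 1 / 4 := by
    have h1 : (2 : ℝ) ≤ Real.exp 1 := by
      have := Real.add_one_le_exp (1 : ℝ); linarith
    have h2 : (4 : ℝ) ≤ Real.exp 2 := by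
      have : Real.exp 2 = Real.exp 1 * Real.exp 1 := by rw [← Real.exp_add]; norm_num
      rw [this]; nlinarith
    rw [Real.exp_neg, one_div]
    exact inv_anti₀ (by norm_num) h2
  have : (1 - 1 / (C * s)) ^ k * s ^ 2 ≤ 1 / 4 * s ^ 2 :=
    mul_le_mul_of_nonneg_right (h6.trans h8) (by positivity)
  linarith [this]

/-- the lines spanned by a finite set -/
def lines (P : Finset E2) : Finset (Finset E2) :=
  (P ×ˢ P).image (fun p => P.filter (fun z => Collinear ℝ ({p.1, p.2, z} : Set E2)))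

theorem main_rec {C s0 : ℝ} (hC : 1 ≤ C) (hs0 : 2 ≤ s0) (hW : WI C s0)
    (hbig : ∀ s, s0 ≤ s → 2 * s ^ 4 ≤ Real.exp (s / 4)) (n : ℕ) :
    ∀ s : ℝ, 0 < s → s ≤ 2 ^ n * s0 → ∀ P : Finset E2, (P.card : ℝ) ≤ s ^ 2 →
      (∀ T : Finset E2, T ⊆ P → Collinear ℝ (T : Set E2) → (T.card : ℝ) ≤ s) →
      ∃ k : ℕ, (k : ℝ) ≤ (72 * C + s0) * s ∧ Colorable P k := by
  have base : ∀ s : ℝ, 0 < s → s ≤ s0 → ∀ P : Finset E2, (P.card : ℝ) ≤ s ^ 2 →
      ∃ k : ℕ, (k : ℝ) ≤ (72 * C + s0) * s ∧ Colorable P k := by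
    intro s hs hss P hP
    refine ⟨P.card, hP.trans ?_, colorable_card P⟩
    nlinarith
  induction n with
  | zero =>
    intro s hs hss P hP _
    exact base s hs (by simpa using hss) P hP
  | succ n ih =>
    intro s hs hss P hP hT
    by_cases hle : s ≤ s0
    · exact base s hs hle P hP
    rw [not_le] at hle
    have hs2 : 2 ≤ s := hs0.trans hle.le
    have hs1 : 1 ≤ s := by linarith
    -- the rich lines
    set R : Finset (Finset E2) :=
      (lines P).filter (fun T : Finset E2 => Collinear ℝ (T : Set E2)) with hR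
    have hRcard : (R.card : ℝ) ≤ s ^ 4 := by
      have h1 : R.card ≤ P.card * P.card := by
        refine (card_filter_le _ _).trans (card_image_le.trans ?_)
        rw [card_product]
      have h2 : (R.card : ℝ) ≤ P.card * P.card := by exact_mod_cast h1
      have h3 : (0 : ℝ) ≤ P.card := by positivity
      calc (R.card : ℝ) ≤ P.card * P.card := h2
        _ ≤ s ^ 2 * s ^ 2 := by gcongr
        _ = s ^ 4 := by ring
    have hRc : ∀ T ∈ R, Collinear ℝ (T : Set E2) := fun T hT => (mem_filter.1 hT).2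
    obtain ⟨U1, hU1, hred1, hl1⟩ := phase1_final hC hW hle.le hs (hbig s hle.le) hP hT R hRcard hRc
    have hU1c : (U1.card : ℝ) ≤ s ^ 2 := le_trans (by exact_mod_cast card_le_card hU1) hP
    obtain ⟨U2, hU2, hred2, hc2⟩ := phase2_final hC hW hle.le hs1 hU1c
      (fun T hT' hc => hT T (hT'.trans hU1) hc)
    have hcol2 : ∀ T : Finset E2, T ⊆ U2 → Collinear ℝ (T : Set E2) → (T.card : ℝ) ≤ s / 2 := by
      intro T hTU hTc
      by_cases h2 : T.card ≤ 1
      · have : (T.card : ℝ) ≤ 1 := by exact_mod_cast h2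
        linarith
      -- find a line of R containing T
      have hexists : ∃ L ∈ R, T ⊆ L := by
        obtain ⟨x, hx, y, hy, hxy⟩ := one_lt_card.1 (by omega : 1 < T.card)
        refine ⟨P.filter (fun z => Collinear ℝ ({x, y, z} : Set E2)), ?_, ?_⟩
        · rw [hR, mem_filter]
          refine ⟨?_, ?_⟩
          · rw [lines, mem_image]
            exact ⟨(x, y), mem_product.2 ⟨hU1 (hU2 (hTU hx)), hU1 (hU2 (hTU hy))⟩, rfl⟩
          · apply Pool.Agent.Helper60.GP.col_set hxy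
            intro z hz
            rw [mem_coe, mem_filter] at hz
            exact hz.2
        · intro z hz
          rw [mem_filter]
          refine ⟨hU1 (hU2 (hTU hz)), hTc.subset ?_⟩
          intro u hu
          simp only [Set.mem_insert_iff, Set.mem_singleton_iff] at hu
          rcases hu with rfl | rfl | rfl
          · exact hx
          · exact hy
          · exact hz
      obtain ⟨L, hL, hTL⟩ := hexists
      refine le_trans ?_ (hl1 L hL)
      exact_mod_cast card_le_card (fun z hz => mem_inter.2 ⟨hU2 (hTU hz), hTL hz⟩)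
    obtain ⟨k, hk, hcolor⟩ := ih (s / 2) (by linarith) (by rw [pow_succ] at hss; linarith) U2
      hc2 hcol2
    refine ⟨_, ?_, hred1 _ (hred2 _ hcolor)⟩
    push_cast
    have h1 : (⌈32 * C * s⌉₊ : ℝ) ≤ 32 * C * s + 1 := (Nat.ceil_lt_add_one (by positivity)).le
    have h2 : (⌈2 * C * s⌉₊ : ℝ) ≤ 2 * C * s + 1 := (Nat.ceil_lt_add_one (by positivity)).le
    have h3 : 1 ≤ C * s := by nlinarith
    nlinarith

theorem s11955_of_weighted (H : ∃ C s0 : ℝ, 0 < C ∧ 1 ≤ s0 ∧ ∀ s : ℝ, s0 ≤ s → ∀ U : Finset E2,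
    (U.card : ℝ) ≤ s ^ 2 →
    (∀ T : Finset E2, T ⊆ U → Collinear ℝ (T : Set E2) → (T.card : ℝ) ≤ s) →
    ∀ w : E2 → ℝ, (∀ x, 0 ≤ w x) → ∃ S : Finset E2, S ⊆ U ∧
      (∀ T : Finset E2, T ⊆ S → Collinear ℝ (T : Set E2) → T.card ≤ 2) ∧
      ∑ x ∈ U, w x ≤ C * s * ∑ x ∈ S, w x) :
    ∃ C : ℝ, ∀ P : Finset (EuclideanSpace ℝ (Fin 2)),
      (∀ S : Finset (EuclideanSpace ℝ (Fin 2)), S ⊆ P →
          Collinear ℝ (S : Set (EuclideanSpace ℝ (Fin 2))) →
          (S.card : ℝ) ≤ Real.sqrt (P.card : ℝ)) →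
      ∃ (k : ℕ) (c : EuclideanSpace ℝ (Fin 2) → ℕ),
        (k : ℝ) ≤ C * Real.sqrt (P.card : ℝ) ∧
        (∀ p ∈ P, c p < k) ∧
        ∀ a ∈ P, ∀ b ∈ P, ∀ d ∈ P, a ≠ b → a ≠ d → b ≠ d →
          c a = c b → c a = c d →
          ¬ Collinear ℝ ({a, b, d} : Set (EuclideanSpace ℝ (Fin 2))) := by
  obtain ⟨C0, s0, hC0, hs0, hW0⟩ := H
  set C := max C0 1 with hCdef
  have hC1 : 1 ≤ C := le_max_right _ _
  set s1 := max s0 245760 with hs1def
  have hW : WI C s1 := by
    intro s hs U hU hcol w hw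
    obtain ⟨S, hS, hg, hle⟩ := hW0 s ((le_max_left _ _).trans hs) U hU hcol w hw
    refine ⟨S, hS, hg, hle.trans ?_⟩
    have : 0 ≤ ∑ x ∈ S, w x := sum_nonneg fun x _ => hw x
    have hs' : 0 ≤ s := by
      have : (245760 : ℝ) ≤ s := (le_max_right _ _).trans hs
      linarith
    have : C0 * s ≤ C * s := mul_le_mul_of_nonneg_right (le_max_left _ _) hs'
    exact mul_le_mul_of_nonneg_right this ‹_›
  have hbig : ∀ s, s1 ≤ s → 2 * s ^ 4 ≤ Real.exp (s / 4) := by
    intro s hs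
    have h1 : (245760 : ℝ) ≤ s := (le_max_right _ _).trans hs
    have h2 := Real.pow_div_factorial_le_exp (s / 4) (by linarith) 5
    refine le_trans ?_ h2
    have : ((Nat.factorial 5 : ℕ) : ℝ) = 120 := by norm_num [Nat.factorial]
    rw [this]
    have h3 : 0 ≤ s ^ 4 := by positivity
    nlinarith
  refine ⟨72 * C + s1, fun P hP => ?_⟩
  have hsq : (P.card : ℝ) ≤ Real.sqrt (P.card : ℝ) ^ 2 := by
    rw [Real.sq_sqrt (by positivity)]
  by_cases hne : P.card = 0
  · refine ⟨0, fun _ => 0, ?_, ?_, ?_⟩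
    · rw [hne]; simp
    · intro p hp
      rw [card_eq_zero] at hne
      simp [hne] at hp
    · intro a ha
      rw [card_eq_zero] at hne
      simp [hne] at ha
  have hpos : 0 < Real.sqrt (P.card : ℝ) := Real.sqrt_pos.2 (by
    have : 0 < P.card := by omega
    exact_mod_cast this)
  have hs1' : 2 ≤ s1 := by
    have : (245760 : ℝ) ≤ s1 := le_max_right _ _
    linarith
  obtain ⟨n, hn⟩ : ∃ n : ℕ, Real.sqrt (P.card : ℝ) ≤ 2 ^ n * s1 := by
    obtain ⟨n, hn⟩ := pow_unbounded_of_one_lt (Real.sqrt (P.card : ℝ)) (one_lt_two)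
    refine ⟨n, hn.le.trans ?_⟩
    have : (0 : ℝ) < 2 ^ n := by positivity
    nlinarith
  obtain ⟨k, hk, c, hc1, hc2⟩ := main_rec hC1 hs1' hW hbig n _ hpos hn P hsq hP
  refine ⟨k, c, hk, hc1, ?_⟩
  intro a ha b hb d hd hab had hbd hcab hcad hcoll
  have h1 := hc2 (c a) {a, b, d} (by
    intro x hx
    simp only [mem_insert, mem_singleton] at hx
    rw [mem_filter]
    rcases hx with rfl | rfl | rfl
    · exact ⟨ha, rfl⟩
    · exact ⟨hb, hcab.symm⟩
    · exact ⟨hd, hcad.symm⟩) (by simpa using hcoll)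
  rw [card_eq_three.2 ⟨a, b, d, hab, had, hbd, rfl⟩] at h1
  omega

end

end Pool.Agent.Helper71.GPColor
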