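import Mathlib

set_option autoImplicit false

namespace Pool.Agent.Helper71.Uni

/-- An `n`-leaf phylogenetic tree (`n` at least `2`): a finite tree all of whose vertices have
degree `1` or `3`, with its vertices of degree `1` labelled bijectively by `Fin n` through `leaf`. -/
structure IsPhylo {n : ℕ} {V : Type} [Fintype V] (G : SimpleGraph V) (leaf : Fin n → V) : Prop where
  tree : G.IsTree
  deg : ∀ v, (G.neighborSet v).ncard = 1 ∨ (G.neighborSet v).ncard = 3
  inj : Function.Injective leaf
  leaves : ∀ v, (G.neighborSet v).ncard = 1 ↔ ∃ i, leaf i = v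

/-- `p` is the partition of the label set induced by deleting some set `E` of edges:
two labels are in one class iff their leaves are in the same component of what remains. -/
def Induced {n : ℕ} {V : Type} (G : SimpleGraph V) (leaf : Fin n → V) (p : Setoid (Fin n)) : Prop :=
  ∃ E : Set (Sym2 V), E ⊆ G.edgeSet ∧
    ∀ i j, p i j ↔ (G.deleteEdges E).Reachable (leaf i) (leaf j)

/-- the number of partitions with exactly `k` classes induced by both trees -/
noncomputable def commonCount {n : ℕ} {V W : Type} (G : SimpleGraph V) (leafG : Fin n → V)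
    (H : SimpleGraph W) (leafH : Fin n → W) (k : ℕ) : ℕ :=
  {p : Setoid (Fin n) | Induced G leafG p ∧ Induced H leafH p ∧ Nat.card (Quotient p) = k}.ncard

/-- the sequence `a 1, ..., a n` is unimodal -/
def UnimodalOn (n : ℕ) (a : ℕ → ℕ) : Prop :=
  ∃ m, 1 ≤ m ∧ m ≤ n ∧ (∀ k, 1 ≤ k → k < m → a k ≤ a (k + 1)) ∧
    (∀ k, m ≤ k → k < n → a (k + 1) ≤ a k)

end Pool.Agent.Helper71.Uni
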