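import Mathlib
import Pool.Agent.Helper71.UniDefs

set_option autoImplicit false
set_option linter.unusedSectionVars false
set_option linter.unusedVariables false
set_option linter.unusedSimpArgs false

namespace Pool.Agent.Helper71.Uni

open SimpleGraph

/-! ### caterpillars -/

/-- index of the internal vertex to which leaf `i` is attached -/
def att (m i : ℕ) : ℕ := min (i - 1) (m - 1)

lemma att_mono {m i j : ℕ} (h : i ≤ j) : att m i ≤ att m j := by
  unfold att; omega

lemma att_lt {m : ℕ} (hm : 1 ≤ m) (i : ℕ) : att m i < m := by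
  unfold att; omega

/-- adjacency of the caterpillar -/
def catAdj (m : ℕ) : Fin (m + 2) ⊕ Fin m → Fin (m + 2) ⊕ Fin m → Prop
  | .inl _, .inl _ => False
  | .inl i, .inr j => att m i.val = j.val
  | .inr j, .inl i => att m i.val = j.val
  | .inr j, .inr j' => j.val + 1 = j'.val ∨ j'.val + 1 = j.val

/-- the caterpillar with `m + 2` leaves and `m` internal vertices -/
def cat (m : ℕ) : SimpleGraph (Fin (m + 2) ⊕ Fin m) where
  Adj := catAdj m
  symm := ⟨by
    rintro (i | j) (i' | j') h
    · exact h.elim
    · exact h
    · exact h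
    · exact h.symm⟩
  loopless := ⟨by
    rintro (i | j) h
    · exact h
    · rcases h with h | h <;> omega⟩

lemma cat_adj_lr {m : ℕ} (i : Fin (m + 2)) (j : Fin m) :
    (cat m).Adj (.inl i) (.inr j) ↔ att m i.val = j.val := Iff.rfl

lemma cat_adj_rl {m : ℕ} (i : Fin (m + 2)) (j : Fin m) :
    (cat m).Adj (.inr j) (.inl i) ↔ att m i.val = j.val := Iff.rfl

lemma cat_adj_rr {m : ℕ} (j j' : Fin m) :
    (cat m).Adj (.inr j) (.inr j') ↔ (j.val + 1 = j'.val ∨ j'.val + 1 = j.val) := Iff.rfl

lemma cat_adj_ll {m : ℕ} (i i' : Fin (m + 2)) :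
    ¬ (cat m).Adj (.inl i) (.inl i') := fun h => h

lemma nbr_leaf {m : ℕ} (hm : 1 ≤ m) (i : Fin (m + 2)) :
    (cat m).neighborSet (.inl i) = {.inr ⟨att m i.val, att_lt hm _⟩} := by
  ext v
  rcases v with i' | j
  · simp only [mem_neighborSet, Set.mem_singleton_iff, reduceCtorEq, iff_false]
    exact cat_adj_ll i i'
  · simp only [mem_neighborSet, cat_adj_lr, Set.mem_singleton_iff, Sum.inr.injEq]
    constructor
    · intro h; ext; exact h.symm
    · intro h; rw [h]

lemma nbr_int {m : ℕ} (hm : 1 ≤ m) (j : Fin m) :
    ((cat m).neighborSet (.inr j)).ncard = 3 := by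
  rw [Set.ncard_eq_three]
  refine ⟨.inl ⟨j.val + 1, by omega⟩,
    if h : j.val = 0 then .inl ⟨0, by omega⟩ else .inr ⟨j.val - 1, by omega⟩,
    if h : j.val + 1 = m then .inl ⟨m + 1, by omega⟩ else .inr ⟨j.val + 1, by omega⟩, ?_, ?_, ?_, ?_⟩
  · split_ifs with h
    · simp
    · simp
  · split_ifs with h
    · simp; omega
    · simp
  · split_ifs with h1 h2 h2
    · simp
    · simp
    · simp
    · simp
      try omega
  · ext v
    rcases v with i | j'
    · simp only [mem_neighborSet, cat_adj_rl, Set.mem_insert_iff, Set.mem_singleton_iff, att]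
      have hi := i.2
      have hj := j.2
      split_ifs with h1 h2 h2
      · simp only [Sum.inl.injEq, Fin.ext_iff]
        omega
      · simp only [Sum.inl.injEq, Fin.ext_iff, reduceCtorEq, or_false]
        omega
      · simp only [Sum.inl.injEq, Fin.ext_iff, reduceCtorEq, or_false, false_or]
        omega
      · simp only [Sum.inl.injEq, Fin.ext_iff, reduceCtorEq, or_false]
        omega
    · simp only [mem_neighborSet, cat_adj_rr, Set.mem_insert_iff, Set.mem_singleton_iff]
      have hi := j'.2
      have hj := j.2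
      split_ifs with h1 h2 h2
      · simp only [reduceCtorEq, or_false, iff_false]
        omega
      · simp only [Sum.inr.injEq, Fin.ext_iff, reduceCtorEq, false_or]
        omega
      · simp only [Sum.inr.injEq, Fin.ext_iff, reduceCtorEq, or_false, false_or]
        omega
      · simp only [Sum.inr.injEq, Fin.ext_iff, reduceCtorEq, false_or]
        omega

lemma deg_leaf {m : ℕ} (hm : 1 ≤ m) (i : Fin (m + 2)) :
    ((cat m).neighborSet (.inl i)).ncard = 1 := by
  rw [nbr_leaf hm, Set.ncard_singleton]

lemma cat_connected {m : ℕ} (hm : 1 ≤ m) : (cat m).Connected := by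
  have h0 : ∀ (s : ℕ) (hs : s < m), (cat m).Reachable (.inr ⟨s, hs⟩) (.inr ⟨0, by omega⟩) := by
    intro s
    induction s with
    | zero => intro hs; exact Reachable.refl _
    | succ s ih =>
      intro hs
      have hadj : (cat m).Adj (.inr ⟨s + 1, hs⟩) (.inr ⟨s, by omega⟩) := by
        rw [cat_adj_rr]; right; rfl
      exact hadj.reachable.trans (ih _)
  have h1 : ∀ v, (cat m).Reachable v (.inr ⟨0, by omega⟩) := by
    rintro (i | j)
    · have hadj : (cat m).Adj (.inl i) (.inr ⟨att m i.val, att_lt hm _⟩) := by
        rw [cat_adj_lr]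
      exact hadj.reachable.trans (h0 _ _)
    · exact h0 _ _
  have : Nonempty (Fin (m + 2) ⊕ Fin m) := ⟨.inl 0⟩
  exact ⟨fun u v => (h1 u).trans (h1 v).symm⟩

lemma cat_isTree {m : ℕ} (hm : 1 ≤ m) : (cat m).IsTree := by
  classical
  rw [isTree_iff_connected_and_card]
  refine ⟨cat_connected hm, ?_⟩
  have h1 := (cat m).sum_degrees_eq_twice_card_edges
  have h2 : ∀ v, (cat m).degree v = ((cat m).neighborSet v).ncard := by
    intro v
    rw [← card_neighborSet_eq_degree, Set.ncard_eq_toFinset_card', Set.toFinset_card]
  simp_rw [h2] at h1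
  rw [Fintype.sum_sum_type] at h1
  simp_rw [deg_leaf hm, nbr_int hm] at h1
  simp only [Finset.sum_const, Finset.card_univ, Fintype.card_fin, smul_eq_mul] at h1
  have h3 : Nat.card (cat m).edgeSet = (cat m).edgeFinset.card := by
    rw [Nat.card_eq_fintype_card, edgeFinset_card]
  rw [h3]
  have h4 : Nat.card (Fin (m + 2) ⊕ Fin m) = (m + 2) + m := by
    rw [Nat.card_eq_fintype_card, Fintype.card_sum, Fintype.card_fin, Fintype.card_fin]
  rw [h4]
  omega

lemma cat_isPhylo {m : ℕ} (hm : 1 ≤ m) (e : Fin (m + 2) ≃ Fin (m + 2)) :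
    IsPhylo (cat m) (fun i => .inl (e i)) where
  tree := cat_isTree hm
  deg := by
    rintro (i | j)
    · exact Or.inl (deg_leaf hm i)
    · exact Or.inr (nbr_int hm j)
  inj := by
    intro i j h
    exact e.injective (Sum.inl.inj h)
  leaves := by
    rintro (i | j)
    · simp only [deg_leaf hm i, true_iff]
      exact ⟨e.symm i, by simp⟩
    · simp only [nbr_int hm j]
      simp

/-! ### which partitions are induced -/

/-- index of a vertex along the spine -/
def pos (m : ℕ) : Fin (m + 2) ⊕ Fin m → ℕ
  | .inl i => att m i.val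
  | .inr j => j.val

lemma cross {m : ℕ} (hm : 1 ≤ m) (E : Set (Sym2 (Fin (m + 2) ⊕ Fin m))) (a b : Fin (m + 2))
    (hab : a < b) (h : ((cat m).deleteEdges E).Reachable (.inl a) (.inl b)) (s : ℕ)
    (hs : s < m) (h1 : att m a.val ≤ s) (h2 : s ≤ att m b.val) :
    ((cat m).deleteEdges E).Reachable (.inl a) (.inr ⟨s, hs⟩) := by
  set H := (cat m).deleteEdges E with hH
  have hadjle : ∀ {u v}, H.Adj u v → (cat m).Adj u v := fun h => deleteEdges_le _ h
  rcases h1.eq_or_lt with h1 | h1
  · -- first step
    obtain ⟨p⟩ := h
    cases p with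
    | nil => exact (lt_irrefl _ hab).elim
    | cons hadj p =>
      rename_i v
      have hv := hadjle hadj
      have : v ∈ (cat m).neighborSet (.inl a) := hv
      rw [nbr_leaf hm] at this
      rw [Set.mem_singleton_iff] at this
      have h3 : v = .inr ⟨s, hs⟩ := by
        rw [this]; congr 1; ext; exact h1
      rw [← h3]
      exact hadj.reachable
  · by_contra hcon
    have key : ∀ v, H.Reachable (.inl a) v → pos m v < s := by
      intro v hv
      obtain ⟨p⟩ := hv
      have : ∀ (u v : Fin (m + 2) ⊕ Fin m) (p : H.Walk u v), H.Reachable (.inl a) u →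
          pos m u < s → pos m v < s := by
        intro u v p
        induction p with
        | nil => intro _ h; exact h
        | cons hadj p ih =>
          rename_i x y z
          intro hx hxs
          have hy : H.Reachable (.inl a) y := hx.trans hadj.reachable
          apply ih hy
          have hc := hadjle hadj
          rcases x with x | x <;> rcases y with y | y
          · exact (cat_adj_ll x y hc).elim
          · rw [cat_adj_lr] at hc
            simp only [pos] at hxs ⊢
            omega
          · rw [cat_adj_rl] at hc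
            simp only [pos] at hxs ⊢
            omega
          · rw [cat_adj_rr] at hc
            simp only [pos] at hxs ⊢
            by_contra hys
            have : y.val = s := by omega
            apply hcon
            have h3 : y = ⟨s, hs⟩ := by ext; exact this
            rw [← h3]; exact hy
      exact this _ _ p (Reachable.refl _) h1
    have := key _ h
    simp only [pos] at this
    omega

/-- the class of `c` covers the internal vertex `s` -/
def covers {m : ℕ} (q : Setoid (Fin (m + 2))) (c : Fin (m + 2)) (s : ℕ) : Prop :=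
  ∃ a b, a < b ∧ q a b ∧ q c a ∧ att m a.val ≤ s ∧ s ≤ att m b.val

/-- the class of `c` touches a vertex -/
def touch {m : ℕ} (q : Setoid (Fin (m + 2))) (c : Fin (m + 2)) :
    Fin (m + 2) ⊕ Fin m → Prop
  | .inl i => q c i
  | .inr j => covers q c j.val

/-- disjoint spans -/
def SD {n : ℕ} (lt : Fin n → Fin n → Prop) (p : Setoid (Fin n)) : Prop :=
  ∀ a b c d, p a b → p c d → ¬ p a c → lt a b → lt c d → lt b c ∨ lt d a

lemma covers_unique {m : ℕ} (q : Setoid (Fin (m + 2))) (hq : SD (· < ·) q)
    {c c' : Fin (m + 2)} {s : ℕ} (h : covers q c s) (h' : covers q c' s) : q c c' := by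
  obtain ⟨a, b, hab, qab, qca, h1, h2⟩ := h
  obtain ⟨a', b', hab', qab', qca', h1', h2'⟩ := h'
  by_contra hcon
  have hne : ¬ q a a' := fun h => hcon (q.trans' (q.trans' qca h) (q.symm' qca'))
  have ha := a.2
  have hb := b.2
  have ha' := a'.2
  have hb' := b'.2
  rw [Fin.lt_def] at hab hab'
  rcases hq a b a' b' qab qab' hne hab hab' with h | h
  · rw [Fin.lt_def] at h
    unfold att at *
    omega
  · rw [Fin.lt_def] at h
    unfold att at *
    omega

lemma touch_unique {m : ℕ} (q : Setoid (Fin (m + 2))) (hq : SD (· < ·) q)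
    {c c' : Fin (m + 2)} {v : Fin (m + 2) ⊕ Fin m} (h : touch q c v) (h' : touch q c' v) :
    q c c' := by
  rcases v with i | j
  · exact q.trans' h (q.symm' h')
  · exact covers_unique q hq h h'

lemma touch_congr {m : ℕ} (q : Setoid (Fin (m + 2))) {c c' : Fin (m + 2)}
    {v : Fin (m + 2) ⊕ Fin m} (h : touch q c v) (h' : q c' c) : touch q c' v := by
  rcases v with i | j
  · exact q.trans' h' h
  · obtain ⟨a, b, hab, qab, qca, h1, h2⟩ := h
    exact ⟨a, b, hab, qab, q.trans' h' qca, h1, h2⟩

theorem induced_id {m : ℕ} (hm : 1 ≤ m) (q : Setoid (Fin (m + 2))) :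
    Induced (cat m) (fun i => .inl i) q ↔ SD (· < ·) q := by
  constructor
  · rintro ⟨E, _, hE⟩ a b c d qab qcd hac hab hcd
    by_contra hcon
    push Not at hcon
    obtain ⟨h1, h2⟩ := hcon
    have hab' : a.val < b.val := hab
    have hcd' : c.val < d.val := hcd
    have h1' : c.val ≤ b.val := h1
    have h2' : a.val ≤ d.val := h2
    have r1 := cross hm E a b hab ((hE a b).1 qab) (max (att m a.val) (att m c.val))
      (max_lt (att_lt hm _) (att_lt hm _)) (le_max_left _ _)
      (max_le (att_mono hab'.le) (att_mono h1'))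
    have r2 := cross hm E c d hcd ((hE c d).1 qcd) (max (att m a.val) (att m c.val))
      (max_lt (att_lt hm _) (att_lt hm _)) (le_max_right _ _)
      (max_le (att_mono h2') (att_mono hcd'.le))
    exact hac ((hE a c).2 (r1.trans r2.symm))
  · intro hq
    refine ⟨{e | e ∈ (cat m).edgeSet ∧ ¬ ∃ c, ∀ v ∈ e, touch q c v}, fun e he => he.1, ?_⟩
    set H := (cat m).deleteEdges {e | e ∈ (cat m).edgeSet ∧ ¬ ∃ c, ∀ v ∈ e, touch q c v} with hH
    have hadj : ∀ u v, H.Adj u v ↔ (cat m).Adj u v ∧ ∃ c, touch q c u ∧ touch q c v := by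
      intro u v
      rw [hH, deleteEdges_adj]
      constructor
      · rintro ⟨h1, h2⟩
        refine ⟨h1, ?_⟩
        by_contra hcon
        apply h2
        refine ⟨h1, ?_⟩
        rintro ⟨c, hc⟩
        exact hcon ⟨c, hc u (by simp), hc v (by simp)⟩
      · rintro ⟨h1, c, hu, hv⟩
        refine ⟨h1, ?_⟩
        rintro ⟨_, h2⟩
        apply h2
        refine ⟨c, ?_⟩
        intro x hx
        rw [Sym2.mem_iff] at hx
        rcases hx with rfl | rfl
        · exact hu
        · exact hv
    have hwalk : ∀ (c : Fin (m + 2)) (u v : Fin (m + 2) ⊕ Fin m) (p : H.Walk u v),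
        touch q c u → touch q c v := by
      intro c u v p
      induction p with
      | nil => exact id
      | cons h p ih =>
        intro hu
        apply ih
        obtain ⟨_, c', hc1, hc2⟩ := (hadj _ _).1 h
        exact touch_congr q hc2 (touch_unique q hq hu hc1)
    have hfor : ∀ i j : Fin (m + 2), i < j → q i j → H.Reachable (.inl i) (.inl j) := by
      intro i j hij qij
      have hcov : ∀ s, att m i.val ≤ s → s ≤ att m j.val → covers q i s :=
        fun s h1 h2 => ⟨i, j, hij, qij, q.refl' i, h1, h2⟩
      have hij' : i.val < j.val := hij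
      have hmono : att m i.val ≤ att m j.val := att_mono hij'.le
      have h1 : H.Adj (.inl i) (.inr ⟨att m i.val, att_lt hm _⟩) := by
        rw [hadj]
        refine ⟨rfl, i, q.refl' i, hcov _ (le_refl _) hmono⟩
      have h2 : H.Adj (.inr ⟨att m j.val, att_lt hm _⟩) (.inl j) := by
        rw [hadj]
        refine ⟨rfl, i, hcov _ hmono (le_refl _), qij⟩
      have h3 : ∀ (d : ℕ) (hd : att m i.val + d < m), att m i.val + d ≤ att m j.val →
          H.Reachable (.inr ⟨att m i.val, att_lt hm _⟩) (.inr ⟨att m i.val + d, hd⟩) := by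
        intro d
        induction d with
        | zero => intro hd _; exact Reachable.refl _
        | succ d ih =>
          intro hd hle
          refine (ih (by omega) (by omega)).trans ?_
          apply Adj.reachable
          rw [hadj]
          refine ⟨Or.inl rfl, i, hcov _ (by simp) (by simp; omega), hcov _ (by simp) (by simpa using hle)⟩
      have h4 := h3 (att m j.val - att m i.val) (by have := att_lt hm j.val; omega) (by omega)
      have h5 : (⟨att m i.val + (att m j.val - att m i.val), by have := att_lt hm j.val; omega⟩ : Fin m)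
          = ⟨att m j.val, att_lt hm _⟩ := by
        ext; simp; omega
      rw [h5] at h4
      exact h1.reachable.trans (h4.trans h2.reachable)
    intro i j
    constructor
    · intro qij
      rcases lt_trichotomy i j with h | h | h
      · exact hfor i j h qij
      · subst h; exact Reachable.refl _
      · exact (hfor j i h (q.symm' qij)).symm
    · rintro ⟨p⟩
      exact hwalk i _ _ p (q.refl' i)

theorem induced_perm {m : ℕ} (hm : 1 ≤ m) (e : Fin (m + 2) ≃ Fin (m + 2))
    (p : Setoid (Fin (m + 2))) :
    Induced (cat m) (fun i => .inl (e i)) p ↔ SD (fun i j => e i < e j) p := by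
  have h1 : Induced (cat m) (fun i => .inl (e i)) p
      ↔ Induced (cat m) (fun i => .inl i) (p.comap e.symm) := by
    constructor
    · rintro ⟨E, hE, h⟩
      refine ⟨E, hE, ?_⟩
      intro i j
      rw [Setoid.comap_rel, h]
      simp
    · rintro ⟨E, hE, h⟩
      refine ⟨E, hE, ?_⟩
      intro i j
      have h' := h (e i) (e j)
      rw [Setoid.comap_rel] at h'
      simpa using h'
  rw [h1, induced_id hm]
  constructor
  · intro h a b c d pab pcd hac hab hcd
    have := h (e a) (e b) (e c) (e d) (by rw [Setoid.comap_rel]; simpa using pab)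
      (by rw [Setoid.comap_rel]; simpa using pcd) (by rw [Setoid.comap_rel]; simpa using hac) hab hcd
    exact this
  · intro h a b c d pab pcd hac hab hcd
    rw [Setoid.comap_rel] at pab pcd hac
    have := h (e.symm a) (e.symm b) (e.symm c) (e.symm d) pab pcd hac (by simpa using hab) (by simpa using hcd)
    simpa using this

end Pool.Agent.Helper71.Uni
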