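import Mathlib

set_option autoImplicit false
set_option linter.unusedSectionVars false
set_option linter.unusedVariables false
set_option linter.unusedSimpArgs false

namespace Pool.Agent.Helper71.Uni

open Finset

section paths

variable {L St : Type} [DecidableEq L] [Fintype L]
variable (step : Bool → St → L → Option St) (fin : St → Bool) (wt : L → ℕ)

/-- accepted words -/
def acc : List Bool → St → List L → Prop
  | [], q, [] => fin q = true
  | c :: w, q, a :: l => ∃ q', step c q a = some q' ∧ acc w q' l
  | _, _, _ => False

/-- the finite set of accepted words -/
def pathsF : List Bool → St → Finset (List L)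
  | [], q => if fin q = true then {[]} else ∅
  | c :: w, q => Finset.univ.biUnion (fun a =>
      match step c q a with
      | none => ∅
      | some q' => (pathsF w q').image (fun l => a :: l))

lemma mem_pathsF : ∀ (w : List Bool) (q : St) (l : List L),
    l ∈ pathsF step fin w q ↔ acc step fin w q l := by
  intro w
  induction w with
  | nil =>
    intro q l
    cases l with
    | nil =>
      simp only [pathsF, acc]
      split_ifs with h <;> simp [h]
    | cons a l =>
      simp only [pathsF, acc, iff_false]
      split_ifs <;> simp
  | cons c w ih =>
    intro q l
    cases l with
    | nil =>
      simp only [pathsF, acc, iff_false, mem_biUnion, mem_univ, true_and, not_exists]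
      intro a
      cases h : step c q a with
      | none => simp
      | some q' => simp
    | cons a l =>
      simp only [pathsF, acc, mem_biUnion, mem_univ, true_and]
      constructor
      · rintro ⟨b, hb⟩
        cases h : step c q b with
        | none => rw [h] at hb; simp at hb
        | some q' =>
          rw [h] at hb
          simp only [mem_image, List.cons.injEq] at hb
          obtain ⟨l', hl', hab, hll⟩ := hb
          subst hab; subst hll
          exact ⟨q', h, (ih _ _).1 hl'⟩
      · rintro ⟨q', h, hl⟩
        refine ⟨a, ?_⟩
        rw [h]
        exact mem_image.2 ⟨l, (ih _ _).2 hl, rfl⟩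

/-- number of accepted words of weight `k` -/
def cnt : List Bool → St → ℕ → ℕ
  | [], q, k => if fin q = true ∧ k = 0 then 1 else 0
  | c :: w, q, k => ∑ a : L,
      match step c q a with
      | none => 0
      | some q' => if wt a ≤ k then cnt w q' (k - wt a) else 0

lemma card_pathsF : ∀ (w : List Bool) (q : St) (k : ℕ),
    ((pathsF step fin w q).filter (fun l => (l.map wt).sum = k)).card = cnt step fin wt w q k := by
  intro w
  induction w with
  | nil =>
    intro q k
    simp only [pathsF, cnt]
    by_cases h : fin q = true
    · by_cases hk : k = 0
      · simp [h, hk, Finset.filter_singleton]
      · simp [h, hk, Finset.filter_singleton]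
        intro h'; exact hk h'.symm
    · simp [h]
  | cons c w ih =>
    intro q k
    simp only [pathsF, cnt]
    rw [filter_biUnion, card_biUnion]
    · apply sum_congr rfl
      intro a _
      cases h : step c q a with
      | none => simp
      | some q' =>
        simp only
        split_ifs with hk
        · rw [← ih q' (k - wt a)]
          rw [filter_image, card_image_of_injective _ (List.cons_injective)]
          congr 1
          apply filter_congr
          intro l _
          simp only [List.map_cons, List.sum_cons]
          omega
        · rw [card_eq_zero, filter_eq_empty_iff]
          intro l hl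
          rw [mem_image] at hl
          obtain ⟨l', _, rfl⟩ := hl
          simp only [List.map_cons, List.sum_cons]
          omega
    · intro a _ b _ hab
      rw [Function.onFun, disjoint_left]
      intro l hl hl'
      rw [mem_filter] at hl hl'
      have h1 : ∃ l', l = a :: l' := by
        have := hl.1
        cases h : step c q a with
        | none => rw [h] at this; simp at this
        | some q' =>
          rw [h] at this
          rw [mem_image] at this
          obtain ⟨l', _, h'⟩ := this
          exact ⟨l', h'.symm⟩
      have h2 : ∃ l', l = b :: l' := by
        have := hl'.1
        cases h : step c q b with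
        | none => rw [h] at this; simp at this
        | some q' =>
          rw [h] at this
          rw [mem_image] at this
          obtain ⟨l', _, h'⟩ := this
          exact ⟨l', h'.symm⟩
      obtain ⟨l1, h1⟩ := h1
      obtain ⟨l2, h2⟩ := h2
      rw [h1] at h2
      exact hab (List.cons.inj h2).1

/-- from a state sequence to acceptance -/
lemma acc_of_states : ∀ (w : List Bool) (f : ℕ → L) (σ : ℕ → St),
    (∀ i (h : i < w.length), step w[i] (σ i) (f i) = some (σ (i + 1))) →
    fin (σ w.length) = true → acc step fin w (σ 0) ((List.range w.length).map f) := by
  intro w
  induction w with
  | nil =>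
    intro f σ _ hf
    simpa [acc] using hf
  | cons c w ih =>
    intro f σ hs hf
    rw [List.length_cons, List.range_succ_eq_map, List.map_cons, List.map_map]
    refine ⟨σ 1, ?_, ?_⟩
    · have h0 := hs 0 (by simp)
      exact h0
    · have := ih (fun i => f (i + 1)) (fun i => σ (i + 1)) (fun i h => by
        have := hs (i + 1) (by simpa using h)
        simpa using this) (by simpa using hf)
      exact this

/-- from acceptance to a state sequence -/
lemma states_of_acc : ∀ (w : List Bool) (q : St) (l : List L), acc step fin w q l →
    l.length = w.length ∧ ∃ σ : ℕ → St, σ 0 = q ∧
      (∀ i (h : i < w.length) (h' : i < l.length), step w[i] (σ i) l[i] = some (σ (i + 1))) ∧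
      fin (σ w.length) = true := by
  intro w
  induction w with
  | nil =>
    intro q l hl
    cases l with
    | nil => exact ⟨rfl, fun _ => q, rfl, by simp, by simpa [acc] using hl⟩
    | cons a l => exact hl.elim
  | cons c w ih =>
    intro q l hl
    cases l with
    | nil => exact hl.elim
    | cons a l =>
      obtain ⟨q', hq, hl⟩ := hl
      obtain ⟨hlen, σ, h0, hs, hf⟩ := ih q' l hl
      refine ⟨by simp [hlen], fun i => match i with | 0 => q | i + 1 => σ i, rfl, ?_, ?_⟩
      · intro i h h'
        cases i with
        | zero => simpa [h0] using hq
        | succ i => simpa using hs i (by simpa using h) (by simpa using h')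
      · simpa using hf

end paths

end Pool.Agent.Helper71.Uni
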