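import Mathlib
import Pool.Agent.Helper71.UniCat
import Pool.Agent.Helper71.UniPath

set_option autoImplicit false
set_option linter.unusedSectionVars false
set_option linter.unusedVariables false
set_option linter.unusedSimpArgs false

namespace Pool.Agent.Helper71.Uni

open Finset

section code

variable {n : ℕ}

/-- the relation on `ℕ` -/
def R (p : Setoid (Fin n)) (i j : ℕ) : Prop := ∃ (hi : i < n) (hj : j < n), p ⟨i, hi⟩ ⟨j, hj⟩

variable {p : Setoid (Fin n)}

lemma R.symm {i j : ℕ} (h : R p i j) : R p j i := by
  obtain ⟨hi, hj, h⟩ := h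
  exact ⟨hj, hi, p.symm' h⟩

lemma R.trans {i j k : ℕ} (h : R p i j) (h' : R p j k) : R p i k := by
  obtain ⟨hi, hj, h⟩ := h
  obtain ⟨hj', hk, h'⟩ := h'
  exact ⟨hi, hk, p.trans' h h'⟩

lemma R.lt_left {i j : ℕ} (h : R p i j) : i < n := h.1
lemma R.lt_right {i j : ℕ} (h : R p i j) : j < n := h.2.1

lemma R_refl {i : ℕ} (h : i < n) : R p i i := ⟨h, h, p.refl' _⟩

lemma R_fin {i j : Fin n} : R p i.val j.val ↔ p i j := by
  constructor
  · rintro ⟨hi, hj, h⟩; exact h
  · intro h; exact ⟨i.2, j.2, h⟩

def Prev (p : Setoid (Fin n)) (i : ℕ) : Prop := ∃ j, j < i ∧ R p j i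
def Next (p : Setoid (Fin n)) (i : ℕ) : Prop := ∃ j, i < j ∧ R p i j

/-- disjoint spans in the order of `ℕ` -/
def FSD (p : Setoid (Fin n)) : Prop :=
  ∀ a b c d, R p a b → R p c d → ¬ R p a c → a < b → c < d → b < c ∨ d < a

/-- the second order: first the `false` positions, then the `true` ones -/
def tlt (w : ℕ → Bool) (i j : ℕ) : Prop := (w i = false ∧ w j = true) ∨ (w i = w j ∧ i < j)

lemma tlt_irrefl {w : ℕ → Bool} {i : ℕ} : ¬ tlt w i i := by
  unfold tlt
  rintro (⟨h, h'⟩ | ⟨_, h⟩)
  · rw [h] at h'; exact absurd h' (by decide)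
  · exact lt_irrefl _ h

lemma tlt_trans {w : ℕ → Bool} {i j k : ℕ} (h : tlt w i j) (h' : tlt w j k) : tlt w i k := by
  unfold tlt at *
  rcases h with ⟨h1, h2⟩ | ⟨h1, h2⟩ <;> rcases h' with ⟨h3, h4⟩ | ⟨h3, h4⟩
  · exact Or.inl ⟨h1, h4⟩
  · exact Or.inl ⟨h1, h3 ▸ h2⟩
  · exact Or.inl ⟨h1.trans h3, h4⟩
  · exact Or.inr ⟨h1.trans h3, h2.trans h4⟩

def TSD (w : ℕ → Bool) (p : Setoid (Fin n)) : Prop :=
  ∀ a b c d, R p a b → R p c d → ¬ R p a c → tlt w a b → tlt w c d → tlt w b c ∨ tlt w d a

def Mono (w : ℕ → Bool) (p : Setoid (Fin n)) : Prop := ∀ i j, R p i j → w i = w j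

lemma SD_iff_FSD : SD (· < ·) p ↔ FSD p := by
  constructor
  · rintro h a b c d ⟨ha, hb, hab⟩ ⟨hc, hd, hcd⟩ hac h1 h2
    exact h ⟨a, ha⟩ ⟨b, hb⟩ ⟨c, hc⟩ ⟨d, hd⟩ hab hcd (fun h' => hac ⟨ha, hc, h'⟩) h1 h2
  · intro h a b c d hab hcd hac h1 h2
    exact h a b c d (R_fin.2 hab) (R_fin.2 hcd) (fun h' => hac (R_fin.1 h')) h1 h2

lemma SD_iff_TSD {w : ℕ → Bool} {lt : Fin n → Fin n → Prop}
    (hlt : ∀ i j : Fin n, lt i j ↔ tlt w i.val j.val) : SD lt p ↔ TSD w p := by
  constructor
  · rintro h a b c d ⟨ha, hb, hab⟩ ⟨hc, hd, hcd⟩ hac h1 h2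
    have := h ⟨a, ha⟩ ⟨b, hb⟩ ⟨c, hc⟩ ⟨d, hd⟩ hab hcd (fun h' => hac ⟨ha, hc, h'⟩)
      ((hlt _ _).2 h1) ((hlt _ _).2 h2)
    rwa [hlt, hlt] at this
  · intro h a b c d hab hcd hac h1 h2
    have := h a b c d (R_fin.2 hab) (R_fin.2 hcd) (fun h' => hac (R_fin.1 h'))
      ((hlt _ _).1 h1) ((hlt _ _).1 h2)
    rwa [hlt, hlt]

/-- number of classes = number of class minima -/
lemma card_quotient (p : Setoid (Fin n)) [DecidablePred (Prev p)] :
    Nat.card (Quotient p) = ((range n).filter (fun i => ¬ Prev p i)).card := by
  classical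
  have h1 : Nat.card (Quotient p) = Nat.card {i : Fin n // ¬ Prev p i.val} := by
    symm
    apply Nat.card_congr
    refine Equiv.ofBijective (fun i => (Quotient.mk p i.1 : Quotient p)) ⟨?_, ?_⟩
    · rintro ⟨i, hi⟩ ⟨j, hj⟩ hij
      have hij' : p i j := Quotient.exact hij
      apply Subtype.ext
      rcases lt_trichotomy i j with h | h | h
      · exact (hj ⟨i.val, h, R_fin.2 hij'⟩).elim
      · exact h
      · exact (hi ⟨j.val, h, R_fin.2 (p.symm' hij')⟩).elim
    · intro x
      obtain ⟨i, rfl⟩ := Quotient.exists_rep x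
      have hne : ((Finset.univ : Finset (Fin n)).filter (fun j => p j i)).Nonempty :=
        ⟨i, by simp only [mem_filter, mem_univ, true_and]; exact p.refl' i⟩
      obtain ⟨j, hj, hmin⟩ := exists_min_image _ (fun j => j.val) hne
      have hji : p j i := (mem_filter.1 hj).2
      refine ⟨⟨j, ?_⟩, Quotient.sound hji⟩
      rintro ⟨k, hk, hkn, hjn, hkj⟩
      have := hmin ⟨k, hkn⟩ (mem_filter.2 ⟨mem_univ _, p.trans' hkj hji⟩)
      simp only at this
      omega
  rw [h1, Nat.card_eq_fintype_card, Fintype.card_subtype]
  apply card_bij (fun i _ => i.val)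
  · intro i hi
    rw [mem_filter] at hi ⊢
    exact ⟨mem_range.2 i.2, hi.2⟩
  · intro i _ j _ h; exact Fin.ext h
  · intro i hi
    rw [mem_filter, mem_range] at hi
    exact ⟨⟨i, hi.1⟩, mem_filter.2 ⟨mem_univ _, hi.2⟩, rfl⟩

/-- the partition is determined by `Prev` and `Next` -/
lemma R_formula (h : FSD p) {i j : ℕ} (hij : i < j) (hj : j < n) :
    R p i j ↔ Next p i ∧ Prev p j ∧ ∀ l, i < l → l < j → (Prev p l ↔ Next p l) := by
  classical
  constructor
  · intro hR
    refine ⟨⟨j, hij, hR⟩, ⟨i, hij, hR⟩, ?_⟩
    intro l hil hlj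
    by_cases hl : R p i l
    · constructor
      · intro _; exact ⟨j, hlj, hl.symm.trans hR⟩
      · intro _; exact ⟨i, hil, hl⟩
    · constructor
      · rintro ⟨x, hx, hRx⟩
        exfalso
        rcases h i j x l hR hRx (fun h' => hl (h'.trans hRx)) hij hx with h' | h' <;> omega
      · rintro ⟨y, hy, hRy⟩
        exfalso
        rcases h i j l y hR hRy hl hij hy with h' | h' <;> omega
  · rintro ⟨hnext, ⟨x, hxj, hRx⟩, hbetween⟩
    by_contra hcon
    have hne : ((range j).filter (fun l => i ≤ l ∧ R p i l)).Nonempty := by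
      refine ⟨i, ?_⟩
      rw [mem_filter, mem_range]
      exact ⟨hij, le_refl _, R_refl (by omega)⟩
    obtain ⟨m, hm, hmax⟩ := exists_max_image _ (fun l => l) hne
    rw [mem_filter, mem_range] at hm
    obtain ⟨hmj, him, hRm⟩ := hm
    have hnextm : Next p m := by
      rcases him.eq_or_lt with h' | h'
      · rw [← h']; exact hnext
      · exact (hbetween m h' hmj).1 ⟨i, h', hRm⟩
    obtain ⟨y, hy, hRy⟩ := hnextm
    have hyj : j < y := by
      by_contra hyj
      rcases (not_lt.1 hyj).eq_or_lt with h' | h'
      · subst h'; exact hcon (hRm.trans hRy)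
      · have := hmax y (by rw [mem_filter, mem_range]; exact ⟨h', by omega, hRm.trans hRy⟩)
        omega
    rcases h m y x j hRy hRx (fun h' => hcon ((hRm.trans h').trans hRx)) hy hxj with h' | h' <;> omega

lemma determined {p p' : Setoid (Fin n)} (h : FSD p) (h' : FSD p')
    (hprev : ∀ i, i < n → (Prev p i ↔ Prev p' i)) (hnext : ∀ i, i < n → (Next p i ↔ Next p' i)) :
    p = p' := by
  have key : ∀ i j : Fin n, i < j → (p i j ↔ p' i j) := by
    intro i j hij
    rw [← R_fin (p := p), ← R_fin (p := p'), R_formula h hij j.2, R_formula h' hij j.2,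
      hnext _ i.2, hprev _ j.2]
    constructor
    · rintro ⟨h1, h2, h3⟩
      refine ⟨h1, h2, fun l hl hl' => ?_⟩
      have := h3 l hl hl'
      rwa [hnext l (hl'.trans j.2), hprev l (hl'.trans j.2)] at this
    · rintro ⟨h1, h2, h3⟩
      refine ⟨h1, h2, fun l hl hl' => ?_⟩
      have := h3 l hl hl'
      rwa [hnext l (hl'.trans j.2), hprev l (hl'.trans j.2)]
  ext i j
  rcases lt_trichotomy i j with hij | hij | hij
  · exact key i j hij
  · subst hij; exact ⟨fun _ => p'.refl' _, fun _ => p.refl' _⟩
  · constructor
    · intro h1; exact p'.symm' ((key j i hij).1 (p.symm' h1))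
    · intro h1; exact p.symm' ((key j i hij).2 (p'.symm' h1))

/-! ### first automaton -/

def step1 (c : Bool) : Option Bool → Bool × Bool → Option (Option Bool)
  | none, (false, false) => some none
  | none, (false, true) => some (some c)
  | some d, (false, false) => some (some d)
  | some d, (true, true) => if d = c then some (some d) else none
  | some d, (true, false) => if d = c then some none else none
  | _, _ => none

def fin1 : Option Bool → Bool
  | none => true
  | some _ => false

def wt1 : Bool × Bool → ℕ
  | (true, _) => 0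
  | (false, _) => 1

/-- colour `c` is open at the gap before `i` -/
def Open (w : ℕ → Bool) (p : Setoid (Fin n)) (c : Bool) (i : ℕ) : Prop :=
  ∃ x y, x < i ∧ i ≤ y ∧ R p x y ∧ w x = c

open Classical in
/-- state before position `i` -/
noncomputable def st1 (w : ℕ → Bool) (p : Setoid (Fin n)) (i : ℕ) : Option Bool :=
  if Open w p false i then some false else if Open w p true i then some true else none

open Classical in
/-- letters -/
noncomputable def let1 (p : Setoid (Fin n)) (i : ℕ) : Bool × Bool :=
  (decide (Prev p i), decide (Next p i))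

lemma open_unique {w : ℕ → Bool} (hF : FSD p) (hM : Mono w p) {c d : Bool} {i : ℕ}
    (hc : Open w p c i) (hd : Open w p d i) : c = d := by
  obtain ⟨x, y, hx, hy, hR, hw⟩ := hc
  obtain ⟨x', y', hx', hy', hR', hw'⟩ := hd
  by_cases h : R p x x'
  · rw [← hw, ← hw']; exact hM _ _ h
  · rcases hF x y x' y' hR hR' h (by omega) (by omega) with h' | h' <;> omega

lemma st1_eq_some {w : ℕ → Bool} (hF : FSD p) (hM : Mono w p) {c : Bool} {i : ℕ} :
    st1 w p i = some c ↔ Open w p c i := by
  unfold st1
  constructor
  · intro h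
    split_ifs at h with h1 h2
    · rw [Option.some.injEq] at h; rw [← h]; exact h1
    · rw [Option.some.injEq] at h; rw [← h]; exact h2
  · intro h
    cases c with
    | false => rw [if_pos h]
    | true =>
      have : ¬ Open w p false i := fun h' => by
        have := open_unique hF hM h h'
        exact absurd this (by decide)
      rw [if_neg this, if_pos h]

lemma st1_eq_none {w : ℕ → Bool} {i : ℕ} :
    st1 w p i = none ↔ ∀ c, ¬ Open w p c i := by
  unfold st1
  constructor
  · intro h c
    split_ifs at h with h1 h2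
    cases c with
    | false => exact h1
    | true => exact h2
  · intro h
    rw [if_neg (h _), if_neg (h _)]

lemma step1_st1 {w : ℕ → Bool} (hF : FSD p) (hM : Mono w p) {i : ℕ} (hi : i < n) :
    step1 (w i) (st1 w p i) (let1 p i) = some (st1 w p (i + 1)) := by
  classical
  by_cases hp : Prev p i
  · obtain ⟨x, hx, hRx⟩ := hp
    have ho : Open w p (w i) i := ⟨x, i, hx, le_refl _, hRx, hM _ _ hRx⟩
    have hs : st1 w p i = some (w i) := (st1_eq_some hF hM).2 ho
    have hp : Prev p i := ⟨x, hx, hRx⟩
    by_cases hn : Next p i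
    · obtain ⟨y, hy, hRy⟩ := hn
      have hs' : st1 w p (i + 1) = some (w i) :=
        (st1_eq_some hF hM).2 ⟨i, y, by omega, by omega, hRy, rfl⟩
      have hn : Next p i := ⟨y, hy, hRy⟩
      rw [hs, hs']
      simp [let1, hp, hn, step1]
    · have hs' : st1 w p (i + 1) = none := by
        rw [st1_eq_none]
        rintro c ⟨x', y', hx', hy', hR', _⟩
        rcases (Nat.lt_succ_iff.1 hx').eq_or_lt with h | h
        · subst h; exact hn ⟨y', by omega, hR'⟩
        · by_cases hxx : R p x x'
          · exact hn ⟨y', by omega, (hRx.symm.trans hxx).trans hR'⟩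
          · rcases hF x i x' y' hRx hR' hxx hx (by omega) with h' | h' <;> omega
      rw [hs, hs']
      simp [let1, hp, hn, step1]
  · by_cases hn : Next p i
    · obtain ⟨y, hy, hRy⟩ := hn
      have hs : st1 w p i = none := by
        rw [st1_eq_none]
        rintro c ⟨x', y', hx', hy', hR', _⟩
        have hne : ¬ R p i x' := fun h => hp ⟨x', hx', h.symm⟩
        rcases hF i y x' y' hRy hR' hne hy (by omega) with h' | h'
        · omega
        · omega
      have hs' : st1 w p (i + 1) = some (w i) :=
        (st1_eq_some hF hM).2 ⟨i, y, by omega, by omega, hRy, rfl⟩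
      have hn : Next p i := ⟨y, hy, hRy⟩
      rw [hs, hs']
      simp [let1, hp, hn, step1]
    · have hiff : ∀ c, Open w p c i ↔ Open w p c (i + 1) := by
        intro c
        constructor
        · rintro ⟨x', y', hx', hy', hR', hw⟩
          refine ⟨x', y', by omega, ?_, hR', hw⟩
          rcases hy'.eq_or_lt with h | h
          · subst h; exact (hp ⟨x', hx', hR'⟩).elim
          · omega
        · rintro ⟨x', y', hx', hy', hR', hw⟩
          refine ⟨x', y', ?_, by omega, hR', hw⟩
          rcases (Nat.lt_succ_iff.1 hx').eq_or_lt with h | h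
          · subst h; exact (hn ⟨y', by omega, hR'⟩).elim
          · omega
      have hs : st1 w p (i + 1) = st1 w p i := by
        cases h : st1 w p i with
        | none =>
          rw [st1_eq_none] at h ⊢
          intro c hc; exact h c ((hiff c).2 hc)
        | some c =>
          rw [st1_eq_some hF hM] at h ⊢
          exact (hiff c).1 h
      rw [hs]
      cases h : st1 w p i with
      | none => simp [let1, hp, hn, step1]
      | some c => simp [let1, hp, hn, step1]

lemma st1_zero {w : ℕ → Bool} : st1 w p 0 = none := by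
  rw [st1_eq_none]
  rintro c ⟨x, y, hx, _⟩
  omega

lemma st1_end {w : ℕ → Bool} : st1 w p n = none := by
  rw [st1_eq_none]
  rintro c ⟨x, y, hx, hy, hR, _⟩
  have := hR.lt_right
  omega

/-! ### second automaton -/

inductive St2 | p0 | pa | mm | s0 | sb
  deriving DecidableEq

def step2 (c : Bool) : St2 → Bool × Bool × Bool → Option St2
  | .p0, (false, false, false) => some .p0
  | .p0, (false, true, false) => if c = false then some .pa else none
  | .p0, (false, true, true) => some .mm
  | .pa, (false, false, false) => some .pa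
  | .pa, (true, true, false) => if c = false then some .pa else none
  | .pa, (true, false, false) => if c = false then some .p0 else none
  | .mm, (false, false, false) => some .mm
  | .mm, (true, true, false) => some .mm
  | .mm, (true, false, false) => some .s0
  | .s0, (false, false, false) => some .s0
  | .s0, (false, true, false) => if c = true then some .sb else none
  | .sb, (false, false, false) => some .sb
  | .sb, (true, true, false) => if c = true then some .sb else none
  | .sb, (true, false, false) => if c = true then some .s0 else none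
  | _, _ => none

def fin2 : St2 → Bool
  | .s0 => true
  | _ => false

def wt2 : Bool × Bool × Bool → ℕ
  | (true, _) => 0
  | (false, _) => 1

/-- some class is open at the gap before `i` -/
def Open' (p : Setoid (Fin n)) (i : ℕ) : Prop := ∃ x y, x < i ∧ i ≤ y ∧ R p x y

open Classical in
noncomputable def st2 (p : Setoid (Fin n)) (s e i : ℕ) : St2 :=
  if i ≤ s then (if Open' p i then .pa else .p0)
  else if i ≤ e then .mm
  else (if Open' p i then .sb else .s0)

open Classical in
noncomputable def let2 (p : Setoid (Fin n)) (s i : ℕ) : Bool × Bool × Bool :=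
  (decide (Prev p i), decide (Next p i), decide (i = s))

/-- data of the mixed class: `s` and `e` are its extreme elements -/
structure Mixed (w : ℕ → Bool) (p : Setoid (Fin n)) (s e : ℕ) : Prop where
  lt : s < e
  rel : R p s e
  min : ∀ x, R p x s → s ≤ x
  max : ∀ x, R p x s → x ≤ e
  before : ∀ x y, R p x y → x < y → y < s → w x = false ∧ w y = false
  after : ∀ x y, R p x y → x < y → e < x → w x = true ∧ w y = true

lemma exists_mixed {w : ℕ → Bool} (hF : FSD p) (hT : TSD w p) (hM : ¬ Mono w p) :
    ∃ s e, Mixed w p s e := by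
  classical
  unfold Mono at hM
  push Not at hM
  obtain ⟨x0, y0, hR0, hw0⟩ := hM
  -- x : false element, y : true element
  obtain ⟨x, y, hR, hx, hy⟩ : ∃ x y, R p x y ∧ w x = false ∧ w y = true := by
    cases h1 : w x0 <;> cases h2 : w y0
    · rw [h1, h2] at hw0; exact (hw0 rfl).elim
    · exact ⟨x0, y0, hR0, h1, h2⟩
    · exact ⟨y0, x0, hR0.symm, h2, h1⟩
    · rw [h1, h2] at hw0; exact (hw0 rfl).elim
  have hne : ((range n).filter (fun z => R p z x)).Nonempty :=
    ⟨x, by rw [mem_filter, mem_range]; exact ⟨hR.lt_left, R_refl hR.lt_left⟩⟩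
  obtain ⟨s, hs, hsmin⟩ := exists_min_image _ (fun z => z) hne
  obtain ⟨e, he, hemax⟩ := exists_max_image _ (fun z => z) hne
  rw [mem_filter, mem_range] at hs he
  have hxmem : x ∈ (range n).filter (fun z => R p z x) := by
    rw [mem_filter, mem_range]; exact ⟨hR.lt_left, R_refl hR.lt_left⟩
  have hymem : y ∈ (range n).filter (fun z => R p z x) := by
    rw [mem_filter, mem_range]; exact ⟨hR.lt_right, hR.symm⟩
  have hsx := hsmin x hxmem
  have hsy := hsmin y hymem
  have hxe := hemax x hxmem
  have hye := hemax y hymem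
  have hxy : x ≠ y := by
    intro h; rw [h] at hx; rw [hx] at hy; exact absurd hy (by decide)
  -- key fact: an element `c` of another nontrivial class which lies between `x` and `y` in
  -- the second order is impossible
  have key : ∀ c d, R p c d → c ≠ d → ¬ R p c x → ¬ (tlt w x c ∧ tlt w c y) := by
    rintro c d hcd hne hcx ⟨h1, h2⟩
    have htxy : tlt w x y := Or.inl ⟨hx, hy⟩
    have htri : tlt w c d ∨ tlt w d c := by
      unfold tlt
      cases w c <;> cases w d <;> simp <;> omega
    rcases htri with h | h
    · rcases hT x y c d hR hcd (fun h' => hcx h'.symm) htxy h with h' | h'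
      · exact tlt_irrefl (tlt_trans h2 h')
      · exact tlt_irrefl (tlt_trans (tlt_trans h1 h) h')
    · rcases hT x y d c hR hcd.symm (fun h' => hcx (h'.trans hcd.symm).symm) htxy h with h' | h'
      · exact tlt_irrefl (tlt_trans (tlt_trans h h2) h')
      · exact tlt_irrefl (tlt_trans h1 h')
  have hRse : R p s e := hs.2.trans he.2.symm
  have hlt : s < e := by
    rcases lt_trichotomy x y with h | h | h <;> omega
  refine ⟨s, e, hlt, hRse, ?_, ?_, ?_, ?_⟩
  · intro z hz
    exact hsmin z (by rw [mem_filter, mem_range]; exact ⟨hz.lt_left, hz.trans hs.2⟩)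
  · intro z hz
    exact hemax z (by rw [mem_filter, mem_range]; exact ⟨hz.lt_left, hz.trans hs.2⟩)
  · -- before
    have hb : ∀ c d, R p c d → c ≠ d → c < s → w c = false := by
      intro c d hcd hne hc
      by_contra hw
      have hw' : w c = true := by simpa using hw
      have hcx : ¬ R p c x := by
        intro h
        have := hsmin c (by rw [mem_filter, mem_range]; exact ⟨h.lt_left, h⟩)
        omega
      apply key c d hcd hne hcx
      refine ⟨Or.inl ⟨hx, hw'⟩, Or.inr ⟨by rw [hw', hy], by omega⟩⟩
    intro a b hab hlt' hbs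
    exact ⟨hb a b hab (by omega) (by omega), hb b a hab.symm (by omega) hbs⟩
  · have hb : ∀ c d, R p c d → c ≠ d → e < c → w c = true := by
      intro c d hcd hne hc
      by_contra hw
      have hw' : w c = false := by simpa using hw
      have hcx : ¬ R p c x := by
        intro h
        have := hemax c (by rw [mem_filter, mem_range]; exact ⟨h.lt_left, h⟩)
        omega
      apply key c d hcd hne hcx
      refine ⟨Or.inr ⟨by rw [hw', hx], by omega⟩, Or.inl ⟨hw', hy⟩⟩
    intro a b hab hlt' hbs
    exact ⟨hb a b hab (by omega) hbs, hb b a hab.symm (by omega) (by omega)⟩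

lemma step2_st2 {w : ℕ → Bool} (hF : FSD p) {s e : ℕ} (hm : Mixed w p s e) {i : ℕ} (hi : i < n) :
    step2 (w i) (st2 p s e i) (let2 p s i) = some (st2 p s e (i + 1)) := by
  classical
  -- facts about openness
  have hopen_prev : Prev p i → Open' p i := fun ⟨x, hx, hR⟩ => ⟨x, i, hx, le_refl _, hR⟩
  have hopen_next : Next p i → Open' p (i + 1) := fun ⟨y, hy, hR⟩ => ⟨i, y, by omega, by omega, hR⟩
  have hPN : Prev p i → ¬ Next p i → ¬ Open' p (i + 1) := by
    rintro ⟨x, hx, hRx⟩ hn ⟨x', y', hx', hy', hR'⟩
    rcases (Nat.lt_succ_iff.1 hx').eq_or_lt with h | h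
    · subst h; exact hn ⟨y', by omega, hR'⟩
    · by_cases hxx : R p x x'
      · exact hn ⟨y', by omega, (hRx.symm.trans hxx).trans hR'⟩
      · rcases hF x i x' y' hRx hR' hxx hx (by omega) with h' | h' <;> omega
  have hNP : ¬ Prev p i → Next p i → ¬ Open' p i := by
    rintro hp ⟨y, hy, hRy⟩ ⟨x', y', hx', hy', hR'⟩
    have hne : ¬ R p i x' := fun h => hp ⟨x', hx', h.symm⟩
    rcases hF i y x' y' hRy hR' hne hy (by omega) with h' | h' <;> omega
  have hNN : ¬ Prev p i → ¬ Next p i → (Open' p i ↔ Open' p (i + 1)) := by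
    intro hp hn
    constructor
    · rintro ⟨x', y', hx', hy', hR'⟩
      refine ⟨x', y', by omega, ?_, hR'⟩
      rcases hy'.eq_or_lt with h | h
      · subst h; exact (hp ⟨x', hx', hR'⟩).elim
      · omega
    · rintro ⟨x', y', hx', hy', hR'⟩
      refine ⟨x', y', ?_, by omega, hR'⟩
      rcases (Nat.lt_succ_iff.1 hx').eq_or_lt with h | h
      · subst h; exact (hn ⟨y', by omega, hR'⟩).elim
      · omega
  have hlt := hm.lt
  -- `s` has no predecessor and has a successor
  rcases lt_trichotomy i s with his | his | his
  · -- before `s`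
    -- a class with an element before `s` lies before `s`
    have hbefore : ∀ x y, R p x y → x < s → y < s := by
      intro x y hR hx
      by_contra hy
      push Not at hy
      have hxs : ¬ R p x s := fun h => by have := hm.min x h; omega
      rcases hy.eq_or_lt with h | h
      · subst h; exact hxs hR
      · rcases hF s e x y hm.rel hR (fun h' => hxs h'.symm) hlt (by omega) with h' | h'
        · omega
        · omega
    have hcol : ∀ x, R p x i → x ≠ i → w i = false := by
      intro x hR hne
      have hx : x < s := hbefore i x hR.symm his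
      rcases lt_or_gt_of_ne hne with h | h
      · exact (hm.before x i hR h his).2
      · exact (hm.before i x hR.symm h hx).1
    have hs1 : st2 p s e i = (if Open' p i then .pa else .p0) := by
      unfold st2; rw [if_pos (by omega)]
    have hs2 : st2 p s e (i + 1) = (if Open' p (i + 1) then .pa else .p0) := by
      unfold st2; rw [if_pos (by omega)]
    have hne : decide (i = s) = false := by simp; omega
    rw [hs1, hs2]
    by_cases hp : Prev p i <;> by_cases hn : Next p i
    · obtain ⟨x, hx, hR⟩ := hp
      have hw := hcol x hR (by omega)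
      have hp : Prev p i := ⟨x, hx, hR⟩
      simp [let2, hp, hn, hne, hopen_prev hp, hopen_next hn, step2, hw]
    · obtain ⟨x, hx, hR⟩ := hp
      have hw := hcol x hR (by omega)
      have hp : Prev p i := ⟨x, hx, hR⟩
      simp [let2, hp, hn, hne, hopen_prev hp, hPN hp hn, step2, hw]
    · obtain ⟨y, hy, hR⟩ := hn
      have hw := hcol y hR.symm (by omega)
      have hn : Next p i := ⟨y, hy, hR⟩
      simp [let2, hp, hn, hne, hopen_next hn, hNP hp hn, step2, hw]
    · by_cases ho : Open' p i
      · have ho' := (hNN hp hn).1 ho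
        simp [let2, hp, hn, hne, ho, ho', step2]
      · have ho' : ¬ Open' p (i + 1) := fun h => ho ((hNN hp hn).2 h)
        simp [let2, hp, hn, hne, ho, ho', step2]
  · -- at `s`
    subst his
    have hp : ¬ Prev p i := by
      rintro ⟨x, hx, hR⟩
      have := hm.min x hR
      omega
    have hn : Next p i := ⟨e, hlt, hm.rel⟩
    have hs1 : st2 p i e i = .p0 := by
      unfold st2; rw [if_pos (le_refl _), if_neg (hNP hp hn)]
    have hs2 : st2 p i e (i + 1) = .mm := by
      unfold st2; rw [if_neg (by omega), if_pos (by omega)]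
    rw [hs1, hs2]
    simp [let2, hp, hn, step2]
  · have hne : decide (i = s) = false := by simp; omega
    rcases lt_trichotomy i e with hie | hie | hie
    · -- inside
      have hs1 : st2 p s e i = .mm := by
        unfold st2; rw [if_neg (by omega), if_pos (by omega)]
      have hs2 : st2 p s e (i + 1) = .mm := by
        unfold st2; rw [if_neg (by omega), if_pos (by omega)]
      rw [hs1, hs2]
      have hiff : Prev p i ↔ Next p i := ((R_formula hF hlt hm.rel.lt_right).1 hm.rel).2.2 i his hie
      by_cases hp : Prev p i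
      · have hn := hiff.1 hp
        simp [let2, hp, hn, hne, step2]
      · have hn : ¬ Next p i := fun h => hp (hiff.2 h)
        simp [let2, hp, hn, hne, step2]
    · subst hie
      have hp : Prev p i := ⟨s, his, hm.rel⟩
      have hn : ¬ Next p i := by
        rintro ⟨y, hy, hR⟩
        have := hm.max y (hm.rel.trans hR).symm
        omega
      have hs1 : st2 p s i i = .mm := by
        unfold st2; rw [if_neg (by omega), if_pos (by omega)]
      have hs2 : st2 p s i (i + 1) = .s0 := by
        unfold st2; rw [if_neg (by omega), if_neg (by omega), if_neg (hPN hp hn)]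
      rw [hs1, hs2]
      simp [let2, hp, hn, hne, step2]
    · -- after `e`
      have hafter : ∀ x y, R p x y → e < x → e < y := by
        intro x y hR hx
        by_contra hy
        push Not at hy
        have hxs : ¬ R p x s := fun h => by have := hm.max x h; omega
        rcases hy.eq_or_lt with h | h
        · subst h; exact hxs (hR.trans hm.rel.symm)
        · rcases hF s e y x hm.rel hR.symm (fun h' => hxs (hR.trans h'.symm)) hlt (by omega) with h' | h'
          · omega
          · omega
      have hcol : ∀ x, R p x i → x ≠ i → w i = true := by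
        intro x hR hne
        have hx : e < x := hafter i x hR.symm hie
        rcases lt_or_gt_of_ne hne with h | h
        · exact (hm.after x i hR h hx).2
        · exact (hm.after i x hR.symm h hie).1
      have hs1 : st2 p s e i = (if Open' p i then .sb else .s0) := by
        unfold st2; rw [if_neg (by omega), if_neg (by omega)]
      have hs2 : st2 p s e (i + 1) = (if Open' p (i + 1) then .sb else .s0) := by
        unfold st2; rw [if_neg (by omega), if_neg (by omega)]
      rw [hs1, hs2]
      by_cases hp : Prev p i <;> by_cases hn : Next p i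
      · obtain ⟨x, hx, hR⟩ := hp
        have hw := hcol x hR (by omega)
        have hp : Prev p i := ⟨x, hx, hR⟩
        simp [let2, hp, hn, hne, hopen_prev hp, hopen_next hn, step2, hw]
      · obtain ⟨x, hx, hR⟩ := hp
        have hw := hcol x hR (by omega)
        have hp : Prev p i := ⟨x, hx, hR⟩
        simp [let2, hp, hn, hne, hopen_prev hp, hPN hp hn, step2, hw]
      · obtain ⟨y, hy, hR⟩ := hn
        have hw := hcol y hR.symm (by omega)
        have hn : Next p i := ⟨y, hy, hR⟩
        simp [let2, hp, hn, hne, hopen_next hn, hNP hp hn, step2, hw]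
      · by_cases ho : Open' p i
        · have ho' := (hNN hp hn).1 ho
          simp [let2, hp, hn, hne, ho, ho', step2]
        · have ho' : ¬ Open' p (i + 1) := fun h => ho ((hNN hp hn).2 h)
          simp [let2, hp, hn, hne, ho, ho', step2]

lemma st2_zero {w : ℕ → Bool} {s e : ℕ} : st2 p s e 0 = .p0 := by
  unfold st2
  rw [if_pos (Nat.zero_le _), if_neg]
  rintro ⟨x, y, hx, _⟩
  omega

lemma st2_end {w : ℕ → Bool} {s e : ℕ} (hm : Mixed w p s e) : st2 p s e n = .s0 := by
  unfold st2
  have := hm.rel.lt_right
  have := hm.lt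
  rw [if_neg (by omega), if_neg (by omega), if_neg]
  rintro ⟨x, y, hx, hy, hR⟩
  have := hR.lt_right
  omega

end code

end Pool.Agent.Helper71.Uni
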