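import Mathlib
import Pool.Agent.Helper71.UniCode

set_option autoImplicit false
set_option linter.unusedSectionVars false
set_option linter.unusedVariables false
set_option linter.unusedSimpArgs false

namespace Pool.Agent.Helper71.Uni

open Finset

lemma step1_cases {c : Bool} {q q' : Option Bool} {a : Bool × Bool}
    (h : step1 c q a = some q') :
    (q = none ∧ a = (false, false) ∧ q' = none) ∨ (q = none ∧ a = (false, true) ∧ q' = some c) ∨
    (∃ d, q = some d ∧ a = (false, false) ∧ q' = some d) ∨
    (q = some c ∧ a = (true, true) ∧ q' = some c) ∨ (q = some c ∧ a = (true, false) ∧ q' = none) := by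
  rcases q with _ | d <;> rcases a with ⟨_ | _, _ | _⟩ <;> simp [step1] at h ⊢
  · exact h.symm
  · exact h.symm
  · exact h.symm
  · obtain ⟨h1, h2⟩ := h
    exact ⟨h1, h2.symm⟩
  · obtain ⟨h1, h2⟩ := h
    subst h1
    exact ⟨rfl, h2.symm⟩

structure Valid1 (w : ℕ → Bool) (f : ℕ → Bool × Bool) (σ : ℕ → Option Bool) (n : ℕ) : Prop where
  zero : σ 0 = none
  fin : σ n = none
  step : ∀ i, i < n → step1 (w i) (σ i) (f i) = some (σ (i + 1))

/-- the last start before `i` -/
def lastB (f : ℕ → Bool × Bool) : ℕ → ℕ
  | 0 => 0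
  | i + 1 => if f i = (false, true) then i else lastB f i

def idf (f : ℕ → Bool × Bool) (i : ℕ) : ℕ := if (f i).1 = true then lastB f i else i

section

variable {w : ℕ → Bool} {f : ℕ → Bool × Bool} {σ : ℕ → Option Bool} {n : ℕ}

lemma valid_back (hv : Valid1 w f σ n) : ∀ i, i ≤ n → ∀ c, σ i = some c →
    lastB f i < i ∧ f (lastB f i) = (false, true) ∧ w (lastB f i) = c ∧
      ∀ l, lastB f i < l → l < i → (f l).1 = (f l).2 := by
  intro i
  induction i with
  | zero => intro _ c h; rw [hv.zero] at h; simp at h
  | succ i ih =>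
    intro hi c hc
    have hs := hv.step i (by omega)
    rcases step1_cases hs with ⟨h1, h2, h3⟩ | ⟨h1, h2, h3⟩ | ⟨d, h1, h2, h3⟩ | ⟨h1, h2, h3⟩ | ⟨h1, h2, h3⟩
    · rw [h3] at hc; simp at hc
    · rw [h3] at hc
      have hc' : w i = c := Option.some.inj hc
      have : lastB f (i + 1) = i := by simp [lastB, h2]
      rw [this]
      refine ⟨by omega, h2, hc', ?_⟩
      intro l hl hl'; omega
    · rw [h3] at hc
      have hdc : d = c := Option.some.inj hc
      have : lastB f (i + 1) = lastB f i := by simp [lastB, h2]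
      rw [this]
      obtain ⟨a1, a2, a3, a4⟩ := ih (by omega) c (by rw [h1, hdc])
      refine ⟨by omega, a2, a3, ?_⟩
      intro l hl hl'
      rcases (Nat.lt_succ_iff.1 hl').eq_or_lt with h | h
      · rw [h, h2]
      · exact a4 l hl h
    · rw [h3] at hc
      have hdc : w i = c := Option.some.inj hc
      have : lastB f (i + 1) = lastB f i := by simp [lastB, h2]
      rw [this]
      obtain ⟨a1, a2, a3, a4⟩ := ih (by omega) c (by rw [h1, hdc])
      refine ⟨by omega, a2, a3, ?_⟩
      intro l hl hl'
      rcases (Nat.lt_succ_iff.1 hl').eq_or_lt with h | h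
      · rw [h, h2]
      · exact a4 l hl h
    · rw [h3] at hc; simp at hc

lemma valid_forward (hv : Valid1 w f σ n) : ∀ k i, i + k = n → ∀ c, σ i = some c →
    ∃ j, i ≤ j ∧ j < n ∧ f j = (true, false) ∧ lastB f j = lastB f i := by
  intro k
  induction k with
  | zero => intro i hi c hc; simp at hi; subst hi; rw [hv.fin] at hc; simp at hc
  | succ k ih =>
    intro i hi c hc
    have hs := hv.step i (by omega)
    rcases step1_cases hs with ⟨h1, h2, h3⟩ | ⟨h1, h2, h3⟩ | ⟨d, h1, h2, h3⟩ | ⟨h1, h2, h3⟩ | ⟨h1, h2, h3⟩
    · rw [h1] at hc; simp at hc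
    · rw [h1] at hc; simp at hc
    · obtain ⟨j, b1, b2, b3, b4⟩ := ih (i + 1) (by omega) d h3
      have : lastB f (i + 1) = lastB f i := by simp [lastB, h2]
      exact ⟨j, by omega, b2, b3, by rw [b4, this]⟩
    · obtain ⟨j, b1, b2, b3, b4⟩ := ih (i + 1) (by omega) _ h3
      have : lastB f (i + 1) = lastB f i := by simp [lastB, h2]
      exact ⟨j, by omega, b2, b3, by rw [b4, this]⟩
    · exact ⟨i, le_refl _, by omega, h2, rfl⟩

lemma valid_fst (hv : Valid1 w f σ n) {i : ℕ} (hi : i < n) (h : (f i).1 = true) :
    σ i = some (w i) := by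
  have hs := hv.step i hi
  rcases step1_cases hs with ⟨h1, h2, h3⟩ | ⟨h1, h2, h3⟩ | ⟨d, h1, h2, h3⟩ | ⟨h1, h2, h3⟩ | ⟨h1, h2, h3⟩
  · rw [h2] at h; simp at h
  · rw [h2] at h; simp at h
  · rw [h2] at h; simp at h
  · exact h1
  · exact h1

lemma valid_snd (hv : Valid1 w f σ n) {i : ℕ} (hi : i < n) (h : (f i).2 = true) :
    σ (i + 1) = some (w i) := by
  have hs := hv.step i hi
  rcases step1_cases hs with ⟨h1, h2, h3⟩ | ⟨h1, h2, h3⟩ | ⟨d, h1, h2, h3⟩ | ⟨h1, h2, h3⟩ | ⟨h1, h2, h3⟩
  · rw [h2] at h; simp at h
  · exact h3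
  · rw [h2] at h; simp at h
  · exact h3
  · rw [h2] at h; simp at h

lemma idf_le (hv : Valid1 w f σ n) {i : ℕ} (hi : i < n) : idf f i ≤ i := by
  unfold idf
  split_ifs with h
  · exact (valid_back hv i hi.le _ (valid_fst hv hi h)).1.le
  · exact le_refl _

lemma idf_of_fst (hv : Valid1 w f σ n) {i : ℕ} (hi : i < n) (h : (f i).1 = true) :
    idf f i = lastB f i ∧ lastB f i < i ∧ f (lastB f i) = (false, true) ∧ w (lastB f i) = w i ∧
      ∀ l, lastB f i < l → l < i → (f l).1 = (f l).2 := by
  obtain ⟨h1, h2, h3, h4⟩ := valid_back hv i hi.le _ (valid_fst hv hi h)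
  exact ⟨by simp [idf, h], h1, h2, h3, h4⟩

lemma idf_of_not {i : ℕ} (h : (f i).1 = false) : idf f i = i := by simp [idf, h]

/-- the partition coded by `f` -/
def pf (f : ℕ → Bool × Bool) (n : ℕ) : Setoid (Fin n) := Setoid.ker (fun i : Fin n => idf f i.val)

lemma R_pf {i j : ℕ} : R (pf f n) i j ↔ i < n ∧ j < n ∧ idf f i = idf f j := by
  unfold R pf
  constructor
  · rintro ⟨hi, hj, h⟩
    exact ⟨hi, hj, h⟩
  · rintro ⟨hi, hj, h⟩
    exact ⟨hi, hj, h⟩

lemma prev_pf (hv : Valid1 w f σ n) {i : ℕ} (hi : i < n) : Prev (pf f n) i ↔ (f i).1 = true := by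
  constructor
  · rintro ⟨j, hj, hR⟩
    rw [R_pf] at hR
    by_contra h
    have h' : (f i).1 = false := by simpa using h
    rw [idf_of_not h'] at hR
    have := idf_le hv hR.1
    omega
  · intro h
    obtain ⟨h1, h2, h3, _⟩ := idf_of_fst hv hi h
    refine ⟨lastB f i, h2, ?_⟩
    rw [R_pf]
    refine ⟨by omega, hi, ?_⟩
    rw [h1, idf_of_not (by rw [h3])]

lemma next_pf (hv : Valid1 w f σ n) {i : ℕ} (hi : i < n) : Next (pf f n) i ↔ (f i).2 = true := by
  constructor
  · rintro ⟨j, hj, hR⟩
    rw [R_pf] at hR
    obtain ⟨_, hjn, hid⟩ := hR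
    have hile := idf_le hv hi
    by_cases hfj : (f j).1 = true
    · obtain ⟨h1, h2, h3, h4, h5⟩ := idf_of_fst hv hjn hfj
      rw [h1] at hid
      by_cases hfi : (f i).1 = true
      · obtain ⟨g1, g2, _⟩ := idf_of_fst hv hi hfi
        rw [← h5 i (by omega) hj]; exact hfi
      · have hfi' : (f i).1 = false := by simpa using hfi
        rw [idf_of_not hfi'] at hid
        rw [hid, h3]
    · have h' : (f j).1 = false := by simpa using hfj
      rw [idf_of_not h'] at hid
      omega
  · intro h
    have h1 := valid_snd hv hi h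
    have hi1 : i + 1 ≤ n := hi
    obtain ⟨j, b1, b2, b3, b4⟩ := valid_forward hv (n - (i + 1)) (i + 1) (by omega) _ h1
    refine ⟨j, by omega, ?_⟩
    rw [R_pf]
    refine ⟨hi, b2, ?_⟩
    have hj : idf f j = lastB f j := by simp [idf, b3]
    rw [hj, b4]
    by_cases hfi : (f i).1 = true
    · have h2 : f i = (true, true) := Prod.ext hfi h
      have h3 : lastB f (i + 1) = lastB f i := by simp [lastB, h2]
      rw [h3]; simp [idf, hfi]
    · have hfi' : (f i).1 = false := by simpa using hfi
      have h2 : f i = (false, true) := Prod.ext hfi' h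
      have h3 : lastB f (i + 1) = i := by simp [lastB, h2]
      rw [h3, idf_of_not hfi']

lemma w_idf (hv : Valid1 w f σ n) {i : ℕ} (hi : i < n) : w (idf f i) = w i := by
  by_cases h : (f i).1 = true
  · obtain ⟨h1, _, _, h4, _⟩ := idf_of_fst hv hi h
    rw [h1, h4]
  · rw [idf_of_not (by simpa using h)]

lemma mono_pf (hv : Valid1 w f σ n) : Mono w (pf f n) := by
  intro i j hR
  rw [R_pf] at hR
  rw [← w_idf hv hR.1, ← w_idf hv hR.2.1, hR.2.2]

lemma FSD_pf (hv : Valid1 w f σ n) : FSD (pf f n) := by
  have key : ∀ a b c d, R (pf f n) a b → R (pf f n) c d → a < b → c < d →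
      idf f a < idf f c → b < c := by
    intro a b c d hab hcd h1 h2 hlt
    rw [R_pf] at hab hcd
    obtain ⟨ha, hb, hab⟩ := hab
    obtain ⟨hc, hd, hcd⟩ := hcd
    have hfb : (f b).1 = true := by
      by_contra h
      rw [idf_of_not (i := b) (by simpa using h)] at hab
      have := idf_le hv ha
      omega
    have hfd : (f d).1 = true := by
      by_contra h
      rw [idf_of_not (i := d) (by simpa using h)] at hcd
      have := idf_le hv hc
      omega
    obtain ⟨b1, b2, b3, b4, b5⟩ := idf_of_fst hv hb hfb
    obtain ⟨d1, d2, d3, d4, d5⟩ := idf_of_fst hv hd hfd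
    have hcle := idf_le hv hc
    -- `idf c` is a start
    by_contra hcon
    push Not at hcon
    have h3 : lastB f b < lastB f d := by rw [← b1, ← d1, ← hab, ← hcd]; exact hlt
    have h4 : lastB f d ≤ c := by rw [← d1, ← hcd]; exact hcle
    have h5 : lastB f d ≠ b := by
      intro h
      rw [h] at d3
      rw [d3] at hfb
      simp at hfb
    have := b5 (lastB f d) h3 (by omega)
    rw [d3] at this
    simp at this
  intro a b c d hab hcd hac h1 h2
  have hne : idf f a ≠ idf f c := by
    intro h
    apply hac
    rw [R_pf] at hab hcd ⊢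
    exact ⟨hab.1, hcd.1, h⟩
  rcases lt_or_gt_of_ne hne with h | h
  · exact Or.inl (key a b c d hab hcd h1 h2 h)
  · exact Or.inr (key c d a b hcd hab h2 h1 h)

lemma TSD_of_mono {p : Setoid (Fin n)} (hF : FSD p) (hM : Mono w p) : TSD w p := by
  intro a b c d hab hcd hac h1 h2
  have m1 := hM a b hab
  have m2 := hM c d hcd
  have h1' : a < b := by
    rcases h1 with ⟨h, h'⟩ | ⟨_, h⟩
    · rw [m1, h'] at h; exact absurd h (by decide)
    · exact h
  have h2' : c < d := by
    rcases h2 with ⟨h, h'⟩ | ⟨_, h⟩
    · rw [m2, h'] at h; exact absurd h (by decide)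
    · exact h
  by_cases hw : w b = w c
  · rcases hF a b c d hab hcd hac h1' h2' with h | h
    · exact Or.inl (Or.inr ⟨hw, h⟩)
    · exact Or.inr (Or.inr ⟨by rw [← m2, ← hw, m1], h⟩)
  · cases hb : w b with
    | false =>
      have : w c = true := by
        cases hc : w c
        · rw [hb, hc] at hw; exact (hw rfl).elim
        · rfl
      exact Or.inl (Or.inl ⟨hb, this⟩)
    | true =>
      have : w c = false := by
        cases hc : w c
        · rfl
        · rw [hb, hc] at hw; exact (hw rfl).elim
      exact Or.inr (Or.inl ⟨by rw [← m2]; exact this, by rw [m1]; exact hb⟩)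

end

/-! ### counting -/

lemma sum_map_range {M : Type*} [AddCommMonoid M] (f : ℕ → M) (n : ℕ) :
    ((List.range n).map f).sum = ∑ i ∈ range n, f i := by
  induction n with
  | zero => simp
  | succ n ih => rw [List.range_succ, List.map_append, List.sum_append, ih, sum_range_succ]; simp

def wf (W : List Bool) (i : ℕ) : Bool := W.getD i false

instance finiteSetoid (n : ℕ) : Finite (Setoid (Fin n)) := by
  have : Function.Injective (fun s : Setoid (Fin n) => (fun i j => s i j : Fin n → Fin n → Prop)) := by
    intro s t h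
    ext i j
    have := congrFun (congrFun h i) j
    simp only at this
    rw [this]
  exact Finite.of_injective _ this

def PP (n : ℕ) (w : ℕ → Bool) (k : ℕ) : Set (Setoid (Fin n)) :=
  {p | FSD p ∧ TSD w p ∧ Nat.card (Quotient p) = k}

lemma range_map_inj {α : Type*} {n : ℕ} {f g : ℕ → α}
    (h : (List.range n).map f = (List.range n).map g) : ∀ i, i < n → f i = g i := by
  intro i hi
  have := List.map_inj_left.1 h i (List.mem_range.2 hi)
  exact this

theorem upper (W : List Bool) (n : ℕ) (hn : W.length = n) (k : ℕ) :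
    (PP n (wf W) k).ncard ≤ cnt step1 fin1 wt1 W none k + cnt step2 fin2 wt2 W .p0 k := by
  classical
  set A : Set (Setoid (Fin n)) := {p | FSD p ∧ Mono (wf W) p ∧ Nat.card (Quotient p) = k} with hA
  set B : Set (Setoid (Fin n)) :=
    {p | FSD p ∧ (∃ s e, Mixed (wf W) p s e) ∧ Nat.card (Quotient p) = k} with hB
  have hsub : PP n (wf W) k ⊆ A ∪ B := by
    rintro p ⟨h1, h2, h3⟩
    by_cases hM : Mono (wf W) p
    · exact Or.inl ⟨h1, hM, h3⟩
    · exact Or.inr ⟨h1, exists_mixed h1 h2 hM, h3⟩
  have hfin : (A ∪ B).Finite := Set.toFinite _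
  refine (Set.ncard_le_ncard hsub hfin).trans ((Set.ncard_union_le _ _).trans ?_)
  apply Nat.add_le_add
  · rw [← card_pathsF step1 fin1 wt1 W none k, ← Set.ncard_coe_finset]
    apply Set.ncard_le_ncard_of_injOn (fun p => (List.range n).map (let1 p))
    · rintro p ⟨h1, h2, h3⟩
      rw [mem_coe, mem_filter, mem_pathsF]
      constructor
      · have := acc_of_states step1 fin1 W (let1 p) (st1 (wf W) p) (by
          intro i hi
          have h4 := step1_st1 (w := wf W) h1 h2 (i := i) (by omega)
          rw [← h4]
          congr 1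
          unfold wf
          rw [List.getD_eq_getElem _ _ hi]) (by
            rw [hn, st1_end]; rfl)
        rw [st1_zero, hn] at this
        exact this
      · rw [List.map_map, sum_map_range]
        have h5 := card_quotient p
        rw [h3] at h5
        rw [h5, card_filter]
        apply sum_congr rfl
        intro i _
        by_cases hp : Prev p i
        · simp [let1, wt1, hp]
        · simp [let1, wt1, hp]
    · rintro p ⟨h1, _, _⟩ p' ⟨h1', _, _⟩ h
      have hl := range_map_inj h
      apply determined h1 h1'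
      · intro i hi
        have := congrArg Prod.fst (hl i hi)
        simpa [let1] using this
      · intro i hi
        have := congrArg Prod.snd (hl i hi)
        simpa [let1] using this
  · rw [← card_pathsF step2 fin2 wt2 W .p0 k, ← Set.ncard_coe_finset]
    let S : Setoid (Fin n) → ℕ := fun p => if h : ∃ s e, Mixed (wf W) p s e then h.choose else 0
    apply Set.ncard_le_ncard_of_injOn (fun p => (List.range n).map (let2 p (S p)))
    · rintro p ⟨h1, h2, h3⟩
      rw [mem_coe, mem_filter, mem_pathsF]
      have hS : ∃ e, Mixed (wf W) p (S p) e := by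
        simp only [S]
        rw [dif_pos h2]
        exact h2.choose_spec
      obtain ⟨e, he⟩ := hS
      constructor
      · have := acc_of_states step2 fin2 W (let2 p (S p)) (st2 p (S p) e) (by
          intro i hi
          have h4 := step2_st2 (w := wf W) h1 he (i := i) (by omega)
          rw [← h4]
          congr 1
          unfold wf
          rw [List.getD_eq_getElem _ _ hi]) (by
            rw [hn, st2_end he]; rfl)
        rw [st2_zero (w := wf W), hn] at this
        exact this
      · rw [List.map_map, sum_map_range]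
        have h5 := card_quotient p
        rw [h3] at h5
        rw [h5, card_filter]
        apply sum_congr rfl
        intro i _
        by_cases hp : Prev p i
        · simp [let2, wt2, hp]
        · simp [let2, wt2, hp]
    · rintro p ⟨h1, _, _⟩ p' ⟨h1', _, _⟩ h
      have hl := range_map_inj h
      apply determined h1 h1'
      · intro i hi
        have := congrArg Prod.fst (hl i hi)
        simpa [let2] using this
      · intro i hi
        have := congrArg (fun x => x.2.1) (hl i hi)
        simpa [let2] using this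

theorem lower (W : List Bool) (n : ℕ) (hn : W.length = n) (k : ℕ) :
    cnt step1 fin1 wt1 W none k ≤ (PP n (wf W) k).ncard := by
  classical
  rw [← card_pathsF step1 fin1 wt1 W none k, ← Set.ncard_coe_finset]
  have hval : ∀ l, acc step1 fin1 W none l →
      l.length = n ∧ ∃ σ, Valid1 (wf W) (fun i => l.getD i (false, false)) σ n := by
    intro l hl
    obtain ⟨h1, σ, h2, h3, h4⟩ := states_of_acc step1 fin1 W none l hl
    refine ⟨by omega, σ, h2, ?_, ?_⟩
    · rw [hn] at h4
      cases h : σ n with
      | none => rfl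
      | some c => rw [h] at h4; simp [fin1] at h4
    · intro i hi
      have h5 := h3 i (by omega) (by omega)
      rw [← h5]
      unfold wf
      rw [List.getD_eq_getElem _ _ (show i < W.length by omega)]
      rw [List.getD_eq_getElem _ _ (show i < l.length by omega)]
  apply Set.ncard_le_ncard_of_injOn (fun l => pf (fun i => l.getD i (false, false)) n)
  · intro l hl
    rw [mem_coe, mem_filter, mem_pathsF] at hl
    obtain ⟨h1, h2⟩ := hl
    obtain ⟨hlen, σ, hv⟩ := hval l h1
    refine ⟨FSD_pf hv, TSD_of_mono (FSD_pf hv) (mono_pf hv), ?_⟩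
    rw [card_quotient]
    rw [← h2]
    have h3 : l = (List.range n).map (fun i => l.getD i (false, false)) := by
      apply List.ext_getElem
      · simp [hlen]
      · intro i hi hi'
        rw [List.getElem_map, List.getElem_range, List.getD_eq_getElem _ _ hi]
    conv_rhs => rw [h3]
    rw [List.map_map, sum_map_range, card_filter]
    apply sum_congr rfl
    intro i hi
    have h4 := prev_pf hv (mem_range.1 hi)
    by_cases hp : (l.getD i (false, false)).1 = true
    · have h5 := h4.2 hp
      rw [if_neg (by simpa using h5)]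
      have h6 : l.getD i (false, false) = (true, (l.getD i (false, false)).2) := Prod.ext hp rfl
      rw [Function.comp, h6]
      rfl
    · have hp' : (l.getD i (false, false)).1 = false := by simpa using hp
      have h5 : ¬ Prev (pf (fun i => l.getD i (false, false)) n) i := fun h => hp (h4.1 h)
      rw [if_pos h5]
      have h6 : l.getD i (false, false) = (false, (l.getD i (false, false)).2) := Prod.ext hp' rfl
      rw [Function.comp, h6]
      rfl
  · intro l hl l' hl' h
    rw [mem_coe, mem_filter, mem_pathsF] at hl hl'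
    obtain ⟨hlen, σ, hv⟩ := hval l hl.1
    obtain ⟨hlen', σ', hv'⟩ := hval l' hl'.1
    simp only at h
    apply List.ext_getElem
    · omega
    · intro i hi hi'
      have hin : i < n := by omega
      have e1 := prev_pf hv hin
      have e2 := prev_pf hv' hin
      have e3 := next_pf hv hin
      have e4 := next_pf hv' hin
      rw [h] at e1 e3
      have f1 := e1.symm.trans e2
      have f2 := e3.symm.trans e4
      rw [List.getD_eq_getElem _ _ hi, List.getD_eq_getElem _ _ hi'] at f1 f2
      exact Prod.ext (Bool.eq_iff_iff.2 f1) (Bool.eq_iff_iff.2 f2)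

/-- the partition with one nontrivial class -/
def single {n : ℕ} (U : Finset (Fin n)) : Setoid (Fin n) where
  r i j := i = j ∨ (i ∈ U ∧ j ∈ U)
  iseqv :=
    { refl := fun i => Or.inl rfl
      symm := by
        rintro i j (h | h)
        · exact Or.inl h.symm
        · exact Or.inr ⟨h.2, h.1⟩
      trans := by
        rintro i j k (h | h) (h' | h')
        · exact Or.inl (h.trans h')
        · subst h; exact Or.inr h'
        · subst h'; exact Or.inr h
        · exact Or.inr ⟨h.1, h'.2⟩ }

lemma single_rel {n : ℕ} (U : Finset (Fin n)) (i j : Fin n) :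
    single U i j ↔ (i = j ∨ (i ∈ U ∧ j ∈ U)) := Iff.rfl

lemma R_single {n : ℕ} (U : Finset (Fin n)) {i j : ℕ} (hne : i ≠ j) (h : R (single U) i j) :
    ∃ (hi : i < n) (hj : j < n), (⟨i, hi⟩ : Fin n) ∈ U ∧ (⟨j, hj⟩ : Fin n) ∈ U := by
  obtain ⟨hi, hj, h⟩ := h
  rw [single_rel] at h
  rcases h with h | h
  · exact (hne (by simpa using h)).elim
  · exact ⟨hi, hj, h⟩

theorem lower_single (n : ℕ) (w : ℕ → Bool) (k : ℕ) (hk : 1 ≤ k) (hkn : k < n) :
    n.choose (k - 1) ≤ (PP n w k).ncard := by
  classical
  have h1 : n.choose (k - 1) = ((Finset.univ : Finset (Fin n)).powersetCard (n - k + 1)).card := by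
    rw [card_powersetCard, card_univ, Fintype.card_fin, ← Nat.choose_symm (by omega)]
    congr 1
    omega
  rw [h1, ← Set.ncard_coe_finset]
  have hRab : ∀ (U : Finset (Fin n)) a b c d, R (single U) a b → R (single U) c d →
      ¬ R (single U) a c → a ≠ b → c ≠ d → False := by
    intro U a b c d hab hcd hac h1 h2
    obtain ⟨ha, hb, hU1, hU2⟩ := R_single U h1 hab
    obtain ⟨hc, hd, hU3, hU4⟩ := R_single U h2 hcd
    exact hac ⟨ha, hc, Or.inr ⟨hU1, hU3⟩⟩
  apply Set.ncard_le_ncard_of_injOn (fun U => single U)
  · intro U hU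
    rw [mem_coe, mem_powersetCard] at hU
    have hUc := hU.2
    have hUne : U.Nonempty := by rw [← card_pos]; omega
    refine ⟨?_, ?_, ?_⟩
    · intro a b c d hab hcd hac h1 h2
      exact (hRab U a b c d hab hcd hac (by omega) (by omega)).elim
    · intro a b c d hab hcd hac h1 h2
      refine (hRab U a b c d hab hcd hac ?_ ?_).elim
      · rintro rfl; exact tlt_irrefl h1
      · rintro rfl; exact tlt_irrefl h2
    · rw [card_quotient]
      obtain ⟨m, hm, hmin⟩ := exists_min_image U (fun i => i.val) hUne
      have h2 : (range n).filter (fun i => ¬ Prev (single U) i)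
          = (range n) \ ((U.erase m).image (fun i => i.val)) := by
        ext i
        simp only [mem_filter, mem_range, mem_sdiff, mem_image, mem_erase]
        constructor
        · rintro ⟨hi, hprev⟩
          refine ⟨hi, ?_⟩
          rintro ⟨j, ⟨hjm, hjU⟩, rfl⟩
          apply hprev
          refine ⟨m.val, ?_, m.2, j.2, Or.inr ⟨hm, hjU⟩⟩
          have := hmin j hjU
          rcases this.eq_or_lt with h | h
          · exact (hjm (Fin.ext h.symm)).elim
          · exact h
        · rintro ⟨hi, hno⟩
          refine ⟨hi, ?_⟩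
          rintro ⟨j, hj, hR⟩
          obtain ⟨hjn, hin, hU1, hU2⟩ := R_single U (by omega) hR
          apply hno
          refine ⟨⟨i, hi⟩, ⟨?_, hU2⟩, rfl⟩
          intro h
          have := hmin _ hU1
          rw [← h] at this
          simp only at this
          omega
      rw [h2, card_sdiff_of_subset, card_image_of_injective _ Fin.val_injective, card_erase_of_mem hm,
        card_range, hUc]
      · omega
      · intro i hi
        rw [mem_image] at hi
        obtain ⟨j, _, rfl⟩ := hi
        exact mem_range.2 j.2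
  · intro U hU U' hU' h
    rw [mem_coe, mem_powersetCard] at hU hU'
    have key : ∀ U U' : Finset (Fin n), 2 ≤ U.card → single U = single U' → U ⊆ U' := by
      intro U U' hc h i hi
      obtain ⟨j, hj, hne⟩ := exists_mem_ne (by omega : 1 < U.card) i
      have h1 : single U i j := Or.inr ⟨hi, hj⟩
      rw [h, single_rel] at h1
      rcases h1 with h1 | h1
      · exact (hne h1.symm).elim
      · exact h1.1
    exact Subset.antisymm (key U U' (by omega) h) (key U' U (by omega) h.symm)

end Pool.Agent.Helper71.Uni
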