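import Mathlib
import Pool.Agent.Helper71.UniDecode

set_option autoImplicit false
set_option linter.unusedSectionVars false
set_option linter.unusedVariables false
set_option linter.unusedSimpArgs false

namespace Pool.Agent.Helper71.Uni

open Finset

/-! ### fast evaluation of the counts -/

def addL : List ℕ → List ℕ → List ℕ
  | [], b => b
  | x :: a, [] => x :: a
  | x :: a, y :: b => (x + y) :: addL a b

lemma getD_addL : ∀ (a b : List ℕ) (k : ℕ), (addL a b).getD k 0 = a.getD k 0 + b.getD k 0 := by
  intro a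
  induction a with
  | nil => intro b k; simp [addL]
  | cons x a ih =>
    intro b k
    cases b with
    | nil => simp [addL]
    | cons y b =>
      cases k with
      | zero => simp [addL]
      | succ k =>
        have := ih b k
        simpa [addL] using this

def stepL1 (c : Bool) (t : List ℕ × List ℕ × List ℕ) : List ℕ × List ℕ × List ℕ :=
  match c with
  | false => (0 :: addL t.1 t.2.1, addL (0 :: t.2.1) (addL t.2.1 t.1), 0 :: t.2.2)
  | true => (0 :: addL t.1 t.2.2, 0 :: t.2.1, addL (0 :: t.2.2) (addL t.2.2 t.1))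

def dp1 (W : List Bool) : List ℕ × List ℕ × List ℕ := W.foldr stepL1 ([1], [], [])

lemma getD_cons_zero' (l : List ℕ) (k : ℕ) :
    (0 :: l).getD k 0 = if 1 ≤ k then l.getD (k - 1) 0 else 0 := by
  cases k with
  | zero => simp
  | succ k => simp

lemma dp1_spec : ∀ (W : List Bool) (k : ℕ),
    (dp1 W).1.getD k 0 = cnt step1 fin1 wt1 W none k ∧
    (dp1 W).2.1.getD k 0 = cnt step1 fin1 wt1 W (some false) k ∧
    (dp1 W).2.2.getD k 0 = cnt step1 fin1 wt1 W (some true) k := by
  intro W
  induction W with
  | nil =>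
    intro k
    cases k with
    | zero => simp [dp1, cnt, fin1]
    | succ k => simp [dp1, cnt, fin1]
  | cons c W ih =>
    intro k
    have h1 := fun k => (ih k).1
    have h2 := fun k => (ih k).2.1
    have h3 := fun k => (ih k).2.2
    have hdp : dp1 (c :: W) = stepL1 c (dp1 W) := rfl
    rw [hdp]
    cases c with
    | false =>
      simp only [stepL1, cnt, Fintype.sum_prod_type, Fintype.sum_bool, step1, wt1,
        getD_addL, getD_cons_zero', h1, h2, h3, reduceCtorEq, if_false, if_true, zero_le,
        Nat.sub_zero]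
      by_cases hk : 1 ≤ k
      · simp [hk]
        refine ⟨by ring, by ring⟩
      · simp [hk]
    | true =>
      simp only [stepL1, cnt, Fintype.sum_prod_type, Fintype.sum_bool, step1, wt1,
        getD_addL, getD_cons_zero', h1, h2, h3, reduceCtorEq, if_false, if_true, zero_le,
        Nat.sub_zero]
      by_cases hk : 1 ≤ k
      · simp [hk]
        refine ⟨by ring, by ring⟩
      · simp [hk]

/-- states in the order `p0, pa, mm, s0, sb` -/
def stepL2 (c : Bool) (t : List ℕ × List ℕ × List ℕ × List ℕ × List ℕ) :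
    List ℕ × List ℕ × List ℕ × List ℕ × List ℕ :=
  match c with
  | false => (0 :: addL t.1 (addL t.2.1 t.2.2.1), addL (0 :: t.2.1) (addL t.2.1 t.1),
      addL (0 :: t.2.2.1) (addL t.2.2.1 t.2.2.2.1), 0 :: t.2.2.2.1, 0 :: t.2.2.2.2)
  | true => (0 :: addL t.1 t.2.2.1, 0 :: t.2.1,
      addL (0 :: t.2.2.1) (addL t.2.2.1 t.2.2.2.1), 0 :: addL t.2.2.2.1 t.2.2.2.2,
      addL (0 :: t.2.2.2.2) (addL t.2.2.2.2 t.2.2.2.1))

def dp2 (W : List Bool) : List ℕ × List ℕ × List ℕ × List ℕ × List ℕ :=
  W.foldr stepL2 ([], [], [], [1], [])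

lemma dp2_spec : ∀ (W : List Bool) (k : ℕ),
    (dp2 W).1.getD k 0 = cnt step2 fin2 wt2 W .p0 k ∧
    (dp2 W).2.1.getD k 0 = cnt step2 fin2 wt2 W .pa k ∧
    (dp2 W).2.2.1.getD k 0 = cnt step2 fin2 wt2 W .mm k ∧
    (dp2 W).2.2.2.1.getD k 0 = cnt step2 fin2 wt2 W .s0 k ∧
    (dp2 W).2.2.2.2.getD k 0 = cnt step2 fin2 wt2 W .sb k := by
  intro W
  induction W with
  | nil =>
    intro k
    cases k with
    | zero => simp [dp2, cnt, fin2]
    | succ k => simp [dp2, cnt, fin2]
  | cons c W ih =>
    intro k
    have h1 := fun k => (ih k).1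
    have h2 := fun k => (ih k).2.1
    have h3 := fun k => (ih k).2.2.1
    have h4 := fun k => (ih k).2.2.2.1
    have h5 := fun k => (ih k).2.2.2.2
    have hdp : dp2 (c :: W) = stepL2 c (dp2 W) := rfl
    rw [hdp]
    cases c with
    | false =>
      simp only [stepL2, cnt, Fintype.sum_prod_type, Fintype.sum_bool, step2, wt2,
        getD_addL, getD_cons_zero', h1, h2, h3, h4, h5, reduceCtorEq, if_false, if_true, zero_le,
        Nat.sub_zero]
      by_cases hk : 1 ≤ k
      · simp [hk]
        refine ⟨by ring, by ring, by ring⟩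
      · simp [hk]
    | true =>
      simp only [stepL2, cnt, Fintype.sum_prod_type, Fintype.sum_bool, step2, wt2,
        getD_addL, getD_cons_zero', h1, h2, h3, h4, h5, reduceCtorEq, if_false, if_true, zero_le,
        Nat.sub_zero]
      by_cases hk : 1 ≤ k
      · simp [hk]
        refine ⟨by ring, by ring, by ring, by ring⟩
      · simp [hk]

/-! ### the example with 88 leaves -/

def blk : List Bool := [true, true, true, false, false, false, false, false]

/-- the colouring of the positions -/
def W88 : List Bool := blk ++ blk ++ blk ++ blk ++ blk ++ blk ++ blk ++ blk ++ blk ++ blk ++ blk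

lemma W88_length : W88.length = 88 := by decide

def posT (i : ℕ) : ℕ := if i % 8 < 3 then 55 + 3 * (i / 8) + i % 8 else 5 * (i / 8) + (i % 8 - 3)

lemma posT_lt : ∀ i : Fin 88, posT i.val < 88 := by decide +kernel

def tltb (i j : ℕ) : Bool :=
  (!(wf W88 i) && wf W88 j) || ((wf W88 i == wf W88 j) && decide (i < j))

lemma posT_tlt_aux : ∀ i j : Fin 88, decide (posT i.val < posT j.val) = tltb i.val j.val := by
  decide +kernel

lemma posT_tlt (i j : Fin 88) : posT i.val < posT j.val ↔ tlt (wf W88) i.val j.val := by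
  have h := posT_tlt_aux i j
  have h1 : tlt (wf W88) i.val j.val ↔ tltb i.val j.val = true := by
    unfold tlt tltb
    cases wf W88 i.val <;> cases wf W88 j.val <;> simp
  rw [h1, ← h, decide_eq_true_iff]

def fT (i : Fin 88) : Fin 88 := ⟨posT i.val, posT_lt i⟩

lemma fT_inj : Function.Injective fT := by
  intro i j h
  have h' : posT i.val = posT j.val := congrArg Fin.val h
  have h1 : ¬ tlt (wf W88) i.val j.val := by rw [← posT_tlt]; omega
  have h2 : ¬ tlt (wf W88) j.val i.val := by rw [← posT_tlt]; omega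
  unfold tlt at h1 h2
  ext
  cases hi : wf W88 i.val <;> cases hj : wf W88 j.val <;> simp_all <;> omega

noncomputable def eT : Fin (86 + 2) ≃ Fin (86 + 2) :=
  Equiv.ofBijective fT (Finite.injective_iff_bijective.1 fT_inj)

lemma eT_lt (i j : Fin (86 + 2)) : eT i < eT j ↔ tlt (wf W88) i.val j.val := posT_tlt i j

/-- the sequence of the example -/
noncomputable def aa (k : ℕ) : ℕ :=
  commonCount (n := 86 + 2) (cat 86) (fun i => .inl (eT i)) (cat 86) (fun i => .inl ((Equiv.refl _) i)) k

lemma aa_eq (k : ℕ) : aa k = (PP 88 (wf W88) k).ncard := by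
  unfold aa commonCount PP
  congr 1
  ext p
  simp only [Set.mem_ofPred_eq]
  rw [induced_perm (by norm_num), induced_perm (by norm_num), SD_iff_TSD (w := wf W88) eT_lt]
  have : SD (fun i j => (Equiv.refl (Fin (86 + 2))) i < (Equiv.refl (Fin (86 + 2))) j) p ↔ FSD p := SD_iff_FSD
  rw [this]
  tauto

lemma val52 : (dp1 W88).1.getD 52 0 + (dp2 W88).1.getD 52 0 < Nat.choose 88 44 := by decide +kernel

lemma val58 : (dp1 W88).1.getD 52 0 + (dp2 W88).1.getD 52 0 < (dp1 W88).1.getD 58 0 := by
  decide +kernel

lemma aa_45 : aa 52 < aa 45 := by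
  rw [aa_eq, aa_eq]
  have h1 := upper W88 88 W88_length 52
  rw [← (dp1_spec W88 52).1, ← (dp2_spec W88 52).1] at h1
  have h2 := lower_single 88 (wf W88) 45 (by norm_num) (by norm_num)
  have h3 := val52
  have h4 : (45 - 1 : ℕ) = 44 := rfl
  rw [h4] at h2
  omega

lemma aa_58 : aa 52 < aa 58 := by
  rw [aa_eq, aa_eq]
  have h1 := upper W88 88 W88_length 52
  rw [← (dp1_spec W88 52).1, ← (dp2_spec W88 52).1] at h1
  have h2 := lower W88 88 W88_length 58
  rw [← (dp1_spec W88 58).1] at h2
  have h3 := val58
  omega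

lemma aa_pos (k : ℕ) (h1 : 1 ≤ k) (h2 : k < 88) : 0 < aa k := by
  rw [aa_eq]
  have h := lower_single 88 (wf W88) k h1 h2
  have : 0 < Nat.choose 88 (k - 1) := Nat.choose_pos (by omega)
  omega

theorem not_unimodal : ¬ UnimodalOn 88 aa := by
  rintro ⟨m, hm1, hm2, hinc, hdec⟩
  have h45 := aa_45
  have h58 := aa_58
  rcases le_or_gt 52 m with h | h
  · have : aa 45 ≤ aa 52 := by
      have h1 := hinc 45 (by norm_num) (by omega)
      have h2 := hinc 46 (by norm_num) (by omega)
      have h3 := hinc 47 (by norm_num) (by omega)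
      have h4 := hinc 48 (by norm_num) (by omega)
      have h5 := hinc 49 (by norm_num) (by omega)
      have h6 := hinc 50 (by norm_num) (by omega)
      have h7 := hinc 51 (by norm_num) (by omega)
      norm_num at h1 h2 h3 h4 h5 h6 h7
      omega
    omega
  · have : aa 58 ≤ aa 52 := by
      have h1 := hdec 52 (by omega) (by norm_num)
      have h2 := hdec 53 (by omega) (by norm_num)
      have h3 := hdec 54 (by omega) (by norm_num)
      have h4 := hdec 55 (by omega) (by norm_num)
      have h5 := hdec 56 (by omega) (by norm_num)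
      have h6 := hdec 57 (by omega) (by norm_num)
      norm_num at h1 h2 h3 h4 h5 h6
      omega
    omega

theorem not_logconcave : ∃ k, 1 < k ∧ k < 88 ∧ aa k ^ 2 < aa (k - 1) * aa (k + 1) := by
  by_contra hcon
  push Not at hcon
  -- once decreasing, always decreasing
  have key : ∀ i, 1 ≤ i → i + 2 ≤ 88 → i + 1 < 88 → aa (i + 1) < aa i → aa (i + 2) < aa (i + 1) := by
    intro i h1 h2 h3 h4
    have h5 := hcon (i + 1) (by omega) (by omega)
    have h6 : i + 1 - 1 = i := by omega
    rw [h6] at h5
    have h7 : 0 < aa i := aa_pos i h1 (by omega)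
    have h8 : 0 < aa (i + 1) := aa_pos (i + 1) (by omega) h3
    by_contra h9
    push Not at h9
    have h10 : aa i * aa (i + 1) ≤ aa i * aa (i + 1 + 1) := Nat.mul_le_mul_left _ h9
    have h11 : aa (i + 1) ^ 2 < aa i * aa (i + 1) := by
      rw [sq]
      exact Nat.mul_lt_mul_of_pos_right h4 h8
    omega
  have h45 := aa_45
  have h58 := aa_58
  -- some descent among 45..51
  have hdesc : ∃ j, 45 ≤ j ∧ j < 52 ∧ aa (j + 1) < aa j := by
    by_contra hno
    push Not at hno
    have h1 := hno 45 (by norm_num) (by norm_num)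
    have h2 := hno 46 (by norm_num) (by norm_num)
    have h3 := hno 47 (by norm_num) (by norm_num)
    have h4 := hno 48 (by norm_num) (by norm_num)
    have h5 := hno 49 (by norm_num) (by norm_num)
    have h6 := hno 50 (by norm_num) (by norm_num)
    have h7 := hno 51 (by norm_num) (by norm_num)
    norm_num at h1 h2 h3 h4 h5 h6 h7
    omega
  obtain ⟨j, hj1, hj2, hj3⟩ := hdesc
  have hall : ∀ d, j + d < 58 → aa (j + d + 1) < aa (j + d) := by
    intro d
    induction d with
    | zero => intro _; exact hj3
    | succ d ih =>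
      intro hd
      exact key (j + d) (by omega) (by omega) (by omega) (ih (by omega))
  have hfin : ∀ d, 52 + d ≤ 58 → aa (52 + d) ≤ aa 52 := by
    intro d
    induction d with
    | zero => intro _; exact le_refl _
    | succ d ih =>
      intro hd
      have h1 := hall (52 + d - j) (by omega)
      have h2 : j + (52 + d - j) = 52 + d := by omega
      rw [h2] at h1
      exact h1.le.trans (ih (by omega))
  have := hfin 6 (by norm_num)
  norm_num at this
  omega

theorem phyloT : IsPhylo (n := 86 + 2) (cat 86) (fun i => .inl (eT i)) :=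
  cat_isPhylo (by norm_num) eT

theorem phyloF : IsPhylo (n := 86 + 2) (cat 86) (fun i => .inl ((Equiv.refl _) i)) :=
  cat_isPhylo (by norm_num) (Equiv.refl _)

end Pool.Agent.Helper71.Uni
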